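import Pool.Agent.Run7.h651.WN.LAW

set_option autoImplicit false

/-! The phase of zeta in the moment measures: the densities `1 + Re (c (ζ/|ζ|)^n)` and the main terms -/

namespace Run7.h701.PH

open Finset Filter MeasureTheory Topology Complex
open Pool.Agent.N748.MG Pool.Agent.N748.MJ Run7.h651.WN

/-- the power of the phase -/
noncomputable def ph (n : ℤ) (δ u : ℝ) : ℂ := (riemannZeta (pw δ u) / ((‖riemannZeta (pw δ u)‖ : ℝ) : ℂ)) ^ n

/-- the density -/
noncomputable def pc (c : ℂ) (n : ℤ) (δ u : ℝ) : ℝ := 1 + (c * ph n δ u).re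

lemma ph_norm {n : ℤ} {δ u : ℝ} (h : 0 < mz δ u) : ‖ph n δ u‖ = 1 := by
  have h' : ‖riemannZeta (pw δ u)‖ ≠ 0 := ne_of_gt h
  unfold ph
  rw [norm_zpow, norm_div, Complex.norm_real, Real.norm_of_nonneg (norm_nonneg _), div_self h', one_zpow]

lemma ph_le {n : ℤ} (hn : n ≠ 0) (δ u : ℝ) : ‖ph n δ u‖ ≤ 1 := by
  rcases (norm_nonneg (riemannZeta (pw δ u))).eq_or_lt with h | h
  · have h2 : riemannZeta (pw δ u) = 0 := norm_eq_zero.1 h.symm
    unfold ph
    rw [h2, zero_div, zero_zpow n hn, norm_zero]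
    exact zero_le_one
  · exact (ph_norm h).le

lemma pc_nn {c : ℂ} (hc : ‖c‖ ≤ 1) {n : ℤ} (hn : n ≠ 0) (δ u : ℝ) : 0 ≤ pc c n δ u := by
  unfold pc
  have h1 := (abs_le.1 (Complex.abs_re_le_norm (c * ph n δ u))).1
  have h2 : ‖c * ph n δ u‖ ≤ 1 := by
    rw [norm_mul]
    exact mul_le_one₀ hc (norm_nonneg _) (ph_le hn δ u)
  linarith

lemma pc_le {c : ℂ} (hc : ‖c‖ ≤ 1) {n : ℤ} (hn : n ≠ 0) (δ u : ℝ) : pc c n δ u ≤ 2 := by
  unfold pc
  have h1 := (abs_le.1 (Complex.abs_re_le_norm (c * ph n δ u))).2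
  have h2 : ‖c * ph n δ u‖ ≤ 1 := by
    rw [norm_mul]
    exact mul_le_one₀ hc (norm_nonneg _) (ph_le hn δ u)
  linarith

lemma ph_meas (n : ℤ) {δ : ℝ} (h0 : 0 < δ) (h1 : δ ≤ 1 / 16) : Measurable fun u => ph n δ u := by
  have hz : Measurable fun t : ℝ => riemannZeta (pw δ t) := (JM.zc δ h0 h1).measurable
  unfold ph
  exact (hz.div (Complex.measurable_ofReal.comp hz.norm)).pow_const n

lemma pc_meas (c : ℂ) (n : ℤ) {δ : ℝ} (h0 : 0 < δ) (h1 : δ ≤ 1 / 16) : Measurable fun u => pc c n δ u := by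
  unfold pc
  exact measurable_const.add (Complex.measurable_re.comp ((ph_meas n h0 h1).const_mul c))

/-- the signs -/
def s3 : Fin 3 → ℤ := ![0, 1, -1]

/-- the coefficients -/
noncomputable def k3 (c : ℂ) : Fin 3 → ℂ := ![1, c / 2, (starRingEnd ℂ) c / 2]

lemma k3_norm {c : ℂ} (hc : ‖c‖ ≤ 1) (e : Fin 3) : ‖k3 c e‖ ≤ 1 := by
  fin_cases e
  · simp [k3]
  · show ‖c / 2‖ ≤ 1
    rw [norm_div]
    have : ‖(2:ℂ)‖ = 2 := by simp
    rw [this]
    linarith
  · show ‖(starRingEnd ℂ) c / 2‖ ≤ 1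
    rw [norm_div, Complex.norm_conj]
    have : ‖(2:ℂ)‖ = 2 := by simp
    rw [this]
    linarith

lemma ph_conj {n : ℤ} {δ u : ℝ} (h : 0 < mz δ u) : (starRingEnd ℂ) (ph n δ u) = ph (-n) δ u := by
  have h1 := ph_norm (n := n) h
  rw [← Complex.inv_eq_conj h1]
  unfold ph
  rw [zpow_neg]

lemma pc_sum (c : ℂ) {n : ℤ} {δ u : ℝ} (h : 0 < mz δ u) :
    ((pc c n δ u : ℝ) : ℂ) = ∑ e : Fin 3, k3 c e * ph (s3 e * n) δ u := by
  have h1 : (((c * ph n δ u).re : ℝ) : ℂ) = (c * ph n δ u + (starRingEnd ℂ) (c * ph n δ u)) / 2 := by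
    rw [Complex.re_eq_add_conj]
  rw [Fin.sum_univ_three]
  unfold pc
  push_cast
  rw [h1, map_mul, ph_conj h]
  simp only [k3, s3, Matrix.cons_val_zero, Matrix.cons_val_one, Matrix.cons_val_two, Matrix.tail_cons, Matrix.head_cons,
    zero_mul, one_mul, neg_mul]
  have h2 : ph 0 δ u = 1 := by unfold ph; rw [zpow_zero]
  rw [h2]
  ring

lemma ZZ_ph (b : ℂ) (n : ℤ) (δ u : ℝ) : ZZ (riemannZeta (pw δ u)) b 0 * ph n δ u = ZZ (riemannZeta (pw δ u)) b n := by
  unfold ZZ ph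
  rw [zpow_zero, mul_one]

variable {m : ℕ}

/-- the expansion of the product -/
lemma prod_sum (c : ℂ) (n : ℤ) {δ t : ℝ} (h : Fin m → ℝ) (b : Fin m → ℂ) (ht : ∀ j, 0 < mz δ (t + h j)) :
    (∏ j, ZZ (riemannZeta (pw δ (t + h j))) (b j) 0) * ((∏ j, pc c n δ (t + h j) : ℝ) : ℂ) =
      ∑ p : Fin m → Fin 3, (∏ j, k3 c (p j)) * ∏ j, ZZ (riemannZeta (pw δ (t + h j))) (b j) (s3 (p j) * n) := by
  rw [Complex.ofReal_prod, Finset.prod_congr rfl fun j _ => pc_sum c (n := n) (ht j), Finset.prod_univ_sum,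
    Fintype.piFinset_univ, mul_sum]
  refine sum_congr rfl fun p _ => ?_
  rw [Finset.prod_mul_distrib, mul_left_comm, ← Finset.prod_mul_distrib]
  congr 1
  exact Finset.prod_congr rfl fun j _ => ZZ_ph _ _ _ _

/-- the real part of the logarithm of zeta at distance at least one -/
lemma re_bd (hZ : S_LZB) (m : ℕ) (D K : ℝ) (hD : 0 < D) : ∃ B : ℝ, 0 ≤ B ∧ Ev fun _ δ => ∀ h : Fin m → ℝ,
    (∀ j, |h j| ≤ δ ^ (-D)) → (∀ j l, j ≠ l → 1 ≤ |h j - h l| ∧ -K ≤ (LZ (1 + 2 * δ) (h j - h l)).re) →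
    ∀ j l, j ≠ l → |(LZ (1 + 2 * δ) (h j - h l)).re| ≤ B * √(Real.log (1 / δ)) := by
  have h64 : 0 ≤ (6 + D) ^ ((1:ℝ) / 2) := by positivity
  refine ⟨|K| + 2 * (6 + D) ^ ((1:ℝ) / 2), by positivity, (Ev.of_le (show (0:ℝ) < 1 / 16 by norm_num)).mono ?_⟩
  intro X δ hX hδ hδ1 _ h hh hhl j l hjl
  set L := Real.log (1 / δ) with hL
  have hL1' : 1 ≤ L := log_inv_ge hδ hδ1
  have hL0 : 0 < L := by linarith
  have hsq : 1 ≤ √L := by rw [Real.one_le_sqrt]; exact hL1'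
  obtain ⟨g1, g2⟩ := hhl j l hjl
  have g3 := LZ_up hZ hδ hδ1 g1
  have g4 : |h j - h l| ≤ 2 * δ ^ (-D) := by
    refine (abs_sub _ _).trans ?_
    linarith [hh j, hh l]
  have g5 : δ ^ (-D) = Real.exp (D * L) := by
    rw [Real.rpow_def_of_pos hδ, hL, one_div, Real.log_inv]
    congr 1
    ring
  have g6 : Real.log (1 + |h j - h l|) ≤ 2 + D * L := by
    have h0 : 0 < 1 + |h j - h l| := by have := abs_nonneg (h j - h l); linarith
    rw [Real.log_le_iff_le_exp h0, Real.exp_add]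
    have h1 : 1 ≤ Real.exp (D * L) := Real.one_le_exp (by positivity)
    have h2 : 3 ≤ Real.exp 2 := by
      have := Real.add_one_le_exp (2 : ℝ)
      linarith
    rw [g5] at g4
    nlinarith
  have hp1 : 0 < 4 + Real.log (1 + |h j - h l|) := by
    have : 0 ≤ Real.log (1 + |h j - h l|) := Real.log_nonneg (by have := abs_nonneg (h j - h l); linarith)
    linarith
  have g7 : Real.log (4 + Real.log (1 + |h j - h l|)) ≤ 2 * (6 + D) ^ ((1:ℝ) / 2) * √L := by
    have h1 : 4 + Real.log (1 + |h j - h l|) ≤ (6 + D) * L := by nlinarith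
    have h2 := Real.log_le_log hp1 h1
    have h3 := Real.log_le_rpow_div (x := (6 + D) * L) (by positivity) (ε := (1:ℝ) / 2) (by norm_num)
    rw [Real.mul_rpow (by positivity) hL0.le] at h3
    rw [Real.sqrt_eq_rpow]
    have h4 : (6 + D) ^ ((1:ℝ) / 2) * L ^ ((1:ℝ) / 2) / (1 / 2) = 2 * (6 + D) ^ ((1:ℝ) / 2) * L ^ ((1:ℝ) / 2) := by
      ring
    rw [h4] at h3
    exact h2.trans h3
  have g8 : 0 ≤ 2 * (6 + D) ^ ((1:ℝ) / 2) * √L := by positivity
  have g9 : |K| ≤ |K| * √L := le_mul_of_one_le_right (abs_nonneg K) hsq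
  have g11 := le_abs_self K
  have g13 : (|K| + 2 * (6 + D) ^ ((1:ℝ) / 2)) * √L = |K| * √L + 2 * (6 + D) ^ ((1:ℝ) / 2) * √L := by ring
  have g14 : 0 ≤ |K| * √L := by positivity
  rw [abs_le, g13]
  constructor <;> linarith

/-- the main terms with phases are small -/
theorem lmp (hZ : S_LZB) (m : ℕ) (k D K R : ℝ) (hk : 0 < k) (hD : 0 < D) (hR : 0 < R) (n : ℤ) (hn : n ≠ 0)
    (ε : ℝ) (hε : 0 < ε) :
    Ev fun X δ => ∀ h : Fin m → ℝ, (∀ j, |h j| ≤ δ ^ (-D)) →
      (∀ j l, j ≠ l → 1 ≤ |h j - h l| ∧ -K ≤ (LZ (1 + 2 * δ) (h j - h l)).re) →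
      ∀ ξ : Fin m → ℝ, (∀ j, |ξ j| ≤ R) → ∀ p : Fin m → Fin 3, (∃ j, p j ≠ 0) →
      ‖cexp (LM (sp (be k (Real.log (1 / δ)) ξ) fun j => s3 (p j) * n)
        (sm (be k (Real.log (1 / δ)) ξ) fun j => s3 (p j) * n) h δ)‖ ≤ ε * Real.exp (SM.Lr (fun _ => k) h δ) := by
  obtain ⟨B, hB, E1⟩ := re_bd hZ m D K hD
  obtain ⟨C, hC0, hC⟩ := LZ_zero hZ
  set q : ℝ := |(n:ℝ)| / 2 with hq
  have hq0 : 0 < q := by
    have : (n:ℝ) ≠ 0 := by exact_mod_cast hn
    positivity
  -- the constants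
  set A1 : ℝ := (m:ℝ) * ((m:ℝ) * (R ^ 2 + R * (2 * k + 2 * q) + q ^ 2 * B)) + q ^ 2 * C with hA1
  have hA10 : 0 ≤ A1 := by positivity
  have hlim : ∀ᶠ L : ℝ in atTop, A1 * √L - q ^ 2 * L ≤ Real.log ε := by
    have h1 : Tendsto (fun L : ℝ => q ^ 2 * √L - A1) atTop atTop :=
      tendsto_atTop_add_const_right _ _ (Tendsto.const_mul_atTop (by positivity) Real.tendsto_sqrt_atTop)
    filter_upwards [h1.eventually_ge_atTop (|Real.log ε|), eventually_ge_atTop 1] with L h2 h3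
    have h4 : 1 ≤ √L := by rw [Real.one_le_sqrt]; exact h3
    have h5 : √L * √L = L := Real.mul_self_sqrt (by linarith)
    have h6 : A1 * √L - q ^ 2 * L = -(√L * (q ^ 2 * √L - A1)) := by
      rw [← h5]
      have : √(√L * √L) = √L := by rw [h5]
      rw [this]
      ring
    rw [h6]
    have h7 := neg_abs_le (Real.log ε)
    have h8 := abs_nonneg (Real.log ε)
    nlinarith
  refine ((E1.and (Ev.of_log hlim)).and (Ev.of_log (eventually_ge_atTop C))).mono ?_
  rintro X δ hX hδ hδ1 ⟨⟨E1, hL1⟩, hCL⟩ h hh hhl ξ hξ p ⟨j0, hj0⟩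
  set L := Real.log (1 / δ) with hL
  have hL1' : 1 ≤ L := log_inv_ge hδ hδ1
  have hL0 : 0 < L := by linarith
  have hsL : 0 < √L := Real.sqrt_pos.2 hL0
  have hsL1 : 1 ≤ √L := by rw [Real.one_le_sqrt]; exact hL1'
  have hss : √L * √L = L := Real.mul_self_sqrt hL0.le
  set τ : Fin m → ℝ := fun j => ξ j / √(2 * L) with hτ
  set ν : Fin m → ℝ := fun j => ((s3 (p j) * n : ℤ) : ℝ) / 2 with hν
  have hτb : ∀ j, |τ j| ≤ R / √L := fun j => tau_le hL1' hR.le (hξ j)
  have hs3 : ∀ e : Fin 3, |((s3 e : ℤ) : ℝ)| ≤ 1 := by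
    intro e
    fin_cases e <;> simp [s3]
  have hνb : ∀ j, |ν j| ≤ q := by
    intro j
    simp only [hν, hq]
    rw [abs_div, Int.cast_mul, abs_mul, abs_of_pos (show (0:ℝ) < 2 by norm_num)]
    have := mul_le_mul_of_nonneg_right (hs3 (p j)) (abs_nonneg (n:ℝ))
    linarith
  have hν0 : ν j0 ^ 2 = q ^ 2 := by
    simp only [hν, hq]
    have h2 : ((s3 (p j0) : ℤ) : ℝ) ^ 2 = 1 := by
      rcases (show p j0 = 1 ∨ p j0 = 2 by
        have := hj0
        omega) with h3 | h3 <;> rw [h3] <;> simp [s3]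
    rw [div_pow, div_pow, Int.cast_mul, mul_pow, h2, sq_abs, one_mul]
  have hLM : (LM (sp (be k L ξ) fun j => s3 (p j) * n) (sm (be k L ξ) fun j => s3 (p j) * n) h δ).re =
      ∑ j, ∑ l, (((k + ν j) * (k - ν l) - τ j * τ l) * (LZ (1 + 2 * δ) (h j - h l)).re -
        (τ j * (k - ν l) + τ l * (k + ν j)) * (LZ (1 + 2 * δ) (h j - h l)).im) := by
    unfold LM
    rw [Complex.re_sum]
    refine sum_congr rfl fun j _ => ?_
    rw [Complex.re_sum]
    refine sum_congr rfl fun l _ => ?_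
    have e1 : sp (be k L ξ) (fun j => s3 (p j) * n) j = ((k + ν j : ℝ) : ℂ) + ((τ j : ℝ) : ℂ) * I := by
      unfold sp be
      simp only [hν, hτ]
      push_cast
      ring
    have e2 : sm (be k L ξ) (fun j => s3 (p j) * n) l = ((k - ν l : ℝ) : ℂ) + ((τ l : ℝ) : ℂ) * I := by
      unfold sm be
      simp only [hν, hτ]
      push_cast
      ring
    rw [e1, e2]
    simp only [Complex.mul_re, Complex.mul_im, Complex.add_re, Complex.add_im, Complex.ofReal_re, Complex.ofReal_im,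
      Complex.I_re, Complex.I_im]
    ring
  have hsym : ∀ j l, (LZ (1 + 2 * δ) (h j - h l)).re = (LZ (1 + 2 * δ) (h l - h j)).re := by
    intro j l
    have := LZ_conj hδ (h l - h j)
    rw [neg_sub] at this
    rw [this, Complex.conj_re]
  have hanti : ∑ j, ∑ l, (k * (ν j - ν l)) * (LZ (1 + 2 * δ) (h j - h l)).re = 0 := by
    have h1 : ∑ j, ∑ l, (k * (ν j - ν l)) * (LZ (1 + 2 * δ) (h j - h l)).re =
        -∑ j, ∑ l, (k * (ν j - ν l)) * (LZ (1 + 2 * δ) (h j - h l)).re := by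
      conv_lhs => rw [sum_comm]
      rw [← sum_neg_distrib]
      refine sum_congr rfl fun j _ => ?_
      rw [← sum_neg_distrib]
      refine sum_congr rfl fun l _ => ?_
      rw [hsym l j]
      ring
    linarith
  have hsplit : (LM (sp (be k L ξ) fun j => s3 (p j) * n) (sm (be k L ξ) fun j => s3 (p j) * n) h δ).re =
      SM.Lr (fun _ => k) h δ - ∑ j, ∑ l, (ν j * ν l) * (LZ (1 + 2 * δ) (h j - h l)).re -
        ∑ j, ∑ l, (τ j * τ l * (LZ (1 + 2 * δ) (h j - h l)).re +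
          (τ j * (k - ν l) + τ l * (k + ν j)) * (LZ (1 + 2 * δ) (h j - h l)).im) := by
    rw [hLM]
    have h2 : SM.Lr (fun _ => k) h δ = ∑ j : Fin m, ∑ l : Fin m, k * k * (LZ (1 + 2 * δ) (h j - h l)).re := rfl
    rw [h2, ← sub_zero (∑ j : Fin m, ∑ l : Fin m, k * k * (LZ (1 + 2 * δ) (h j - h l)).re), ← neg_zero, ← hanti, sub_neg_eq_add,
      ← sum_add_distrib, ← sum_sub_distrib, ← sum_sub_distrib]
    refine sum_congr rfl fun j _ => ?_
    rw [← sum_add_distrib, ← sum_sub_distrib, ← sum_sub_distrib]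
    refine sum_congr rfl fun l _ => ?_
    ring
  -- the quadratic form
  have hquad : q ^ 2 * L - ((m:ℝ) * ((m:ℝ) * (q ^ 2 * B)) + q ^ 2 * C) * √L ≤
      ∑ j, ∑ l, (ν j * ν l) * (LZ (1 + 2 * δ) (h j - h l)).re := by
    have hl0 := (abs_le.1 (hC δ hδ hδ1)).1
    rw [← hL] at hl0
    have hz : 0 ≤ (LZ (1 + 2 * δ) 0).re := by linarith
    have d1 : ∀ j, ν j ^ 2 * (LZ (1 + 2 * δ) 0).re - ∑ _l : Fin m, q ^ 2 * (B * √L) ≤
        ∑ l, (ν j * ν l) * (LZ (1 + 2 * δ) (h j - h l)).re := by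
      intro j
      rw [sub_le_iff_le_add, ← sum_add_distrib]
      have h2 : ν j ^ 2 * (LZ (1 + 2 * δ) 0).re ≤
          (ν j * ν j) * (LZ (1 + 2 * δ) (h j - h j)).re + q ^ 2 * (B * √L) := by
        rw [sub_self]
        have : 0 ≤ q ^ 2 * (B * √L) := by positivity
        nlinarith
      refine h2.trans (Finset.single_le_sum (f := fun l => (ν j * ν l) * (LZ (1 + 2 * δ) (h j - h l)).re + q ^ 2 * (B * √L))
        (fun l _ => ?_) (mem_univ j))
      show 0 ≤ (ν j * ν l) * (LZ (1 + 2 * δ) (h j - h l)).re + q ^ 2 * (B * √L)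
      by_cases hjl : j = l
      · subst hjl
        rw [sub_self]
        have : 0 ≤ q ^ 2 * (B * √L) := by positivity
        have := mul_self_nonneg (ν j)
        positivity
      · have h3 := E1 h hh hhl j l hjl
        have h4 : |(ν j * ν l) * (LZ (1 + 2 * δ) (h j - h l)).re| ≤ q ^ 2 * (B * √L) := by
          rw [abs_mul, abs_mul, sq]
          exact mul_le_mul (mul_le_mul (hνb j) (hνb l) (abs_nonneg _) hq0.le) h3 (abs_nonneg _) (by positivity)
        have := (abs_le.1 h4).1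
        linarith
    have d2 := sum_le_sum fun j (_ : j ∈ (univ : Finset (Fin m))) => d1 j
    rw [sum_sub_distrib] at d2
    have d3 : q ^ 2 * (L - C) ≤ ∑ j, ν j ^ 2 * (LZ (1 + 2 * δ) 0).re := by
      have h5 : ν j0 ^ 2 * (LZ (1 + 2 * δ) 0).re ≤ ∑ j, ν j ^ 2 * (LZ (1 + 2 * δ) 0).re :=
        Finset.single_le_sum (f := fun j => ν j ^ 2 * (LZ (1 + 2 * δ) 0).re) (fun j _ => by positivity) (mem_univ j0)
      rw [hν0] at h5
      refine le_trans (mul_le_mul_of_nonneg_left (by linarith) (sq_nonneg q)) h5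
    have d4 : ∑ _j : Fin m, ∑ _l : Fin m, q ^ 2 * (B * √L) = (m:ℝ) * ((m:ℝ) * (q ^ 2 * B)) * √L := by
      rw [sum_const, sum_const, card_univ, Fintype.card_fin, nsmul_eq_mul, nsmul_eq_mul]
      ring
    rw [d4] at d2
    have d5 : q ^ 2 * C ≤ q ^ 2 * C * √L := le_mul_of_one_le_right (by positivity) hsL1
    nlinarith
  have hcross : -((m:ℝ) * ((m:ℝ) * (R ^ 2 + R * (2 * k + 2 * q)))) * √L ≤
      ∑ j, ∑ l, (τ j * τ l * (LZ (1 + 2 * δ) (h j - h l)).re +
          (τ j * (k - ν l) + τ l * (k + ν j)) * (LZ (1 + 2 * δ) (h j - h l)).im) := by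
    have d1 : ∀ j l, -((R ^ 2 + R * (2 * k + 2 * q)) * √L) ≤ τ j * τ l * (LZ (1 + 2 * δ) (h j - h l)).re +
          (τ j * (k - ν l) + τ l * (k + ν j)) * (LZ (1 + 2 * δ) (h j - h l)).im := by
      intro j l
      have n1 := (hZ δ hδ hδ1 (h j - h l)).1
      rw [← hL] at n1
      have n2 := (Complex.abs_re_le_norm (LZ (1 + 2 * δ) (h j - h l))).trans n1
      have n3 := (Complex.abs_im_le_norm (LZ (1 + 2 * δ) (h j - h l))).trans n1
      have t1 := hτb j
      have t2 := hτb l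
      have e1 : |τ j * τ l * (LZ (1 + 2 * δ) (h j - h l)).re| ≤ R ^ 2 * √L := by
        rw [abs_mul, abs_mul]
        calc |τ j| * |τ l| * |(LZ (1 + 2 * δ) (h j - h l)).re| ≤ (R / √L) * (R / √L) * L := by gcongr
          _ = R ^ 2 := by
              rw [div_mul_div_comm, hss]
              field_simp
          _ ≤ R ^ 2 * √L := le_mul_of_one_le_right (sq_nonneg _) hsL1
      have e2 : |τ j * (k - ν l) + τ l * (k + ν j)| ≤ (R / √L) * (2 * k + 2 * q) := by
        have f1 : |k - ν l| ≤ k + q := by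
          refine (abs_sub _ _).trans ?_
          rw [abs_of_pos hk]
          linarith [hνb l]
        have f2 : |k + ν j| ≤ k + q := by
          refine (abs_add_le _ _).trans ?_
          rw [abs_of_pos hk]
          linarith [hνb j]
        refine (abs_add_le _ _).trans ?_
        rw [abs_mul, abs_mul]
        have g1 := mul_le_mul t1 f1 (abs_nonneg _) (by positivity)
        have g2 := mul_le_mul t2 f2 (abs_nonneg _) (by positivity)
        calc _ ≤ (R / √L) * (k + q) + (R / √L) * (k + q) := add_le_add g1 g2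
          _ = _ := by ring
      have e3 : |(τ j * (k - ν l) + τ l * (k + ν j)) * (LZ (1 + 2 * δ) (h j - h l)).im| ≤ R * (2 * k + 2 * q) * √L := by
        rw [abs_mul]
        calc |τ j * (k - ν l) + τ l * (k + ν j)| * |(LZ (1 + 2 * δ) (h j - h l)).im| ≤
              ((R / √L) * (2 * k + 2 * q)) * L := by gcongr
          _ = R * (2 * k + 2 * q) * √L := by
              have : L / √L = √L := by rw [div_eq_iff hsL.ne', hss]
              calc R / √L * (2 * k + 2 * q) * L = R * (2 * k + 2 * q) * (L / √L) := by ring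
                _ = _ := by rw [this]
      have := (abs_le.1 e1).1
      have := (abs_le.1 e3).1
      linarith
    have d2 := sum_le_sum fun j (_ : j ∈ (univ : Finset (Fin m))) => sum_le_sum fun l (_ : l ∈ (univ : Finset (Fin m))) => d1 j l
    rw [sum_const, sum_const, card_univ, Fintype.card_fin, nsmul_eq_mul, nsmul_eq_mul] at d2
    refine le_trans (le_of_eq ?_) d2
    ring
  rw [Complex.norm_exp, ← Real.exp_log hε, ← Real.exp_add]
  apply Real.exp_le_exp.2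
  rw [hsplit]
  have hL1'' : A1 * √L - q ^ 2 * L ≤ Real.log ε := hL1
  rw [hA1] at hL1''
  nlinarith

end Run7.h701.PH
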