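import Pool.Agent.Run7.h701.PH.Tr

set_option autoImplicit false

/-! Continuous functions above the indicator functions of arcs -/

namespace Run7.h701.PH

open Finset Filter MeasureTheory Topology Complex

/-- the real mean over the circle -/
noncomputable def mr (h : ℂ → ℝ) : ℝ := (1 / (2 * Real.pi)) * ∫ θ in (-Real.pi)..Real.pi, h (cexp (θ * I))

lemma mean_real (h : ℂ → ℝ) : mean (fun w => ((h w : ℝ) : ℂ)) = ((mr h : ℝ) : ℂ) := by
  unfold mean mr
  have hp : Function.Periodic (fun θ : ℝ => ((h (cexp (θ * I)) : ℝ) : ℂ)) (2 * Real.pi) := by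
    intro θ
    have h1 : cexp (((θ + 2 * Real.pi : ℝ) : ℂ) * I) = cexp (θ * I) := by
      have h2 : ((θ + 2 * Real.pi : ℝ) : ℂ) * I = θ * I + 2 * Real.pi * I := by
        push_cast
        ring
      rw [h2]
      exact Complex.exp_periodic (θ * I)
    simp only [h1]
  have h3 := hp.intervalIntegral_add_eq 0 (-Real.pi)
  rw [zero_add] at h3
  have h4 : -Real.pi + 2 * Real.pi = Real.pi := by ring
  rw [h4] at h3
  rw [h3, intervalIntegral.integral_ofReal]
  push_cast
  ring

/-- the closed arc -/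
def Ka (a b : ℝ) : Set ℂ := (fun θ : ℝ => cexp (θ * I)) '' Set.Icc a b

lemma Ka_closed (a b : ℝ) : IsClosed (Ka a b) := by
  have h1 : IsCompact (Ka a b) := isCompact_Icc.image (by fun_prop)
  exact h1.isClosed

lemma arg_exp {θ : ℝ} (h1 : -Real.pi < θ) (h2 : θ ≤ Real.pi) : (cexp (θ * I)).arg = θ := by
  rw [Complex.arg_exp_mul_I, toIocMod_eq_self]
  constructor
  · exact h1
  · linarith

/-- the cut-off functions -/
noncomputable def hK (a b : ℝ) (n : ℕ) (w : ℂ) : ℝ := max 0 (1 - n * Metric.infDist w (Ka a b))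

lemma hK_cont (a b : ℝ) (n : ℕ) : Continuous (hK a b n) := by
  unfold hK
  exact continuous_const.max (continuous_const.sub (continuous_const.mul (Metric.continuous_infDist_pt _)))

lemma hK_nn (a b : ℝ) (n : ℕ) (w : ℂ) : 0 ≤ hK a b n w := le_max_left _ _

lemma hK_le (a b : ℝ) (n : ℕ) (w : ℂ) : hK a b n w ≤ 1 := by
  unfold hK
  refine max_le zero_le_one ?_
  have h1 : 0 ≤ (n:ℝ) * Metric.infDist w (Ka a b) := mul_nonneg (Nat.cast_nonneg n) Metric.infDist_nonneg
  linarith

lemma hK_one {a b : ℝ} {n : ℕ} {w : ℂ} (h : w ∈ Ka a b) : hK a b n w = 1 := by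
  unfold hK
  rw [Metric.infDist_zero_of_mem h, mul_zero, sub_zero]
  exact max_eq_right zero_le_one

lemma hK_lim {a b : ℝ} (ha : -Real.pi ≤ a) (hab : a ≤ b) (hb : b ≤ Real.pi) {θ : ℝ} (h1 : -Real.pi < θ)
    (h2 : θ < Real.pi) :
    Tendsto (fun n : ℕ => hK a b n (cexp (θ * I))) atTop (𝓝 ((Set.Icc a b).indicator (fun _ => (1:ℝ)) θ)) := by
  by_cases h : θ ∈ Set.Icc a b
  · rw [Set.indicator_of_mem h]
    refine Tendsto.congr (fun n => ?_) tendsto_const_nhds
    exact (hK_one ⟨θ, h, rfl⟩).symm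
  · rw [Set.indicator_of_notMem h]
    have h3 : cexp (θ * I) ∉ Ka a b := by
      rintro ⟨φ, hφ, he⟩
      simp only at he
      have h4 : (cexp (θ * I)).arg = θ := arg_exp h1 h2.le
      rcases (ha.trans hφ.1).eq_or_lt with h5 | h5
      · have h6 : cexp ((φ:ℂ) * I) = cexp ((Real.pi : ℂ) * I) := by
          rw [← h5]
          push_cast
          rw [neg_mul, Complex.exp_neg, Complex.exp_pi_mul_I]
          norm_num
        have h7 : (cexp ((Real.pi:ℂ) * I)).arg = Real.pi := arg_exp (by linarith [Real.pi_pos]) le_rfl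
        rw [← he, h6, h7] at h4
        linarith
      · have h7 : (cexp ((φ:ℂ) * I)).arg = φ := arg_exp h5 (hφ.2.trans hb)
        rw [← he, h7] at h4
        exact h (h4 ▸ hφ)
    have hne : (Ka a b).Nonempty := ⟨_, a, ⟨le_rfl, hab⟩, rfl⟩
    have h5 : 0 < Metric.infDist (cexp (θ * I)) (Ka a b) :=
      ((Ka_closed a b).notMem_iff_infDist_pos hne).1 h3
    refine Tendsto.congr' ?_ tendsto_const_nhds
    obtain ⟨n0, hn0⟩ := exists_nat_ge (1 / Metric.infDist (cexp (θ * I)) (Ka a b))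
    filter_upwards [eventually_ge_atTop n0] with n hn
    unfold hK
    symm
    refine max_eq_left ?_
    have h6 : (n0:ℝ) ≤ n := by exact_mod_cast hn
    rw [div_le_iff₀ h5] at hn0
    have h7 := mul_le_mul_of_nonneg_right h6 h5.le
    linarith

lemma arcK {a b : ℝ} (ha : -Real.pi ≤ a) (hab : a ≤ b) (hb : b ≤ Real.pi) {ε : ℝ} (hε : 0 < ε) :
    ∃ h : ℂ → ℝ, Continuous h ∧ (∀ w, 0 ≤ h w) ∧ (∀ w, h w ≤ 1) ∧
      (∀ w, ‖w‖ = 1 → a ≤ w.arg → w.arg ≤ b → h w = 1) ∧ mr h ≤ (b - a) / (2 * Real.pi) + ε := by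
  have hpi := Real.pi_pos
  have hlim : Tendsto (fun n : ℕ => ∫ θ in (-Real.pi)..Real.pi, hK a b n (cexp (θ * I))) atTop
      (𝓝 (∫ θ in (-Real.pi)..Real.pi, (Set.Icc a b).indicator (fun _ => (1:ℝ)) θ)) := by
    refine intervalIntegral.tendsto_integral_filter_of_dominated_convergence (fun _ => (1:ℝ)) ?_ ?_ ?_ ?_
    · refine Eventually.of_forall fun n => ?_
      exact ((hK_cont a b n).comp (by fun_prop)).aestronglyMeasurable
    · refine Eventually.of_forall fun n => Eventually.of_forall fun θ _ => ?_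
      rw [Real.norm_of_nonneg (hK_nn a b n _)]
      exact hK_le a b n _
    · exact intervalIntegrable_const
    · have h1 : ∀ᵐ θ : ℝ, θ ≠ Real.pi := by
        rw [ae_iff]
        simp
      filter_upwards [h1] with θ hθ hθ2
      rw [Set.uIoc_of_le (by linarith)] at hθ2
      exact hK_lim ha hab hb hθ2.1 (lt_of_le_of_ne hθ2.2 hθ)
  have hint : ∫ θ in (-Real.pi)..Real.pi, (Set.Icc a b).indicator (fun _ => (1:ℝ)) θ = b - a := by
    rw [intervalIntegral.integral_of_le (by linarith), ← integral_Icc_eq_integral_Ioc,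
      setIntegral_indicator measurableSet_Icc]
    have h1 : Set.Icc (-Real.pi) Real.pi ∩ Set.Icc a b = Set.Icc a b :=
      Set.inter_eq_right.2 (Set.Icc_subset_Icc ha hb)
    rw [h1, setIntegral_const, smul_eq_mul, mul_one, Measure.real, Real.volume_Icc, ENNReal.toReal_ofReal (by linarith)]
  rw [hint] at hlim
  obtain ⟨n, hn⟩ := ((tendsto_order.1 hlim).2 (b - a + 2 * Real.pi * ε) (by
    have : 0 < 2 * Real.pi * ε := by positivity
    linarith)).exists
  refine ⟨hK a b n, hK_cont a b n, hK_nn a b n, hK_le a b n, fun w hw h1 h2 => ?_, ?_⟩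
  · refine hK_one ⟨w.arg, ⟨h1, h2⟩, ?_⟩
    have := Complex.norm_mul_exp_arg_mul_I w
    rwa [hw, Complex.ofReal_one, one_mul] at this
  · unfold mr
    rw [one_div, inv_mul_le_iff₀ (by positivity)]
    have h3 : 2 * Real.pi * ((b - a) / (2 * Real.pi) + ε) = b - a + 2 * Real.pi * ε := by
      field_simp
    rw [h3]
    exact hn.le

end Run7.h701.PH
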