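import Pool.Agent.Run7.h701.PH.A

set_option autoImplicit false

/-! The phase of zeta in the moment measures: the joint law of the logarithms in the measures with the densities
`∏ |ζ|^(2k) (1 + Re (c (ζ/|ζ|)^n))` -/

namespace Run7.h701.PH

open Finset Filter MeasureTheory Topology Complex
open Pool.Agent.N748.MG Pool.Agent.N748.MJ Run7.h651.WN
open Run7.h291.WN (YY)

variable {m : ℕ}

/-- the law with the density `ρ` -/
noncomputable def muR (k : ℝ) (h : Fin m → ℝ) (δ : ℝ) (ρ : ℝ → ℝ) (N : Set ℝ) : Measure (ES m) :=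
  ((volume.restrict N).withDensity (fun t => ENNReal.ofReal (ρ t))).map (fun t => Yv k h δ t)

theorem int_muR {E : Type*} [NormedAddCommGroup E] [NormedSpace ℝ E] {k : ℝ} (h : Fin m → ℝ) {δ : ℝ}
    (h1 : δ ≤ 1 / 16) {ρ : ℝ → ℝ} (hρ : Measurable ρ) (hρ0 : ∀ t, 0 ≤ ρ t) (N : Set ℝ) {f : ES m → E}
    (hf : StronglyMeasurable f) : ∫ x, f x ∂(muR k h δ ρ N) = ∫ t in N, ρ t • f (Yv k h δ t) := by
  unfold muR
  rw [integral_map (Yv_meas k h h1).aemeasurable hf.aestronglyMeasurable]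
  have h2 : (fun t => ENNReal.ofReal (ρ t)) = fun t => (((ρ t).toNNReal : NNReal) : ENNReal) := rfl
  rw [h2, integral_withDensity_eq_integral_smul hρ.real_toNNReal]
  refine integral_congr_ae (Eventually.of_forall fun t => ?_)
  show (ρ t).toNNReal • f (Yv k h δ t) = ρ t • f (Yv k h δ t)
  rw [NNReal.smul_def, Real.coe_toNNReal _ (hρ0 t)]

theorem muR_prob {k : ℝ} (h : Fin m → ℝ) {δ : ℝ} (h1 : δ ≤ 1 / 16) {ρ : ℝ → ℝ} (hρ0 : ∀ t, 0 ≤ ρ t) {N : Set ℝ}
    (hI : IntegrableOn ρ N) (hMe : ∫ t in N, ρ t = 1) : IsProbabilityMeasure (muR k h δ ρ N) := by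
  have h2 : IsProbabilityMeasure ((volume.restrict N).withDensity (fun t => ENNReal.ofReal (ρ t))) := by
    constructor
    rw [withDensity_apply _ MeasurableSet.univ, Measure.restrict_univ, ← ofReal_integral_eq_lintegral_ofReal]
    · rw [hMe, ENNReal.ofReal_one]
    · exact hI
    · exact Eventually.of_forall fun t => hρ0 t
  unfold muR
  exact Measure.isProbabilityMeasure_map (Yv_meas k h h1).aemeasurable

/-- the product of the densities -/
noncomputable def PC (c : ℂ) (n : ℤ) (h : Fin m → ℝ) (δ t : ℝ) : ℝ := ∏ j, pc c n δ (t + h j)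

lemma PC_nn {c : ℂ} (hc : ‖c‖ ≤ 1) {n : ℤ} (hn : n ≠ 0) (h : Fin m → ℝ) (δ t : ℝ) : 0 ≤ PC c n h δ t :=
  Finset.prod_nonneg fun j _ => pc_nn hc hn _ _

lemma PC_le {c : ℂ} (hc : ‖c‖ ≤ 1) {n : ℤ} (hn : n ≠ 0) (h : Fin m → ℝ) (δ t : ℝ) : PC c n h δ t ≤ 2 ^ m := by
  unfold PC
  calc ∏ j, pc c n δ (t + h j) ≤ ∏ _j : Fin m, (2:ℝ) := Finset.prod_le_prod (fun _ _ => pc_nn hc hn _ _) fun _ _ => pc_le hc hn _ _
    _ = 2 ^ m := by rw [Finset.prod_const, Finset.card_univ, Fintype.card_fin]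

lemma PC_meas (c : ℂ) (n : ℤ) (h : Fin m → ℝ) {δ : ℝ} (h0 : 0 < δ) (h1 : δ ≤ 1 / 16) : Measurable fun t => PC c n h δ t := by
  unfold PC
  exact Finset.measurable_prod _ fun j _ => (pc_meas c n h0 h1).comp (measurable_id.add_const _)

/-- the characteristic function -/
theorem char_muR {k : ℝ} (h : Fin m → ℝ) {δ : ℝ} (h0 : 0 < δ) (h1 : δ ≤ 1 / 16) {M : ℝ} {PCf : ℝ → ℝ}
    (hρ : Measurable fun t => SM.G (fun _ => k) h δ t * PCf t / M) (hρ0 : ∀ t, 0 ≤ SM.G (fun _ => k) h δ t * PCf t / M)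
    (hM : 0 < M) {N : Set ℝ} (hN : MeasurableSet N) (hz : ∀ t ∈ N, ∀ j, 0 < mz δ (t + h j)) (ξ : ES m) :
    charFun (muR k h δ (fun t => SM.G (fun _ => k) h δ t * PCf t / M) N) ξ =
      cexp (-(((∑ j, ξ j * (k * Real.log (1 / δ) / √(Real.log (1 / δ) / 2)) : ℝ) : ℂ) * I)) * (1 / (M : ℂ)) *
        ∫ t in N, (∏ j, ZZ (riemannZeta (pw δ (t + h j))) (be k (Real.log (1 / δ)) ξ j) 0) * ((PCf t : ℝ) : ℂ) := by
  set L := Real.log (1 / δ) with hL
  have hL0 : 0 < L := lt_of_lt_of_le one_pos (log_inv_ge h0 h1)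
  rw [charFun_apply, int_muR h h1 hρ hρ0 N, ← integral_const_mul]
  · refine setIntegral_congr_fun hN fun t ht => ?_
    show (SM.G (fun _ => k) h δ t * PCf t / M) • cexp ((inner ℝ (Yv k h δ t) ξ : ℝ) * I) = _
    rw [inner_Yv]
    have e1 : ∏ j, ZZ (riemannZeta (pw δ (t + h j))) (be k L ξ j) 0 =
        ((SM.G (fun _ => k) h δ t : ℝ) : ℂ) * cexp (((∑ j, ξ j * (Real.log (mz δ (t + h j)) / √(L / 2)) : ℝ) : ℂ) * I) := by
      have e2 : ∀ j, ZZ (riemannZeta (pw δ (t + h j))) (be k L ξ j) 0 =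
          (((mz δ (t + h j)) ^ (2 * k) : ℝ) : ℂ) *
            cexp (((ξ j * (Real.log (mz δ (t + h j)) / √(L / 2)) : ℝ) : ℂ) * I) := fun j =>
        ZZ_be hL0 (hz t ht j)
      rw [prod_congr rfl fun j _ => e2 j, prod_mul_distrib, ← Complex.exp_sum, ← sum_mul]
      unfold SM.G
      push_cast
      rfl
    rw [e1]
    have e3 : ∑ j, ξ j * YY k δ (t + h j) = ∑ j, ξ j * (Real.log (mz δ (t + h j)) / √(L / 2)) -
        ∑ j, ξ j * (k * L / √(L / 2)) := by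
      rw [← sum_sub_distrib]
      refine sum_congr rfl fun j _ => ?_
      unfold YY
      rw [← hL, sub_div]
      ring
    rw [e3, Complex.ofReal_sub, sub_mul, Complex.exp_sub, Complex.exp_neg, Complex.real_smul]
    have hM' : (M : ℂ) ≠ 0 := by exact_mod_cast hM.ne'
    have hE := Complex.exp_ne_zero ((((∑ j, ξ j * (k * L / √(L / 2)) : ℝ)) : ℂ) * I)
    rw [Complex.ofReal_div, Complex.ofReal_mul]
    generalize cexp ((((∑ j, ξ j * (k * L / √(L / 2)) : ℝ)) : ℂ) * I) = E2 at hE ⊢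
    generalize cexp ((((∑ j, ξ j * (Real.log (mz δ (t + h j)) / √(L / 2)) : ℝ)) : ℂ) * I) = E1
    field_simp
  · refine Measurable.stronglyMeasurable ?_
    refine Complex.measurable_exp.comp ?_
    refine Measurable.mul_const ?_ _
    refine Complex.measurable_ofReal.comp ?_
    exact (Continuous.inner continuous_id continuous_const).measurable

lemma ZZ_norm {k : ℝ} {L x : ℝ} {z : ℂ} (hz : 0 < ‖z‖) (n : ℤ) :
    ‖ZZ z ((k : ℂ) + ((x / √(2 * L) : ℝ) : ℂ) * I) n‖ = ‖z‖ ^ (2 * k) := by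
  unfold ZZ
  rw [norm_mul, norm_zpow, norm_div, Complex.norm_real, Real.norm_of_nonneg hz.le, div_self hz.ne', one_zpow, mul_one,
    Complex.norm_cpow_eq_rpow_re_of_pos hz]
  congr 1
  rw [Complex.mul_re, Complex.add_re, Complex.mul_re, Complex.ofReal_re, Complex.ofReal_im, Complex.I_re, Complex.I_im,
    Complex.ofReal_re]
  simp

/-- the phases in the moments -/
theorem Jp_bd {k : ℝ} (h : Fin m → ℝ) {δ X ε1 ε2 C : ℝ} (h0 : 0 < δ) (h1 : δ ≤ 1 / 16)
    {N : Set ℝ} (hN : MeasurableSet N) (hz : ∀ t ∈ N, ∀ j, 0 < mz δ (t + h j))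
    (hI : IntegrableOn (fun t => SM.G (fun _ => k) h δ t) N) {ξ : Fin m → ℝ} {c : ℂ} (hc : ‖c‖ ≤ 1) {n : ℤ}
    (hX : 0 ≤ X) (hε1 : 0 ≤ ε1) (hε2 : 0 ≤ ε2) (hC : 0 ≤ C)
    (hJ : ∀ p : Fin m → Fin 3, ‖cexp (-(LM (sp (be k (Real.log (1 / δ)) ξ) fun j => s3 (p j) * n)
        (sm (be k (Real.log (1 / δ)) ξ) fun j => s3 (p j) * n) h δ)) * (∫ t in N, ∏ j, ZZ (riemannZeta (pw δ (t + h j)))
          (be k (Real.log (1 / δ)) ξ j) (s3 (p j) * n)) -
      X * aV (sp (be k (Real.log (1 / δ)) ξ) fun j => s3 (p j) * n) (sm (be k (Real.log (1 / δ)) ξ) fun j => s3 (p j) * n) h‖ ≤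
        ε1 * X)
    (hA : ∀ p : Fin m → Fin 3, ‖aV (sp (be k (Real.log (1 / δ)) ξ) fun j => s3 (p j) * n)
      (sm (be k (Real.log (1 / δ)) ξ) fun j => s3 (p j) * n) h‖ ≤ C)
    (hE : ∀ p : Fin m → Fin 3, (∃ j, p j ≠ 0) → ‖cexp (LM (sp (be k (Real.log (1 / δ)) ξ) fun j => s3 (p j) * n)
        (sm (be k (Real.log (1 / δ)) ξ) fun j => s3 (p j) * n) h δ)‖ ≤ ε2 * Real.exp (SM.Lr (fun _ => k) h δ)) :
    ‖(∫ t in N, (∏ j, ZZ (riemannZeta (pw δ (t + h j))) (be k (Real.log (1 / δ)) ξ j) 0) * ((PC c n h δ t : ℝ) : ℂ)) -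
      ∫ t in N, ∏ j, ZZ (riemannZeta (pw δ (t + h j))) (be k (Real.log (1 / δ)) ξ j) 0‖ ≤
      3 ^ m * (ε2 * (C + ε1)) * (X * Real.exp (SM.Lr (fun _ => k) h δ)) := by
  set L := Real.log (1 / δ) with hL
  set Er := Real.exp (SM.Lr (fun _ => k) h δ) with hEr
  have hEr0 : 0 < Er := Real.exp_pos _
  set F : (Fin m → Fin 3) → ℝ → ℂ := fun p t => ∏ j, ZZ (riemannZeta (pw δ (t + h j))) (be k L ξ j) (s3 (p j) * n) with hF
  have hFi : ∀ p, IntegrableOn (F p) N := by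
    intro p
    refine hI.mono' ?_ ?_
    · exact (JM.prod_meas δ h0 h1 h _ _).aestronglyMeasurable
    · filter_upwards [ae_restrict_mem hN] with t ht
      simp only [hF]
      rw [norm_prod]
      refine le_of_eq (Finset.prod_congr rfl fun j _ => ?_)
      exact ZZ_norm (hz t ht j) _
  have e1 : ∫ t in N, (∏ j, ZZ (riemannZeta (pw δ (t + h j))) (be k L ξ j) 0) * ((PC c n h δ t : ℝ) : ℂ) =
      ∑ p : Fin m → Fin 3, (∏ j, k3 c (p j)) * ∫ t in N, F p t := by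
    have e0 : ∫ t in N, (∏ j, ZZ (riemannZeta (pw δ (t + h j))) (be k L ξ j) 0) * ((PC c n h δ t : ℝ) : ℂ) =
        ∫ t in N, ∑ p : Fin m → Fin 3, (∏ j, k3 c (p j)) * F p t :=
      setIntegral_congr_fun hN (fun t ht => prod_sum c n h _ (hz t ht))
    rw [e0, integral_finsetSum _ fun p _ => (hFi p).const_mul _]
    exact sum_congr rfl fun p _ => integral_const_mul _ _
  have e2 : ∫ t in N, ∏ j, ZZ (riemannZeta (pw δ (t + h j))) (be k L ξ j) 0 =
      (∏ j : Fin m, k3 c ((fun _ => 0 : Fin m → Fin 3) j)) * ∫ t in N, F (fun _ => 0) t := by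
    have h2 : ∏ j : Fin m, k3 c ((fun _ => 0 : Fin m → Fin 3) j) = 1 := by
      apply Finset.prod_eq_one
      intro j _
      simp [k3]
    rw [h2, one_mul]
    refine setIntegral_congr_fun hN fun t _ => ?_
    simp only [hF]
    refine Finset.prod_congr rfl fun j _ => ?_
    simp [s3]
  rw [e1, e2, ← Finset.add_sum_erase univ (fun p : Fin m → Fin 3 => (∏ j, k3 c (p j)) * ∫ t in N, F p t)
    (mem_univ (fun _ => 0 : Fin m → Fin 3)), add_sub_cancel_left]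
  have h3 : ∀ p ∈ (univ : Finset (Fin m → Fin 3)).erase (fun _ => 0), ‖(∏ j, k3 c (p j)) * ∫ t in N, F p t‖ ≤
      (ε2 * (C + ε1)) * (X * Er) := by
    intro p hp
    have hp0 : ∃ j, p j ≠ 0 := by
      by_contra hcon
      push Not at hcon
      exact (Finset.mem_erase.1 hp).1 (funext hcon)
    have k1 : ‖∏ j, k3 c (p j)‖ ≤ 1 := by
      rw [norm_prod]
      exact Finset.prod_le_one (fun j _ => norm_nonneg _) fun j _ => k3_norm hc _
    set E := cexp (LM (sp (be k L ξ) fun j => s3 (p j) * n) (sm (be k L ξ) fun j => s3 (p j) * n) h δ) with hEd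
    have hEn : E ≠ 0 := Complex.exp_ne_zero _
    have h4 := hJ p
    rw [Complex.exp_neg, ← hEd] at h4
    have h5 := hA p
    set A := aV (sp (be k L ξ) fun j => s3 (p j) * n) (sm (be k L ξ) fun j => s3 (p j) * n) h with hAd
    have h6 : ‖E⁻¹ * ∫ t in N, F p t‖ ≤ (C + ε1) * X := by
      have h7 := norm_add_le (E⁻¹ * (∫ t in N, F p t) - X * A) (X * A)
      rw [sub_add_cancel] at h7
      have h8 : ‖(X:ℂ) * A‖ ≤ X * C := by
        rw [norm_mul, Complex.norm_real, Real.norm_of_nonneg hX]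
        exact mul_le_mul_of_nonneg_left h5 hX
      calc ‖E⁻¹ * ∫ t in N, F p t‖ ≤ ε1 * X + X * C := h7.trans (add_le_add h4 h8)
        _ = (C + ε1) * X := by ring
    have h9 : ∫ t in N, F p t = E * (E⁻¹ * ∫ t in N, F p t) := by
      rw [mul_inv_cancel_left₀ hEn]
    rw [norm_mul]
    calc ‖∏ j, k3 c (p j)‖ * ‖∫ t in N, F p t‖ ≤ 1 * ‖∫ t in N, F p t‖ :=
          mul_le_mul_of_nonneg_right k1 (norm_nonneg _)
      _ = ‖E‖ * ‖E⁻¹ * ∫ t in N, F p t‖ := by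
          rw [one_mul]
          conv_lhs => rw [h9]
          rw [norm_mul]
      _ ≤ (ε2 * Er) * ((C + ε1) * X) := mul_le_mul (hE p hp0) h6 (norm_nonneg _) (by positivity)
      _ = _ := by ring
  refine (norm_sum_le _ _).trans ((Finset.sum_le_sum h3).trans ?_)
  rw [sum_const, nsmul_eq_mul]
  have h4 : (((univ : Finset (Fin m → Fin 3)).erase (fun _ => 0)).card : ℝ) ≤ 3 ^ m := by
    have h5 := Finset.card_erase_le (s := (univ : Finset (Fin m → Fin 3))) (a := fun _ => 0)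
    rw [Finset.card_univ, Fintype.card_fun, Fintype.card_fin, Fintype.card_fin] at h5
    exact_mod_cast h5
  calc _ ≤ 3 ^ m * ((ε2 * (C + ε1)) * (X * Er)) := mul_le_mul_of_nonneg_right h4 (by positivity)
    _ = _ := by ring

end Run7.h701.PH
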