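import Pool.Agent.Run7.h701.PH.B

set_option autoImplicit false

/-! The phase of zeta in the moment measures: the joint law with the densities -/

namespace Run7.h701.PH

open Finset Filter MeasureTheory Topology Complex
open Pool.Agent.N748.MG Pool.Agent.N748.MJ Run7.h651.WN
open Run7.h291.WN (YY S_EQC)

/-- the law of the logarithms in the moment measures with the densities `1 + Re (c (ζ/|ζ|)^n)` -/
theorem lawP_of (hJ : S_JM) (hP : S_POSV) (hZ : S_LZB) (hEq0 : S_EQC) (m : ℕ) (k D K W : ℝ) (hk : 0 < k) (hD : 0 < D)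
    (hW : 0 < W) (n : ℤ) (hn : n ≠ 0) (c : ℂ) (hc1 : ‖c‖ ≤ 1) (φ : ℝ → ℝ) (hφ : Continuous φ) (h0 : ∀ x, 0 ≤ φ x)
    (h1 : ∀ x, φ x ≤ 1) (ε : ℝ) (hε : 0 < ε) : Ev fun X δ => ∀ h : Fin m → ℝ, (∀ j, |h j| ≤ δ ^ (-D)) →
      (∀ j l, j ≠ l → 1 ≤ |h j - h l| ∧ -K ≤ (LZ (1 + 2 * δ) (h j - h l)).re) →
      ∃ N : Set ℝ, MeasurableSet N ∧ N ⊆ Set.Icc 0 X ∧ volume (Set.Icc 0 X \ N) ≤ ENNReal.ofReal (δ ^ W * X) ∧
        (∀ t ∈ N, ∀ j, 0 < mz δ (t + h j)) ∧
        ∃ a : ℝ, aV (fun _ => (k : ℂ)) (fun _ => (k : ℂ)) h = a ∧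
        IntegrableOn (fun t => SM.G (fun _ => k) h δ t) N ∧
        |(∫ t in N, SM.G (fun _ => k) h δ t * PC c n h δ t * ∏ j, φ (YY k δ (t + h j))) -
          X * (a * Real.exp (SM.Lr (fun _ => k) h δ)) * (∫ x, φ x ∂(ProbabilityTheory.gaussianReal 0 1)) ^ m| ≤
          ε * (X * Real.exp (SM.Lr (fun _ => k) h δ)) := by
  set k1 : ℝ := k + 1 + |(n:ℝ)| with hk1d
  have hk1 : 0 < k1 := by positivity
  obtain ⟨c0, C, hc, hC, hcC⟩ := hP m k1 hk1.le
  obtain ⟨R, τ, hR, hτ, hU⟩ := unif m φ hφ h0 h1 (ε / (2 * (C + 1))) (by positivity)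
  set ε' : ℝ := min (min 1 (ε / 2)) (min (c0 / 2) (c0 * τ / 12)) with hε'
  have hε'0 : 0 < ε' := by
    rw [hε']
    exact lt_min (lt_min one_pos (by positivity)) (lt_min (by positivity) (by positivity))
  have hε'1 : ε' ≤ 1 := (min_le_left _ _).trans (min_le_left _ _)
  have hε'2 : ε' ≤ ε / 2 := (min_le_left _ _).trans (min_le_right _ _)
  have hε'3 : ε' ≤ c0 / 2 := (min_le_right _ _).trans (min_le_left _ _)
  have hε'4 : ε' ≤ c0 * τ / 12 := (min_le_right _ _).trans (min_le_right _ _)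
  set ε₁ : ℝ := min 1 (c0 * τ / (8 * (C + 2))) with hε₁
  have hε₁0 : 0 < ε₁ := lt_min one_pos (by positivity)
  set ε2 : ℝ := ε' / 2 / (3 ^ m * (C + 1) * Real.exp (m * R ^ 2 + 1)) with hε2
  have hε20 : 0 < ε2 := by positivity
  obtain ⟨η, hη, hEq⟩ := hEq0 m k1 hk1.le ε' hε'0
  have hlim : ∀ᶠ L : ℝ in atTop, R / √L ≤ min 1 η := by
    have h2 : Tendsto (fun L : ℝ => R / √L) atTop (𝓝 0) := Real.tendsto_sqrt_atTop.const_div_atTop R
    exact h2.eventually_le_const (lt_min one_pos hη)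
  refine (((((hJ m k1 W hk1 hW (ε' / 2) (by positivity)).and (LM_diff hZ m k D K R hk hD hR ε₁ hε₁0)).and
    (Ev.of_log hlim)).and (Ev.win (D := D) (c := 1) (e := (1:ℝ) / 2) one_pos (by norm_num))).and
    (lmp hZ m k D K R hk hD hR n hn ε2 hε20)).mono ?_
  rintro X δ hX hδ hδ1 ⟨⟨⟨⟨hjm, hlm⟩, hL⟩, hwin⟩, hph⟩ h hh hhl
  have hX0 : 0 < X := by linarith
  obtain ⟨N, n1, n2, n3, n4, n5⟩ := hjm h fun j => (hh j).trans (by linarith)
  have n4' : ∀ t ∈ N, ∀ j, 0 < mz δ (t + h j) := fun t ht j => norm_pos_iff.2 (n4 t ht j)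
  obtain ⟨hCu, hcl⟩ := hcC h
  obtain ⟨a, ha1, ha2⟩ := hcl (fun _ => k) fun _ => by
    rw [abs_of_pos hk, hk1d]
    have := abs_nonneg (n:ℝ)
    linarith
  have ha0 : 0 < a := by linarith
  have hnk : ∀ j : Fin m, ‖(SM.cc (fun _ => k) j : ℂ)‖ ≤ k1 := by
    intro j
    unfold SM.cc
    rw [Complex.norm_real, Real.norm_of_nonneg hk.le, hk1d]
    have := abs_nonneg (n:ℝ)
    linarith
  have ha3 : a ≤ C := by
    have h2 := hCu (fun _ => (k : ℂ)) (fun _ => (k : ℂ)) hnk hnk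
    rw [ha2, Complex.norm_real, Real.norm_of_nonneg ha0.le] at h2
    exact h2
  set G : ℝ → ℝ := fun t => SM.G (fun _ => k) h δ t with hG
  set Er := Real.exp (SM.Lr (fun _ => k) h δ) with hEr
  have hEr0 : 0 < Er := Real.exp_pos _
  have hn0 : ∀ j : Fin m, |(((fun _ => 0 : Fin m → ℤ) j : ℤ) : ℝ)| ≤ k1 := fun j => by simpa using hk1.le
  have hjk := n5 (SM.cc (fun _ => k)) (fun _ => 0) hnk hn0
  have hf := SM.real_form (k := fun _ => k) (h := h) (δ := δ) (T := X) (a := a) (ε := ε' / 2) (N := N) hX0 ha0.le ha2 hjk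
  set M := ∫ t in N, G t with hM
  have hI : IntegrableOn G N := by
    by_contra hcon
    have h2 : M = 0 := integral_undef hcon
    rw [h2, mul_zero, zero_sub, abs_neg] at hf
    have h3 := le_abs_self (X * a)
    nlinarith
  have hMX : |M - X * (a * Er)| ≤ ε' / 2 * (X * Er) := by
    have h2 : M - X * (a * Er) = Er * (Real.exp (-(SM.Lr (fun _ => k) h δ)) * M - X * a) := by
      rw [Real.exp_neg, ← hEr]
      field_simp
    rw [h2, abs_mul, abs_of_pos hEr0]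
    calc Er * |Real.exp (-(SM.Lr (fun _ => k) h δ)) * M - X * a| ≤ Er * (ε' / 2 * X) :=
          mul_le_mul_of_nonneg_left hf hEr0.le
      _ = ε' / 2 * (X * Er) := by ring
  set L := Real.log (1 / δ) with hLd
  have hL1 : 1 ≤ L := log_inv_ge hδ hδ1
  -- the exponents
  have hbk : ∀ ξ : Fin m → ℝ, (∀ j, |ξ j| ≤ R) → ∀ j, ‖be k L ξ j - (k : ℂ)‖ ≤ R / √L := by
    intro ξ hξ j
    unfold be
    rw [add_sub_cancel_left, norm_mul, Complex.norm_I, mul_one, Complex.norm_real, Real.norm_eq_abs]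
    exact tau_le hL1 hR.le (hξ j)
  have hbn1 : ∀ ξ : Fin m → ℝ, (∀ j, |ξ j| ≤ R) → ∀ j, ‖be k L ξ j‖ ≤ k + 1 := by
    intro ξ hξ j
    have h2 := norm_add_le (be k L ξ j - (k : ℂ)) (k : ℂ)
    rw [sub_add_cancel, Complex.norm_real, Real.norm_of_nonneg hk.le] at h2
    have h3 := (hbk ξ hξ j).trans (hL.trans (min_le_left _ _))
    linarith
  have hbn : ∀ ξ : Fin m → ℝ, (∀ j, |ξ j| ≤ R) → ∀ j, ‖be k L ξ j‖ ≤ k1 := fun ξ hξ j =>
    (hbn1 ξ hξ j).trans (by rw [hk1d]; linarith [abs_nonneg (n:ℝ)])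
  -- the contribution of the phases
  set ε3 : ℝ := 3 ^ m * (ε2 * (C + 1)) with hε3
  have hε30 : 0 ≤ ε3 := by positivity
  have hJp : ∀ ξ : Fin m → ℝ, (∀ j, |ξ j| ≤ R) →
      ‖(∫ t in N, (∏ j, ZZ (riemannZeta (pw δ (t + h j))) (be k L ξ j) 0) * ((PC c n h δ t : ℝ) : ℂ)) -
        ∫ t in N, ∏ j, ZZ (riemannZeta (pw δ (t + h j))) (be k L ξ j) 0‖ ≤ ε3 * (X * Er) := by
    intro ξ hξ
    have hs3 : ∀ e : Fin 3, |((s3 e : ℤ) : ℝ)| ≤ 1 := by
      intro e
      fin_cases e <;> simp [s3]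
    have hsn : ∀ (p : Fin m → Fin 3) (j : Fin m), |((s3 (p j) * n : ℤ) : ℝ)| ≤ |(n:ℝ)| := by
      intro p j
      rw [Int.cast_mul, abs_mul]
      have := mul_le_mul_of_nonneg_right (hs3 (p j)) (abs_nonneg (n:ℝ))
      linarith
    have hhalf : ∀ (p : Fin m → Fin 3) (j : Fin m), ‖((s3 (p j) * n : ℤ) : ℂ) / 2‖ ≤ |(n:ℝ)| := by
      intro p j
      rw [norm_div, Complex.norm_intCast]
      have h2 : ‖(2:ℂ)‖ = 2 := by simp
      rw [h2]
      have := hsn p j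
      have := abs_nonneg (n:ℝ)
      linarith
    have hb := Jp_bd (k := k) h (δ := δ) (X := X) (ε1 := ε' / 2) (ε2 := ε2) (C := C) hδ hδ1 n1 n4' hI (ξ := ξ) (c := c)
      hc1 (n := n) hX0.le (by positivity) hε20.le hC.le
      (fun p => n5 (be k L ξ) (fun j => s3 (p j) * n) (hbn ξ hξ) fun j => (hsn p j).trans (by
        rw [hk1d]
        linarith))
      (fun p => hCu _ _ (fun j => by
        refine (norm_add_le _ _).trans ?_
        have := hbn1 ξ hξ j
        have := hhalf p j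
        rw [hk1d]
        linarith) (fun j => by
        refine (norm_sub_le _ _).trans ?_
        have := hbn1 ξ hξ j
        have := hhalf p j
        rw [hk1d]
        linarith))
      (fun p hp => hph h hh hhl ξ hξ p hp)
    refine hb.trans (mul_le_mul_of_nonneg_right ?_ (by positivity))
    rw [hε3]
    have : C + ε' / 2 ≤ C + 1 := by linarith
    gcongr
  have hε3s : ε3 * Real.exp (m * R ^ 2 + 1) = ε' / 2 := by
    rw [hε3, hε2]
    field_simp
  have hε3s' : ε3 ≤ ε' / 2 := by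
    rw [← hε3s]
    refine le_mul_of_one_le_right hε30 (Real.one_le_exp (by positivity))
  -- the mass
  set Gp : ℝ → ℝ := fun t => G t * PC c n h δ t with hGp
  have hG0 : ∀ t, 0 ≤ G t := fun t => SM.G_nn _ _ _ _
  have hGm : Measurable G := (SM.G_cont hδ1 fun _ => hk.le).measurable
  have hGpm : Measurable Gp := hGm.mul (PC_meas c n h hδ hδ1)
  have hGp0 : ∀ t, 0 ≤ Gp t := fun t => mul_nonneg (hG0 t) (PC_nn hc1 hn _ _ _)
  have hGpi : IntegrableOn Gp N := by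
    refine (hI.const_mul (2 ^ m)).mono' hGpm.aestronglyMeasurable (Eventually.of_forall fun t => ?_)
    rw [Real.norm_of_nonneg (hGp0 t), mul_comm ((2:ℝ) ^ m)]
    exact mul_le_mul_of_nonneg_left (PC_le hc1 hn _ _ _) (hG0 t)
  set Mp := ∫ t in N, Gp t with hMp
  have hMpM : |Mp - M| ≤ ε3 * (X * Er) := by
    have h2 := hJp (fun _ => 0) (fun j => by simpa using hR.le)
    have e0 : ∀ t ∈ N, (∏ j, ZZ (riemannZeta (pw δ (t + h j))) (be k L (fun _ => 0 : Fin m → ℝ) j) 0) = ((G t : ℝ) : ℂ) := by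
      intro t ht
      have := SM.prod_ZZ (fun _ => k) h δ t
      rw [hG]
      simp only
      rw [← this]
      refine Finset.prod_congr rfl fun j _ => ?_
      congr 1
      unfold be SM.cc
      simp
    have e1 : ∫ t in N, (∏ j, ZZ (riemannZeta (pw δ (t + h j))) (be k L (fun _ => 0 : Fin m → ℝ) j) 0) *
        ((PC c n h δ t : ℝ) : ℂ) = (Mp : ℂ) := by
      rw [hMp, ← integral_complex_ofReal]
      refine setIntegral_congr_fun n1 fun t ht => ?_
      simp only [hGp]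
      rw [e0 t ht]
      push_cast
      rfl
    have e2 : ∫ t in N, (∏ j, ZZ (riemannZeta (pw δ (t + h j))) (be k L (fun _ => 0 : Fin m → ℝ) j) 0) = (M : ℂ) := by
      rw [hM, ← integral_complex_ofReal]
      exact setIntegral_congr_fun n1 fun t ht => e0 t ht
    rw [e1, e2, ← Complex.ofReal_sub, Complex.norm_real, Real.norm_eq_abs] at h2
    exact h2
  have hMpX : |Mp - X * (a * Er)| ≤ ε' * (X * Er) := by
    have h2 : Mp - X * (a * Er) = (Mp - M) + (M - X * (a * Er)) := by ring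
    rw [h2]
    refine (abs_add_le _ _).trans ?_
    have h3 : ε3 * (X * Er) ≤ ε' / 2 * (X * Er) := mul_le_mul_of_nonneg_right hε3s' (by positivity)
    linarith
  have hM0 : 0 < Mp := by
    have h2 := (abs_le.1 hMpX).1
    have h3 : 0 < X * Er := by positivity
    nlinarith
  refine ⟨N, n1, n2, n3, n4', a, ha2, hI, ?_⟩
  -- the law
  have hρ0 : ∀ t, 0 ≤ SM.G (fun _ => k) h δ t * PC c n h δ t / Mp := fun t => div_nonneg (hGp0 t) hM0.le
  have hρm : Measurable fun t => SM.G (fun _ => k) h δ t * PC c n h δ t / Mp := hGpm.div_const _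
  have hprob : IsProbabilityMeasure (muR k h δ (fun t => SM.G (fun _ => k) h δ t * PC c n h δ t / Mp) N) := by
    refine muR_prob h hδ1 hρ0 (hGpi.div_const Mp) ?_
    rw [integral_div]
    exact div_self hM0.ne'
  have key := hU _ hprob (by
    intro ξ hξ
    rw [char_muR h hδ hδ1 hρm hρ0 hM0 n1 n4' ξ]
    have hbη : ∀ j, ‖be k L ξ j - (k : ℂ)‖ ≤ η := fun j => (hbk ξ hξ j).trans (hL.trans (min_le_right _ _))
    have hab := hEq (be k L ξ) (be k L ξ) (fun _ => (k : ℂ)) (fun _ => (k : ℂ)) (hbn ξ hξ) (hbn ξ hξ) hnk hnk hbη hbη h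
    rw [ha2] at hab
    have hjb := n5 (be k L ξ) (fun _ => 0) (hbn ξ hξ) hn0
    have hd := hlm h hh hhl ξ hξ
    rw [SM.sp_zero, SM.sm_zero] at hjb
    set S1 : ℝ := ∑ j, ξ j * (k * L / √(L / 2)) with hS1
    set Q : ℝ := (∑ j, ξ j ^ 2) / 2 with hQ
    have hQ0 : 0 ≤ Q := by
      rw [hQ]
      have : 0 ≤ ∑ j, ξ j ^ 2 := sum_nonneg fun j _ => sq_nonneg _
      linarith
    have hQ1 : Q ≤ m * R ^ 2 := by
      rw [hQ]
      have h2 : ∑ j, ξ j ^ 2 ≤ ∑ _j : Fin m, R ^ 2 := by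
        refine sum_le_sum fun j _ => ?_
        rw [← sq_abs]
        exact pow_le_pow_left₀ (abs_nonneg _) (hξ j) 2
      rw [sum_const, card_univ, Fintype.card_fin, nsmul_eq_mul] at h2
      have : 0 ≤ (m:ℝ) * R ^ 2 := by positivity
      linarith
    have hnorm : ((-(‖ξ‖ ^ 2) / 2 : ℝ) : ℂ) = -(Q : ℂ) := by
      rw [EuclideanSpace.real_norm_sq_eq, hQ]
      push_cast
      ring
    rw [hnorm]
    set u : ℂ := LM (be k L ξ) (be k L ξ) h δ - LM (fun _ => (k : ℂ)) (fun _ => (k : ℂ)) h δ -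
      ((S1 : ℂ) * I - (Q : ℂ)) with hu
    have hA2 : cexp (LM (be k L ξ) (be k L ξ) h δ) =
        cexp (LM (SM.cc fun _ => k) (SM.cc fun _ => k) h δ) * cexp ((S1 : ℂ) * I) * cexp (-(Q : ℂ)) * cexp u := by
      rw [← Complex.exp_add, ← Complex.exp_add, ← Complex.exp_add, hu]
      congr 1
      unfold SM.cc
      ring
    have hE1n : ‖cexp (LM (SM.cc fun _ => k) (SM.cc fun _ => k) h δ)‖ = Er := by
      rw [Complex.norm_exp, SM.LM_re]
    have hA2n : ‖(cexp (LM (be k L ξ) (be k L ξ) h δ))⁻¹‖ ≤ Er⁻¹ * Real.exp (m * R ^ 2 + 1) := by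
      rw [norm_inv, hA2, norm_mul, norm_mul, norm_mul, hE1n]
      have n1 : ‖cexp ((S1 : ℂ) * I)‖ = 1 := Complex.norm_exp_ofReal_mul_I _
      have n2 : ‖cexp (-(Q : ℂ))‖ = Real.exp (-Q) := by
        rw [Complex.norm_exp, Complex.neg_re, Complex.ofReal_re]
      have n3 : Real.exp (-1) ≤ ‖cexp u‖ := by
        rw [Complex.norm_exp]
        refine Real.exp_le_exp.2 ?_
        have h2 := (abs_le.1 ((Complex.abs_re_le_norm u).trans (hd.trans (min_le_left _ _)))).1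
        exact h2
      have n5 : (Real.exp (-Q))⁻¹ = Real.exp Q := by rw [← Real.exp_neg, neg_neg]
      rw [n1, n2, mul_one, mul_inv, mul_inv, n5, mul_assoc]
      refine mul_le_mul_of_nonneg_left ?_ (by positivity)
      have n4 : ‖cexp u‖⁻¹ ≤ Real.exp 1 := by
        rw [← inv_inv (Real.exp 1), ← Real.exp_neg]
        exact inv_anti₀ (Real.exp_pos _) n3
      rw [Real.exp_add]
      exact mul_le_mul (Real.exp_le_exp.2 hQ1) n4 (by positivity) (Real.exp_pos _).le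
    set Jb := ∫ t in N, (∏ j, ZZ (riemannZeta (pw δ (t + h j))) (be k L ξ j) 0) * ((PC c n h δ t : ℝ) : ℂ) with hJb
    set J0 := ∫ t in N, ∏ j, ZZ (riemannZeta (pw δ (t + h j))) (be k L ξ j) 0 with hJ0
    have hJd : ‖Jb - J0‖ ≤ ε3 * (X * Er) := hJp ξ hξ
    have hJbb : ‖(cexp (LM (be k L ξ) (be k L ξ) h δ))⁻¹ * Jb - X * aV (be k L ξ) (be k L ξ) h‖ ≤ ε' * X := by
      rw [Complex.exp_neg (LM (be k L ξ) (be k L ξ) h δ)] at hjb
      have e1 : (cexp (LM (be k L ξ) (be k L ξ) h δ))⁻¹ * Jb - X * aV (be k L ξ) (be k L ξ) h =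
          (cexp (LM (be k L ξ) (be k L ξ) h δ))⁻¹ * (Jb - J0) +
          ((cexp (LM (be k L ξ) (be k L ξ) h δ))⁻¹ * J0 - X * aV (be k L ξ) (be k L ξ) h) := by ring
      rw [e1]
      refine (norm_add_le _ _).trans ?_
      rw [norm_mul]
      have e2 := mul_le_mul hA2n hJd (norm_nonneg _) (by positivity)
      have e3 : Er⁻¹ * Real.exp (m * R ^ 2 + 1) * (ε3 * (X * Er)) = ε' / 2 * X := by
        rw [← hε3s]
        field_simp
      rw [e3] at e2
      have e4 : ‖(cexp (LM (be k L ξ) (be k L ξ) h δ))⁻¹ * J0 - X * aV (be k L ξ) (be k L ξ) h‖ ≤ ε' / 2 * X := hjb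
      linarith
    have hMb : ‖(cexp (LM (SM.cc fun _ => k) (SM.cc fun _ => k) h δ))⁻¹ * (Mp : ℂ) - X * a‖ ≤ ε' * X := by
      have ha2' : aV (SM.cc fun _ => k) (SM.cc fun _ => k) h = a := ha2
      have hjk' := hjk
      rw [SM.sp_zero, SM.sm_zero, ha2', Complex.exp_neg] at hjk'
      simp_rw [SM.prod_ZZ] at hjk'
      rw [integral_complex_ofReal] at hjk'
      have e1 : (cexp (LM (SM.cc fun _ => k) (SM.cc fun _ => k) h δ))⁻¹ * (Mp : ℂ) - X * a =
          (cexp (LM (SM.cc fun _ => k) (SM.cc fun _ => k) h δ))⁻¹ * ((Mp - M : ℝ) : ℂ) +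
          ((cexp (LM (SM.cc fun _ => k) (SM.cc fun _ => k) h δ))⁻¹ * (M : ℂ) - X * a) := by
        push_cast
        ring
      rw [e1]
      refine (norm_add_le _ _).trans ?_
      rw [norm_mul, norm_inv, hE1n, Complex.norm_real, Real.norm_eq_abs]
      have e2 : Er⁻¹ * |Mp - M| ≤ ε' / 2 * X := by
        calc Er⁻¹ * |Mp - M| ≤ Er⁻¹ * (ε3 * (X * Er)) := mul_le_mul_of_nonneg_left hMpM (by positivity)
          _ = ε3 * X := by field_simp
          _ ≤ ε' / 2 * X := mul_le_mul_of_nonneg_right hε3s' hX0.le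
      have e3 : ‖(cexp (LM (SM.cc fun _ => k) (SM.cc fun _ => k) h δ))⁻¹ * (M : ℂ) - X * a‖ ≤ ε' / 2 * X := hjk'
      linarith
    rw [Complex.exp_neg ((S1 : ℂ) * I)]
    exact alg (J := 0) (Em := 0) hX0 hM0 hc ha1 ha3 hQ0 hε'0 hε'1 hε'3 hε'4 hε₁0 (min_le_left _ _) (min_le_right _ _) hd hab
      (Complex.exp_ne_zero _) (Complex.exp_ne_zero _) hA2 hJbb hMb)
  rw [int_muR h hδ1 hρm hρ0 N] at key
  · set I₀ : ℝ := (∫ x, φ x ∂(ProbabilityTheory.gaussianReal 0 1)) ^ m with hI₀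
    have hI₀0 : 0 ≤ I₀ := pow_nonneg (integral_nonneg h0) _
    have hI₀1 : I₀ ≤ 1 := by
      refine pow_le_one₀ (integral_nonneg h0) ?_
      calc ∫ x, φ x ∂(ProbabilityTheory.gaussianReal 0 1) ≤ ∫ _x, (1:ℝ) ∂(ProbabilityTheory.gaussianReal 0 1) := by
            refine integral_mono ?_ (integrable_const _) h1
            refine Integrable.mono' (integrable_const (1:ℝ)) hφ.aestronglyMeasurable (Eventually.of_forall fun x => ?_)
            rw [Real.norm_of_nonneg (h0 x)]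
            exact h1 x
        _ = 1 := by simp
    have e1 : ∫ t in N, (SM.G (fun _ => k) h δ t * PC c n h δ t / Mp) • ∏ j, φ ((Yv k h δ t) j) =
        (∫ t in N, SM.G (fun _ => k) h δ t * PC c n h δ t * ∏ j, φ (YY k δ (t + h j))) / Mp := by
      rw [← integral_div]
      refine integral_congr_ae (Eventually.of_forall fun t => ?_)
      show SM.G (fun _ => k) h δ t * PC c n h δ t / Mp * ∏ j, φ ((Yv k h δ t) j) = _
      unfold Yv
      show SM.G (fun _ => k) h δ t * PC c n h δ t / Mp * ∏ j, φ (YY k δ (t + h j)) = _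
      ring
    rw [e1] at key
    set T := ∫ t in N, SM.G (fun _ => k) h δ t * PC c n h δ t * ∏ j, φ (YY k δ (t + h j)) with hT
    have e2 : |T - Mp * I₀| ≤ Mp * (ε / (2 * (C + 1))) := by
      have h2 : T - Mp * I₀ = Mp * (T / Mp - I₀) := by field_simp
      rw [h2, abs_mul, abs_of_pos hM0]
      exact mul_le_mul_of_nonneg_left key hM0.le
    have e3 : T - X * (a * Er) * I₀ = (T - Mp * I₀) + (Mp - X * (a * Er)) * I₀ := by ring
    rw [e3]
    refine (abs_add_le _ _).trans ?_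
    rw [abs_mul, abs_of_nonneg hI₀0]
    have e4 : |Mp - X * (a * Er)| * I₀ ≤ ε / 2 * (X * Er) := by
      calc |Mp - X * (a * Er)| * I₀ ≤ |Mp - X * (a * Er)| * 1 := mul_le_mul_of_nonneg_left hI₀1 (abs_nonneg _)
        _ ≤ ε / 2 * (X * Er) := by
            rw [mul_one]
            exact hMpX.trans (mul_le_mul_of_nonneg_right hε'2 (by positivity))
    have e5 : Mp ≤ (C + 1) * (X * Er) := by
      have h2 := (abs_le.1 hMpX).2
      have h3 : 0 < X * Er := by positivity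
      have h4 : ε' * (X * Er) ≤ 1 * (X * Er) := mul_le_mul_of_nonneg_right hε'1 h3.le
      have h5 : X * (a * Er) ≤ C * (X * Er) := by
        calc X * (a * Er) = a * (X * Er) := by ring
          _ ≤ _ := mul_le_mul_of_nonneg_right ha3 h3.le
      linarith
    have e6 : Mp * (ε / (2 * (C + 1))) ≤ ε / 2 * (X * Er) := by
      calc Mp * (ε / (2 * (C + 1))) ≤ ((C + 1) * (X * Er)) * (ε / (2 * (C + 1))) :=
            mul_le_mul_of_nonneg_right e5 (by positivity)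
        _ = ε / 2 * (X * Er) := by field_simp
    linarith
  · refine Continuous.stronglyMeasurable ?_
    exact continuous_finsetProd _ fun j _ => hφ.comp (by fun_prop)

/-- the law of the logarithms in the moment measures with the densities `1 + Re (c (ζ/|ζ|)^n)` -/
theorem lawP (m : ℕ) (k D K W : ℝ) (hk : 0 < k) (hD : 0 < D)
    (hW : 0 < W) (n : ℤ) (hn : n ≠ 0) (c : ℂ) (hc1 : ‖c‖ ≤ 1) (φ : ℝ → ℝ) (hφ : Continuous φ) (h0 : ∀ x, 0 ≤ φ x)
    (h1 : ∀ x, φ x ≤ 1) (ε : ℝ) (hε : 0 < ε) : Ev fun X δ => ∀ h : Fin m → ℝ, (∀ j, |h j| ≤ δ ^ (-D)) →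
      (∀ j l, j ≠ l → 1 ≤ |h j - h l| ∧ -K ≤ (LZ (1 + 2 * δ) (h j - h l)).re) →
      ∃ N : Set ℝ, MeasurableSet N ∧ N ⊆ Set.Icc 0 X ∧ volume (Set.Icc 0 X \ N) ≤ ENNReal.ofReal (δ ^ W * X) ∧
        (∀ t ∈ N, ∀ j, 0 < mz δ (t + h j)) ∧
        ∃ a : ℝ, aV (fun _ => (k : ℂ)) (fun _ => (k : ℂ)) h = a ∧
        IntegrableOn (fun t => SM.G (fun _ => k) h δ t) N ∧
        |(∫ t in N, SM.G (fun _ => k) h δ t * PC c n h δ t * ∏ j, φ (YY k δ (t + h j))) -
          X * (a * Real.exp (SM.Lr (fun _ => k) h δ)) * (∫ x, φ x ∂(ProbabilityTheory.gaussianReal 0 1)) ^ m| ≤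
          ε * (X * Real.exp (SM.Lr (fun _ => k) h δ)) :=
  lawP_of jmF posF LZB.main eqc m k D K W hk hD hW n hn c hc1 φ hφ h0 h1 ε hε

end Run7.h701.PH
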