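import Pool.Agent.Run7.h701.PH.C
import Pool.Agent.Run7.h701.LW.B

set_option autoImplicit false

/-! The phase of zeta in the moment measures: the two-point function of the densities and their means -/

namespace Run7.h701.PH

open Finset Filter MeasureTheory Topology Complex
open Pool.Agent.N748.MG hiding Phi
open Pool.Agent.N748.MJ Run7.h291.WN Run7.h291.WC

/-- a continuous function which vanishes at the zeros of zeta, times the density, is continuous -/
lemma mul_pc_cont {f : ℝ → ℝ} {δ : ℝ} (hf : Continuous f) (h0 : 0 < δ) (h1 : δ ≤ 1 / 16)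
    (hz : ∀ u, mz δ u = 0 → f u = 0) {z : ℂ} (hz1 : ‖z‖ ≤ 1) {q : ℤ} (hq : q ≠ 0) :
    Continuous fun u => f u * pc z q δ u := by
  refine continuous_iff_continuousAt.2 fun u => ?_
  by_cases hu : mz δ u = 0
  · have h2 : f u = 0 := hz u hu
    show Tendsto (fun v => f v * pc z q δ v) (𝓝 u) (𝓝 (f u * pc z q δ u))
    rw [h2, zero_mul]
    refine squeeze_zero_norm (a := fun v => 2 * |f v|) (fun v => ?_) ?_
    · rw [norm_mul, Real.norm_eq_abs, Real.norm_of_nonneg (pc_nn hz1 hq δ v), mul_comm]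
      exact mul_le_mul_of_nonneg_right (pc_le hz1 hq δ v) (abs_nonneg _)
    · have h3 : Tendsto (fun v => 2 * |f v|) (𝓝 u) (𝓝 (2 * |f u|)) := (continuous_const.mul hf.abs).tendsto u
      rwa [h2, abs_zero, mul_zero] at h3
  · have hz0 : riemannZeta (pw δ u) ≠ 0 := fun h => hu (by unfold mz; rw [h, norm_zero])
    have hn0 : ((‖riemannZeta (pw δ u)‖ : ℝ) : ℂ) ≠ 0 := by
      exact_mod_cast (norm_ne_zero_iff.2 hz0)
    have hc' : Continuous fun t : ℝ => riemannZeta (pw δ t) := JM.zc δ h0 h1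
    refine hf.continuousAt.mul ?_
    unfold pc
    refine continuousAt_const.add ?_
    refine Complex.continuous_re.continuousAt.comp ?_
    refine continuousAt_const.mul ?_
    unfold ph
    refine ContinuousAt.zpow₀ ?_ q (Or.inl (div_ne_zero hz0 hn0))
    exact hc'.continuousAt.div (Complex.continuous_ofReal.comp hc'.norm).continuousAt hn0

lemma Zk_zero {k δ u : ℝ} (hk : 0 < k) (h : mz δ u = 0) : Zk k δ u = 0 := by
  unfold Zk
  rw [h, Real.zero_rpow (by positivity), mul_zero]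

lemma FP_zero {k W δ u : ℝ} (hk : 0 < k) (h0 : 0 < δ) (h : mz δ u = 0) : FP k W δ u = 0 :=
  le_antisymm ((FP_le u).trans (Zk_zero hk h).le) (FP_nn h0.le u)

lemma gg_zero {n N : ℕ} {k y η e c W δ u : ℝ} (hk : 0 < k) (h0 : 0 < δ) (h : mz δ u = 0) :
    gg n N k y η e c W δ u = 0 :=
  le_antisymm ((gg_le h0.le u).trans (FP_zero hk h0 h).le) (gg_nn h0.le u)

/-- the weight below the level and the barrier, with the density -/
noncomputable def gp (z : ℂ) (q : ℤ) (n N : ℕ) (k y η e c W δ u : ℝ) : ℝ := gg n N k y η e c W δ u * pc z q δ u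

/-- the weight below the level, with the density -/
noncomputable def Fp (z : ℂ) (q : ℤ) (k y η W δ u : ℝ) : ℝ := FP k W δ u * chi k y η δ u * pc z q δ u

/-- the weight below the level, with the density, without truncation -/
noncomputable def Zp (z : ℂ) (q : ℤ) (k y η δ u : ℝ) : ℝ := Zk k δ u * chi k y η δ u * pc z q δ u

section basic

variable {z : ℂ} {q : ℤ} {n N : ℕ} {k y η e c W δ : ℝ}

lemma gp_cont (hz : ‖z‖ ≤ 1) (hq : q ≠ 0) (hk : 0 < k) (hη : 0 ≤ η) (h0 : 0 < δ) (h1 : δ ≤ 1 / 16) :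
    Continuous fun u => gp z q n N k y η e c W δ u :=
  mul_pc_cont (gg_cont hk.le hη h1) h0 h1 (fun _ h => gg_zero hk h0 h) hz hq

lemma Fp_cont (hz : ‖z‖ ≤ 1) (hq : q ≠ 0) (hk : 0 < k) (hη : 0 ≤ η) (h0 : 0 < δ) (h1 : δ ≤ 1 / 16) :
    Continuous fun u => Fp z q k y η W δ u :=
  mul_pc_cont ((FP_cont hk.le h1).mul (chi_cont hη h1)) h0 h1
    (fun u h => by
      show FP k W δ u * chi k y η δ u = 0
      rw [FP_zero hk h0 h, zero_mul]) hz hq

lemma Zp_cont (hz : ‖z‖ ≤ 1) (hq : q ≠ 0) (hk : 0 < k) (hη : 0 ≤ η) (h0 : 0 < δ) (h1 : δ ≤ 1 / 16) :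
    Continuous fun u => Zp z q k y η δ u :=
  mul_pc_cont ((Zk_cont hk.le h1).mul (chi_cont hη h1)) h0 h1
    (fun u h => by
      show Zk k δ u * chi k y η δ u = 0
      rw [Zk_zero hk h, zero_mul]) hz hq

lemma gp_nn (hz : ‖z‖ ≤ 1) (hq : q ≠ 0) (h0 : 0 < δ) (u : ℝ) : 0 ≤ gp z q n N k y η e c W δ u :=
  mul_nonneg (gg_nn h0.le u) (pc_nn hz hq δ u)

lemma Fp_nn (hz : ‖z‖ ≤ 1) (hq : q ≠ 0) (h0 : 0 < δ) (u : ℝ) : 0 ≤ Fp z q k y η W δ u :=
  mul_nonneg (mul_nonneg (FP_nn h0.le u) (chi_nn u)) (pc_nn hz hq δ u)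

lemma Zp_nn (hz : ‖z‖ ≤ 1) (hq : q ≠ 0) (h0 : 0 < δ) (u : ℝ) : 0 ≤ Zp z q k y η δ u :=
  mul_nonneg (mul_nonneg (Zk_nn h0.le u) (chi_nn u)) (pc_nn hz hq δ u)

lemma gp_le2 (hz : ‖z‖ ≤ 1) (hq : q ≠ 0) (h0 : 0 < δ) (u : ℝ) :
    gp z q n N k y η e c W δ u ≤ 2 * gg n N k y η e c W δ u := by
  unfold gp
  rw [mul_comm]
  exact mul_le_mul_of_nonneg_right (pc_le hz hq δ u) (gg_nn h0.le u)

lemma gp_le_W (hz : ‖z‖ ≤ 1) (hq : q ≠ 0) (h0 : 0 < δ) (u : ℝ) :
    gp z q n N k y η e c W δ u ≤ 2 * δ ^ (-W) := by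
  have h2 := (gg_le (n := n) (N := N) (k := k) (y := y) (η := η) (e := e) (c := c) (W := W) h0.le u).trans (FP_le' u)
  have h3 := gp_le2 (n := n) (N := N) (k := k) (y := y) (η := η) (e := e) (c := c) (W := W) hz hq h0 u
  linarith

lemma gp_le_Fp (hz : ‖z‖ ≤ 1) (hq : q ≠ 0) (h0 : 0 < δ) (u : ℝ) :
    gp z q n N k y η e c W δ u ≤ Fp z q k y η W δ u :=
  mul_le_mul_of_nonneg_right (gg_le_chi h0.le u) (pc_nn hz hq δ u)

lemma Fp_le_Zp (hz : ‖z‖ ≤ 1) (hq : q ≠ 0) (u : ℝ) : Fp z q k y η W δ u ≤ Zp z q k y η δ u :=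
  mul_le_mul_of_nonneg_right (mul_le_mul_of_nonneg_right (FP_le u) (chi_nn u)) (pc_nn hz hq δ u)

end basic

/-- the correlation function with the densities -/
noncomputable def cp (z : ℂ) (q : ℤ) (n N : ℕ) (k y η e c W δ X h : ℝ) : ℝ :=
  ∫ t in (0:ℝ)..X, gp z q n N k y η e c W δ t * gp z q n N k y η e c W δ (t + h)

lemma cp_cont {z : ℂ} {q : ℤ} {n N : ℕ} {k y η e c W δ X : ℝ} (hz : ‖z‖ ≤ 1) (hq : q ≠ 0) (hk : 0 < k) (hη : 0 ≤ η)
    (h0 : 0 < δ) (h1 : δ ≤ 1 / 16) : Continuous fun h => cp z q n N k y η e c W δ X h := by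
  unfold cp
  refine intervalIntegral.continuous_parametric_intervalIntegral_of_continuous (f := fun h t =>
    gp z q n N k y η e c W δ t * gp z q n N k y η e c W δ (t + h)) ?_ continuous_const
  exact ((gp_cont hz hq hk hη h0 h1).comp continuous_snd).mul ((gp_cont hz hq hk hη h0 h1).comp (by fun_prop))

lemma cp_le_cg {z : ℂ} {q : ℤ} {n N : ℕ} {k y η e c W δ X : ℝ} (hz : ‖z‖ ≤ 1) (hq : q ≠ 0) (hk : 0 < k) (hη : 0 ≤ η)
    (h0 : 0 < δ) (h1 : δ ≤ 1 / 16) (hX : 0 ≤ X) (h : ℝ) :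
    cp z q n N k y η e c W δ X h ≤ 4 * cg n N k y η e c W δ X h := by
  unfold cp cg
  rw [← intervalIntegral.integral_const_mul]
  refine intervalIntegral.integral_mono_on hX
    (((gp_cont hz hq hk hη h0 h1).mul ((gp_cont hz hq hk hη h0 h1).comp (by fun_prop))).intervalIntegrable _ _)
    ((continuous_const.mul ((gg_cont hk.le hη h1).mul ((gg_cont hk.le hη h1).comp (by fun_prop)))).intervalIntegrable _ _)
    fun t _ => ?_
  have h2 := mul_le_mul (gp_le2 (n := n) (N := N) (k := k) (y := y) (η := η) (e := e) (c := c) (W := W) hz hq h0 t)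
    (gp_le2 (n := n) (N := N) (k := k) (y := y) (η := η) (e := e) (c := c) (W := W) hz hq h0 (t + h))
    (gp_nn hz hq h0 _) (mul_nonneg zero_le_two (gg_nn h0.le _))
  refine h2.trans (le_of_eq ?_)
  ring

/-- the two-point function at distances at least one -/
lemma tp_farP (z : ℂ) (hz : ‖z‖ ≤ 1) (q : ℤ) (hq : q ≠ 0) (n : ℕ) (k y η e c W D : ℝ) (hk : 0 < k) (hη : 0 < η)
    (hW : 0 ≤ W) (hD : 0 < D) (ε : ℝ) (hε : 0 < ε) : Ev fun X δ => ∀ h : ℝ, 1 ≤ h → h ≤ δ ^ (-D) →
    cp z q n (NS δ) k y η e c W δ X h ≤ X * ((mm y η ^ 2 + ε) * B2 k δ h + ε) := by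
  have ha := akp k
  obtain ⟨c1, Cp, hc1, hCp, hpos⟩ := posF 2 k hk.le
  set m : ℝ := mm y η with hm
  have hm0 : 0 ≤ m := mm_nn y η
  have hm1 : m ≤ 1 := mm_le y η
  set e1 : ℝ := min (ε / 32) 1 with he1
  have he10 : 0 < e1 := lt_min (by positivity) one_pos
  have he11 : e1 ≤ 1 := min_le_right _ _
  have he12 : e1 ≤ ε / 32 := min_le_left _ _
  set r : ℝ := min (akR k ^ 2 * (ε / 32) / Cp) 1 with hr
  have hr0 : 0 < r := lt_min (by positivity) one_pos
  have hr1 : Cp / akR k ^ 2 * r ≤ ε / 32 := by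
    have h2 : r ≤ akR k ^ 2 * (ε / 32) / Cp := min_le_left _ _
    calc Cp / akR k ^ 2 * r ≤ Cp / akR k ^ 2 * (akR k ^ 2 * (ε / 32) / Cp) :=
          mul_le_mul_of_nonneg_left h2 (by positivity)
      _ = ε / 32 := by field_simp
  set K : ℝ := -(Real.log r) / (2 * k ^ 2) with hK
  have hKr : Real.exp (-(2 * k ^ 2 * K)) = r := by
    have : -(2 * k ^ 2 * K) = Real.log r := by
      rw [hK]
      field_simp
    rw [this, Real.exp_log hr0]
  obtain ⟨d0, hd0, hpole⟩ := pole_pow (2 * k ^ 2) e1 he10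
  refine (((((lawP 2 k D K (2 * W + 1) hk hD (by linarith) q hq z hz (phy y η) phy_cont phy_nn phy_le (e1 * c1)
    (by positivity)).and (Run7.h291.WN.tp_far 0 k 1 W hk hW e1 he10)).and (Ev.of_le hd0)).and
    (Ev.win (D := D) (c := 1) (e := (1:ℝ) / 2) one_pos (by norm_num))).and
    (Ev.of_le (show 0 < ε / 4 by positivity))).mono ?_
  rintro X δ hX1 h0 h1 ⟨⟨⟨⟨HL, HB⟩, hδ0⟩, w1⟩, hδε⟩ h hh hh2
  rw [one_mul] at w1
  have hX0 : 0 < X := by linarith
  have hhX : h ≤ X ^ ((1:ℝ) / 2) := hh2.trans w1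
  obtain ⟨hCu, hcl⟩ := hpos ![0, h]
  obtain ⟨a, ha1, ha2⟩ := hcl (fun _ => k) (fun j => by rw [abs_of_pos hk])
  have ha0 : 0 < a := lt_of_lt_of_le hc1 ha1
  have haC : a ≤ Cp := by
    have h2 := hCu (fun _ => (k:ℂ)) (fun _ => (k:ℂ)) (fun j => by
      rw [Complex.norm_real, Real.norm_of_nonneg hk.le]) (fun j => by
      rw [Complex.norm_real, Real.norm_of_nonneg hk.le])
    rw [ha2, Complex.norm_real, Real.norm_of_nonneg ha0.le] at h2
    exact h2
  set z1 : ℝ := ‖riemannZeta (1 + 2 * δ + h * I)‖ ^ (2 * k ^ 2) with hz1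
  have hz10 : 0 ≤ z1 := Real.rpow_nonneg (norm_nonneg _) _
  have hB2 : B2 k δ h = a / akR k ^ 2 * z1 := by
    unfold B2
    rw [ha2, aC_re, Complex.ofReal_re]
  have hB0 : 0 ≤ B2 k δ h := by
    rw [hB2]
    positivity
  have hcZ : Continuous fun t => Zp z q k y η δ t := Zp_cont hz hq hk hη.le h0 h1
  have hgc : Continuous fun t => gp z q n (NS δ) k y η e c W δ t := gp_cont hz hq hk hη.le h0 h1
  have hgF : ∀ t, gp z q n (NS δ) k y η e c W δ t ≤ Zp z q k y η δ t := fun t =>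
    (gp_le_Fp hz hq h0 t).trans (Fp_le_Zp hz hq t)
  have hZn : ∀ t, 0 ≤ Zp z q k y η δ t := fun t => Zp_nn hz hq h0 t
  by_cases hcase : -K ≤ (LZ (1 + 2 * δ) h).re
  · -- the main case
    obtain ⟨S, n1, n2, n3, n4, a', a1, a3, a4⟩ := HL ![0, h] (fun j => by
      fin_cases j
      · simpa using Real.rpow_nonneg h0.le _
      · simpa [abs_of_nonneg (show 0 ≤ h by linarith)] using hh2) (fun j l hjl => by
      fin_cases j <;> fin_cases l
      · exact absurd rfl hjl
      · refine ⟨?_, ?_⟩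
        · simpa [abs_of_nonneg (show 0 ≤ h by linarith)] using hh
        · simp only [Fin.zero_eta, Fin.isValue, Matrix.cons_val_zero, Fin.mk_one, Matrix.cons_val_one, zero_sub]
          rw [LZ_even h0 h1]
          exact hcase
      · refine ⟨?_, ?_⟩
        · simpa [abs_of_nonneg (show 0 ≤ h by linarith)] using hh
        · simpa using hcase
      · exact absurd rfl hjl)
    have haa : a' = a := by
      rw [ha2] at a1
      exact_mod_cast a1.symm
    rw [haa] at a4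
    set E : ℝ := Real.exp (SM.Lr (fun _ : Fin 2 => k) ![0, h] δ) with hE
    have hE0 : 0 < E := Real.exp_pos _
    set J : ℝ := ∫ t in S, SM.G (fun _ : Fin 2 => k) ![0, h] δ t * PC z q ![0, h] δ t *
      ∏ j : Fin 2, phy y η (YY k δ (t + ![0, h] j)) with hJ
    have hJu : J ≤ X * E * (a * (m ^ 2 + e1)) := by
      have h2 := (abs_le.1 a4).2
      have h3 : e1 * c1 * (X * E) ≤ e1 * a * (X * E) :=
        mul_le_mul_of_nonneg_right (mul_le_mul_of_nonneg_left ha1 he10.le) (by positivity)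
      have h4 : X * E * (a * (m ^ 2 + e1)) = X * (a * E) * m ^ 2 + e1 * a * (X * E) := by ring
      rw [h4]
      have h5 : (∫ x, phy y η x ∂(ProbabilityTheory.gaussianReal 0 1)) = m := rfl
      rw [h5] at h2
      linarith
    set cc : ℝ := ((2 * δ) ^ (k ^ 2) / akR k) ^ 2 with hcc
    have hmain := offN (g := fun t => gp z q n (NS δ) k y η e c W δ t * gp z q n (NS δ) k y η e c W δ (t + h))
      (G := fun t => Zp z q k y η δ t * Zp z q k y η δ (t + h)) (N := S) (X := X)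
      (B := (2 * δ ^ (-W)) * (2 * δ ^ (-W))) (c := 1) (v := δ ^ (2 * W + 1) * X) hX0.le n1 n2 n3
      (mul_nonneg (Real.rpow_nonneg h0.le _) hX0.le)
      (hgc.mul (hgc.comp (by fun_prop)))
      (fun t => mul_nonneg (gp_nn hz hq h0 _) (gp_nn hz hq h0 _))
      (fun t => mul_le_mul (gp_le_W hz hq h0 _) (gp_le_W hz hq h0 _) (gp_nn hz hq h0 _)
        (mul_nonneg zero_le_two (Real.rpow_nonneg h0.le _)))
      ((hcZ.mul (hcZ.comp (by fun_prop))).integrableOn_Icc.mono_set n2) (fun t ht => by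
          rw [one_mul]
          exact mul_le_mul (hgF t) (hgF (t + h)) (gp_nn hz hq h0 _) (hZn t))
    have hJe : ∫ t in S, Zp z q k y η δ t * Zp z q k y η δ (t + h) = cc * J := by
      rw [hJ, ← integral_const_mul]
      refine setIntegral_congr_fun n1 fun t ht => ?_
      have hm0 : 0 < mz δ t := by
        have := n4 t ht 0
        simpa using this
      have hm1 : 0 < mz δ (t + h) := by
        have := n4 t ht 1
        simpa using this
      unfold Zp PC
      simp only [G_two, Fin.prod_univ_two, Matrix.cons_val_zero, Matrix.cons_val_one, add_zero]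
      rw [chi_eq hη h0 h1 hm0, chi_eq hη h0 h1 hm1, hcc]
      unfold Zk
      ring
    have f1 : (2 * δ ^ (-W)) * (2 * δ ^ (-W)) * (δ ^ (2 * W + 1) * X) = 4 * δ * X := by
      have e2 : (2 * δ ^ (-W)) * (2 * δ ^ (-W)) * (δ ^ (2 * W + 1) * X) =
          4 * (δ ^ (-W) * δ ^ (-W) * δ ^ (2 * W + 1)) * X := by ring
      rw [e2, ← Real.rpow_add h0, ← Real.rpow_add h0]
      have : -W + -W + (2 * W + 1) = 1 := by ring
      rw [this, Real.rpow_one]
    rw [one_mul, hJe, f1] at hmain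
    have hcgd : cp z q n (NS δ) k y η e c W δ X h =
      ∫ t in (0:ℝ)..X, gp z q n (NS δ) k y η e c W δ t * gp z q n (NS δ) k y η e c W δ (t + h) := rfl
    rw [hcgd]
    refine hmain.trans ?_
    have hp := (abs_le.1 (hpole δ h0 hδ0)).2
    set z0 : ℝ := ‖riemannZeta (1 + 2 * δ)‖ with hz0
    have hz00 : 0 ≤ z0 := norm_nonneg _
    have hEe : E = z0 ^ (2 * k ^ 2) * z1 := exp_two k h h0 h1
    have f2 : cc * E ≤ (1 + e1) / akR k ^ 2 * z1 := by
      have g1 : (2 * δ) ^ (k ^ 2) * (2 * δ) ^ (k ^ 2) = (2 * δ) ^ (2 * k ^ 2) := by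
        rw [← Real.rpow_add (by linarith)]
        congr 1
        ring
      have g2 : (2 * δ) ^ (2 * k ^ 2) * z0 ^ (2 * k ^ 2) ≤ 1 + e1 := by
        rw [← Real.mul_rpow (by linarith) hz00]
        linarith
      calc cc * E = ((2 * δ) ^ (2 * k ^ 2) * z0 ^ (2 * k ^ 2)) / akR k ^ 2 * z1 := by
            rw [hEe, hcc, div_pow, sq, g1]
            ring
        _ ≤ (1 + e1) / akR k ^ 2 * z1 := by gcongr
    have hcc0 : 0 ≤ cc := sq_nonneg _
    have hme : (m ^ 2 + e1) * (1 + e1) ≤ m ^ 2 + ε := by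
      have q0 : m ^ 2 ≤ 1 := pow_le_one₀ hm0 hm1
      have q1 : m ^ 2 * e1 ≤ 1 * e1 := mul_le_mul_of_nonneg_right q0 he10.le
      have q2 : e1 * e1 ≤ 1 * e1 := mul_le_mul_of_nonneg_right he11 he10.le
      nlinarith
    calc cc * J + 4 * δ * X ≤ cc * (X * E * (a * (m ^ 2 + e1))) + ε * X :=
          add_le_add (mul_le_mul_of_nonneg_left hJu hcc0) (mul_le_mul_of_nonneg_right (by linarith) hX0.le)
      _ = X * a * (m ^ 2 + e1) * (cc * E) + ε * X := by ring
      _ ≤ X * a * (m ^ 2 + e1) * ((1 + e1) / akR k ^ 2 * z1) + ε * X :=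
          add_le_add (mul_le_mul_of_nonneg_left f2 (by positivity)) le_rfl
      _ = X * (((m ^ 2 + e1) * (1 + e1)) * B2 k δ h + ε) := by
          rw [hB2]
          ring
      _ ≤ X * ((m ^ 2 + ε) * B2 k δ h + ε) := by
          refine mul_le_mul_of_nonneg_left (add_le_add (mul_le_mul_of_nonneg_right hme hB0) le_rfl) hX0.le
  · -- small values of zeta on the line one
    rw [not_le] at hcase
    have hz1s : z1 ≤ r := by
      have g1 := LZre h0 h1 h
      have e0 : (((1 + 2 * δ : ℝ) : ℂ) + h * I) = 1 + 2 * (δ : ℂ) + h * I := by push_cast; ring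
      rw [e0] at g1
      rw [hz1, ← g1, ← Real.exp_mul, ← hKr]
      refine Real.exp_le_exp.2 ?_
      have : 0 < 2 * k ^ 2 := by positivity
      nlinarith
    have hBs : B2 k δ h ≤ ε / 32 := by
      rw [hB2]
      refine le_trans ?_ hr1
      exact mul_le_mul (by gcongr) hz1s hz10 (by positivity)
    have hcb := HB h (by linarith) hhX
    have hle : cg n (NS δ) k y η e c W δ X h ≤ cb 0 k 1 W δ X h := by
      unfold cg cb
      have hff : ∀ t, ff 0 k 1 W δ t = FP k W δ t := fun t => by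
        unfold ff
        simp
      refine intervalIntegral.integral_mono_on hX0.le
        (((gg_cont hk.le hη.le h1).mul ((gg_cont hk.le hη.le h1).comp (by fun_prop))).intervalIntegrable _ _)
        (((ff_cont hk.le h1).mul ((ff_cont hk.le h1).comp (by fun_prop))).intervalIntegrable _ _) fun t _ => ?_
      rw [hff, hff]
      exact mul_le_mul (gg_le h0.le _) (gg_le h0.le _) (gg_nn h0.le _) (FP_nn h0.le _)
    have hle4 := cp_le_cg (n := n) (N := NS δ) (y := y) (e := e) (c := c) (W := W) hz hq hk hη.le h0 h1 hX0.le h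
    have h6 : 4 * cg n (NS δ) k y η e c W δ X h ≤ 4 * (X * ((1 + e1) * B2 k δ h + e1)) :=
      mul_le_mul_of_nonneg_left (hle.trans hcb) (by norm_num)
    refine (hle4.trans h6).trans ?_
    have e7 : 4 * (X * ((1 + e1) * B2 k δ h + e1)) = X * (4 * ((1 + e1) * B2 k δ h + e1)) := by ring
    rw [e7]
    refine mul_le_mul_of_nonneg_left ?_ hX0.le
    have h3 : 0 ≤ (m ^ 2 + ε) * B2 k δ h := by positivity
    have h4 : e1 * B2 k δ h ≤ 1 * B2 k δ h := mul_le_mul_of_nonneg_right he11 hB0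
    linarith

/-- the mean below the level, with the density -/
lemma mean_Fp (z : ℂ) (hz : ‖z‖ ≤ 1) (q : ℤ) (hq : q ≠ 0) (k y η W : ℝ) (hk : 0 < k) (hη : 0 < η)
    (hW : k ^ 2 + 1 ≤ W) (ε : ℝ) (hε : 0 < ε) :
    Ev fun X δ => (mm y η - ε) * X ≤ ∫ t in (0:ℝ)..X, Fp z q k y η W δ t := by
  have ha := akp k
  have hW0 : 0 < W := by nlinarith [sq_nonneg k]
  set m : ℝ := mm y η with hm
  set e1 : ℝ := min (ε / (4 * (|m| + 1))) 1 with he1
  have hm1 : 0 < |m| + 1 := by positivity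
  have he10 : 0 < e1 := lt_min (by positivity) one_pos
  have he11 : e1 ≤ 1 := min_le_right _ _
  have he12 : e1 * (|m| + 1) ≤ ε / 4 := by
    have : e1 ≤ ε / (4 * (|m| + 1)) := min_le_left _ _
    calc e1 * (|m| + 1) ≤ ε / (4 * (|m| + 1)) * (|m| + 1) := mul_le_mul_of_nonneg_right this hm1.le
      _ = ε / 4 := by field_simp
  set e2 : ℝ := akR k * (ε / 8) with he2
  have he20 : 0 < e2 := by positivity
  obtain ⟨d0, hd0, hpole⟩ := pole_pow (k ^ 2) e1 he10
  refine (((lawP 1 k 1 0 (W + 1) hk one_pos (by linarith) q hq z hz (phy y η) phy_cont phy_nn phy_le e2 he20).and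
    (Ev.of_le hd0)).and (FP_chi k y η W hk hη hW)).mono ?_
  rintro X δ hX1 h0 h1 ⟨⟨HL, hδ0⟩, hFP⟩
  have hX0 : 0 < X := by linarith
  obtain ⟨S, n1, n2, n3, n4, a, a1, a3, a4⟩ := HL (fun _ => 0) (fun j => by
    rw [abs_zero]
    exact Real.rpow_nonneg h0.le _) (fun j l hjl => absurd (Subsingleton.elim j l) hjl)
  -- the constant
  have haeq : a = akR k := by
    have h2 := Pool.Agent.N748.MJ.av0F 1 (fun _ => (k : ℂ)) (fun _ => (k : ℂ)) rfl
    rw [a1] at h2
    simp only [Finset.univ_unique, Fin.default_eq_zero, Finset.sum_const, Finset.card_singleton, one_smul] at h2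
    have h3 := congrArg Complex.re h2
    rw [Complex.ofReal_re, aC_re] at h3
    exact h3
  have hLr : Real.exp (SM.Lr (fun _ : Fin 1 => k) (fun _ => 0) δ) = ‖riemannZeta (1 + 2 * δ)‖ ^ (k ^ 2) := by
    rw [exp_Lr _ _ h0 h1]
    simp only [Finset.univ_unique, Fin.default_eq_zero, Finset.prod_const, Finset.card_singleton, pow_one, sub_self]
    have e0 : ((1 + 2 * δ : ℝ) : ℂ) + ((0:ℝ) : ℂ) * I = 1 + 2 * (δ : ℂ) := by push_cast; ring
    rw [e0]
    congr 1
    ring
  set u : ℝ := (2 * δ) ^ (k ^ 2) * Real.exp (SM.Lr (fun _ : Fin 1 => k) (fun _ => 0) δ) with hu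
  have hu1 : |u - 1| ≤ e1 := by
    rw [hu, hLr, ← Real.mul_rpow (by linarith) (norm_nonneg _)]
    exact hpole δ h0 hδ0
  set E : ℝ := Real.exp (SM.Lr (fun _ : Fin 1 => k) (fun _ => 0) δ) with hE
  have hG : ∀ t, SM.G (fun _ : Fin 1 => k) (fun _ => 0) δ t = mz δ t ^ (2 * k) := by
    intro t
    unfold SM.G
    simp
  set c0 : ℝ := (2 * δ) ^ (k ^ 2) / akR k with hc0
  have hc0p : 0 < c0 := div_pos (Real.rpow_pos_of_pos (by linarith) _) ha
  set J : ℝ := ∫ t in S, SM.G (fun _ : Fin 1 => k) (fun _ => 0) δ t * PC z q (fun _ : Fin 1 => 0) δ t *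
    ∏ j : Fin 1, phy y η (YY k δ (t + 0)) with hJ
  have hJ2 : |c0 * J - X * u * m| ≤ ε / 4 * X := by
    have h2 : c0 * J - X * u * m = c0 * (J - X * (a * E) * m ^ 1) := by
      rw [haeq, hu, hc0]
      field_simp
    rw [h2, abs_mul, abs_of_pos hc0p]
    have h3 : c0 * E = u / akR k := by
      rw [hc0, hu]
      ring
    calc c0 * |J - X * (a * E) * m ^ 1| ≤ c0 * (e2 * (X * E)) := mul_le_mul_of_nonneg_left a4 hc0p.le
      _ = e2 / akR k * u * X := by
          have : c0 * (e2 * (X * E)) = e2 * X * (c0 * E) := by ring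
          rw [this, h3]
          ring
      _ = ε / 8 * u * X := by
          rw [he2]
          field_simp
      _ ≤ ε / 4 * X := by
          have h9 : u ≤ 2 := by linarith [(abs_le.1 hu1).2]
          have h10 : ε / 8 * u ≤ ε / 8 * 2 := mul_le_mul_of_nonneg_left h9 (by positivity)
          have h11 := mul_le_mul_of_nonneg_right h10 hX0.le
          linarith
  have hZJ : ∫ t in S, Zp z q k y η δ t = c0 * J := by
    rw [hJ, ← integral_const_mul]
    refine setIntegral_congr_fun n1 fun t ht => ?_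
    have hm0 : 0 < mz δ t := by
      have := n4 t ht 0
      rwa [add_zero] at this
    unfold Zp PC
    simp only [hG, Finset.univ_unique, Fin.default_eq_zero, Finset.prod_const, Finset.card_singleton, pow_one,
      add_zero]
    rw [chi_eq hη h0 h1 hm0]
    unfold Zk
    ring
  have hFc : Continuous fun t => Fp z q k y η W δ t := Fp_cont hz hq hk hη.le h0 h1
  have hlo : c0 * J ≤ ∫ t in (0:ℝ)..X, Fp z q k y η W δ t := by
    rw [← hZJ, intervalIntegral.integral_of_le hX0.le, ← integral_Icc_eq_integral_Ioc]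
    have h2 : ∫ t in S, Zp z q k y η δ t = ∫ t in S, Fp z q k y η W δ t :=
      setIntegral_congr_fun n1 fun t _ => by
        unfold Zp Fp
        rw [(hFP t).2]
    rw [h2]
    exact setIntegral_mono_set hFc.integrableOn_Icc
      (Eventually.of_forall fun t => Fp_nn hz hq h0 t) n2.eventuallyLE
  have h5 : |X * u * m - m * X| ≤ ε / 4 * X := by
    have : X * u * m - m * X = X * ((u - 1) * m) := by ring
    rw [this, abs_mul, abs_of_pos hX0, abs_mul]
    have h6 : |u - 1| * |m| ≤ e1 * (|m| + 1) :=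
      mul_le_mul hu1 (by linarith) (abs_nonneg _) he10.le
    nlinarith
  have h7 := abs_le.1 hJ2
  have h8 := abs_le.1 h5
  have h9 : 0 ≤ ε * X := by positivity
  linarith [h7.1, h7.2, h8.1, h8.2]

/-- the difference of the two weights -/
lemma diff_le {z : ℂ} {q : ℤ} {n N : ℕ} {k y η e c W δ X : ℝ} (hz : ‖z‖ ≤ 1) (hq : q ≠ 0) (hk : 0 < k) (hη : 0 ≤ η)
    (h0 : 0 < δ) (h1 : δ ≤ 1 / 16) (hX : 0 ≤ X) :
    ∫ t in (0:ℝ)..X, (Fp z q k y η W δ t - gp z q n N k y η e c W δ t) ≤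
      2 * ((∫ t in (0:ℝ)..X, FP k W δ t * chi k y η δ t) - ∫ t in (0:ℝ)..X, gg n N k y η e c W δ t) := by
  have hFc : Continuous fun t => FP k W δ t * chi k y η δ t := (FP_cont hk.le h1).mul (chi_cont hη h1)
  have hgc := gg_cont (n := n) (N := N) (y := y) (e := e) (c := c) (W := W) hk.le hη h1
  rw [← intervalIntegral.integral_sub (hFc.intervalIntegrable _ _) (hgc.intervalIntegrable _ _),
    ← intervalIntegral.integral_const_mul]
  refine intervalIntegral.integral_mono_on hX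
    (((Fp_cont hz hq hk hη h0 h1).sub (gp_cont hz hq hk hη h0 h1)).intervalIntegrable _ _)
    ((continuous_const.mul (hFc.sub hgc)).intervalIntegrable _ _) fun t _ => ?_
  have h2 := gg_le_chi (n := n) (N := N) (k := k) (y := y) (η := η) (e := e) (c := c) (W := W) h0.le t
  have h3 := pc_le hz hq δ t
  have h4 : (FP k W δ t * chi k y η δ t - gg n N k y η e c W δ t) * pc z q δ t ≤
      (FP k W δ t * chi k y η δ t - gg n N k y η e c W δ t) * 2 := mul_le_mul_of_nonneg_left h3 (by linarith)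
  unfold Fp gp
  linarith

/-- the mean of the weight below the level and the barrier, with the density -/
lemma mean_gp (z : ℂ) (hz : ‖z‖ ≤ 1) (q : ℤ) (hq : q ≠ 0) (hLaw : S_LAW) (n : ℕ) (hn : 1 ≤ n) (k y η e c W : ℝ)
    (hk : 0 < k) (hη : 0 < η) (he : 0 < e)
    (hc : 0 < c) (hck : c < k) (hW : k ^ 2 + 1 ≤ W) (ε : ℝ) (hε : 0 < ε) :
    Ev fun X δ => (mm y η - ε) * X ≤ ∫ t in (0:ℝ)..X, gp z q n (NS δ) k y η e c W δ t := by
  refine (((mean_chi hLaw k y η W hk hη hW (ε / 8) (by positivity)).and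
    (mean_gg hLaw n hn k y η e c W hk hη he hc hck hW (ε / 8) (by positivity))).and
    (mean_Fp z hz q hq k y η W hk hη hW (ε / 4) (by positivity))).mono ?_
  rintro X δ hX1 h0 h1 ⟨⟨E1, E2⟩, E3⟩
  have hX0 : 0 < X := by linarith
  have h2 := diff_le (n := n) (N := NS δ) (y := y) (e := e) (c := c) (W := W) hz hq hk hη.le h0 h1 hX0.le
  rw [intervalIntegral.integral_sub ((Fp_cont hz hq hk hη.le h0 h1).intervalIntegrable _ _)
    ((gp_cont hz hq hk hη.le h0 h1).intervalIntegrable _ _)] at h2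
  have h3 := (abs_le.1 E1).2
  have h4 : 0 ≤ ε * X := by positivity
  linarith

end Run7.h701.PH
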