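import Pool.Agent.Run7.h701.PH.D

set_option autoImplicit false

/-! The phase of zeta in the moment measures: the mean square over windows and the windows at one level -/

namespace Run7.h701.PH

open Finset Filter MeasureTheory Topology Complex
open Pool.Agent.N748.MG hiding Phi
open Pool.Agent.N748.MJ Run7.h291.WN Run7.h291.WC

/-- the primitive of the correlation function -/
lemma prim_gen {C B : ℝ → ℝ} {X b m2 C2 D e : ℝ} (hC : Continuous C) (hB : Continuous B)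
    (hX : 0 < X) (he : 0 < e) (_hb : 0 ≤ b) (hm2 : 0 ≤ m2) (hC2 : 0 < C2)
    (E1 : ∀ x : ℝ, 0 ≤ x → x ≤ 1 → ∫ h in (0:ℝ)..x, C h ≤ X * b)
    (E2 : ∀ h : ℝ, 1 ≤ h → h ≤ D → C h ≤ X * ((m2 + e) * B h + e))
    (E3 : ∀ x : ℝ, 1 ≤ x → ∫ h in (1:ℝ)..x, B h ≤ (1 + e) * x + C2) {z : ℝ} (hz : 0 ≤ z)
    (hzX : z ≤ D) :
    ∫ h in (0:ℝ)..z, C h ≤ X * (((m2 + e) * (1 + e) + e) * z + (b + (m2 + e) * C2)) := by
  have hi : ∀ a b : ℝ, IntervalIntegrable (fun h => C h) volume a b := fun a b => hC.intervalIntegrable a b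
  have hme : 0 < m2 + e := by linarith
  rcases le_total z 1 with hy1 | hy1
  · refine (E1 z hz hy1).trans ?_
    refine mul_le_mul_of_nonneg_left ?_ hX.le
    have h2 : 0 ≤ ((m2 + e) * (1 + e) + e) * z := by positivity
    have h3 : 0 ≤ (m2 + e) * C2 := by positivity
    linarith
  · rw [← intervalIntegral.integral_add_adjacent_intervals (hi 0 1) (hi 1 z)]
    have h2 := E1 1 zero_le_one le_rfl
    have h3 : ∫ h in (1:ℝ)..z, C h ≤ ∫ h in (1:ℝ)..z, X * ((m2 + e) * B h + e) := by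
      refine intervalIntegral.integral_mono_on hy1 (hi _ _) ?_ fun h hh => ?_
      · exact (continuous_const.mul ((continuous_const.mul hB).add continuous_const)).intervalIntegrable _ _
      · exact E2 h hh.1 (hh.2.trans hzX)
    have h4 : ∫ h in (1:ℝ)..z, X * ((m2 + e) * B h + e) =
        X * ((m2 + e) * (∫ h in (1:ℝ)..z, B h) + (z - 1) * e) := by
      have hq : Continuous fun h : ℝ => (m2 + e) * B h := continuous_const.mul hB
      rw [intervalIntegral.integral_const_mul, intervalIntegral.integral_add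
        (hq.intervalIntegrable _ _) (by simp),
        intervalIntegral.integral_const_mul, intervalIntegral.integral_const, smul_eq_mul]
    have h5 := E3 z hy1
    rw [h4] at h3
    have h6 : X * ((m2 + e) * (∫ h in (1:ℝ)..z, B h) + (z - 1) * e) ≤
        X * ((m2 + e) * ((1 + e) * z + C2) + z * e) := by
      refine mul_le_mul_of_nonneg_left (add_le_add (mul_le_mul_of_nonneg_left h5 hme.le) ?_) hX.le
      nlinarith
    nlinarith

/-- the mean square of the deviation over the windows -/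
lemma winP (hM : S_MNB) (hLaw : S_LAW) (z : ℂ) (hz : ‖z‖ ≤ 1) (q : ℤ) (hq : q ≠ 0) (k : ℝ) (hk : 1 < k) :
    ∃ (n : ℕ) (c : ℝ), 1 ≤ n ∧ 0 < c ∧ c < k ∧
    ∀ y η e x W : ℝ, 0 < η → 0 < e → y + η + e < x → k ^ 2 + 1 ≤ W → 0 < mm y η → ∀ ε : ℝ, 0 < ε → Ev fun X δ =>
    (∫ t in (0:ℝ)..X, (Av (Hx k x δ) (fun u => gp z q n (NS δ) k y η e c W δ u / mm y η) t - 1) ^ 2 ≤ ε * X) ∧
    ∫ t in (0:ℝ)..X, (Fp z q k y η W δ t - gp z q n (NS δ) k y η e c W δ t) ≤ ε * X := by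
  have hk0 : 0 < k := by linarith
  obtain ⟨n, c, hn, hc, hck, H1⟩ := cg_one k hk
  refine ⟨n, c, hn, hc, hck, fun y η e' x W hη he' hx hW hm0 ε hε => ?_⟩
  have hW0 : 0 ≤ W := by nlinarith [sq_nonneg k]
  set m : ℝ := mm y η with hm
  have hm1 : m ≤ 1 := mm_le y η
  set e : ℝ := min (min (ε * m ^ 2 / 20) 1) (min (ε * m / 20) ε) with he
  have hm2 : 0 < m ^ 2 := by positivity
  have he0 : 0 < e := lt_min (lt_min (by positivity) one_pos) (lt_min (by positivity) hε)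
  have he1 : e ≤ 1 := (min_le_left _ _).trans (min_le_right _ _)
  have he2 : e ≤ ε * m ^ 2 / 20 := (min_le_left _ _).trans (min_le_left _ _)
  have he3 : e ≤ ε := (min_le_right _ _).trans (min_le_right _ _)
  have he4 : e ≤ ε * m / 20 := (min_le_right _ _).trans (min_le_left _ _)
  obtain ⟨C1, hC1, E1⟩ := H1 y η e' W hη hW0
  obtain ⟨C2, δ0, hC2, hδ0, E3⟩ := hM k hk0 e he0
  have E2 := tp_farP z hz q hq n k y η e' c W (k ^ 2) hk0 hη hW0 (by positivity) e he0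
  have E4 := mean_gp z hz q hq hLaw n hn k y η e' c W hk0 hη he' hc hck hW e he0
  have hb : 0 < 2 * k * (x - (y + η + e')) := by
    have : 0 < x - (y + η + e') := by linarith
    positivity
  have hsm := exp_small 0 (4 * C1) (2 * k * (x - (y + η + e'))) e hb he0
  refine ((((((((((E1.and E2).and E4).and (Ev.of_le hδ0)).and (Hx_small k x)).and (Hx_large k x (2 * C2 / e) hk)).and
    (Ev.win (D := k ^ 2 + 2 * W) (c := e) (e := 1) he0 one_pos)).and
    (Ev.win (D := k ^ 2 + W) (c := e) (e := 1) he0 one_pos)).and (of_L hsm)).and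
    (mean_chi hLaw k y η W hk0 hη hW (ε / 4) (by positivity))).and
    (mean_gg hLaw n hn k y η e' c W hk0 hη he' hc hck hW (ε / 4) (by positivity))).mono ?_
  rintro X δ hX1 h0 h1 ⟨⟨⟨⟨⟨⟨⟨⟨⟨⟨E1, E2⟩, E4⟩, hδ⟩, hHs⟩, hHl⟩, w2⟩, w3⟩, s1⟩, M1⟩, M2⟩
  have hX0 : 0 < X := by linarith
  rw [Real.rpow_one] at w2 w3
  set H : ℝ := Hx k x δ with hH
  have hH0 : 0 < H := Hx_pos h0
  set N : ℕ := NS δ with hN
  set g : ℝ → ℝ := fun u => gp z q n N k y η e' c W δ u / m with hg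
  have hgc : Continuous g := (gp_cont hz hq hk0 hη.le h0 h1).div_const m
  have hg0 : ∀ u, 0 ≤ g u := fun u => div_nonneg (gp_nn hz hq h0 u) hm0.le
  set M : ℝ := 2 * δ ^ (-W) / m with hMd
  have hM0 : 0 < M := by
    have := Real.rpow_pos_of_pos h0 (-W)
    positivity
  have hgM : ∀ u, g u ≤ M := fun u =>
    div_le_div_of_nonneg_right (gp_le_W hz hq h0 u) hm0.le
  set b : ℝ := 4 * (C1 * (δ ^ (1 - k ^ 2) * Real.exp (2 * k * (y + η + e') * sg δ))) with hbd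
  have hb0 : 0 ≤ b := by
    have := Real.rpow_pos_of_pos h0 (1 - k ^ 2)
    positivity
  have hcor : ∀ u, ∫ t in (0:ℝ)..X, g t * g (t + u) = cp z q n N k y η e' c W δ X u / m ^ 2 := by
    intro u
    unfold cp
    rw [← intervalIntegral.integral_div]
    refine intervalIntegral.integral_congr fun t _ => ?_
    rw [hg]
    simp only
    rw [div_mul_div_comm, sq]
  have E1' : ∀ x : ℝ, 0 ≤ x → x ≤ 1 → ∫ h in (0:ℝ)..x, cp z q n N k y η e' c W δ X h ≤ X * b := by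
    intro x hx hx1
    have g1 : ∫ h in (0:ℝ)..x, cp z q n N k y η e' c W δ X h ≤
        ∫ h in (0:ℝ)..x, 4 * cg n N k y η e' c W δ X h :=
      intervalIntegral.integral_mono_on hx ((cp_cont hz hq hk0 hη.le h0 h1).intervalIntegrable _ _)
        ((continuous_const.mul (cg_cont hk0.le hη.le h1)).intervalIntegrable _ _)
        fun h _ => cp_le_cg hz hq hk0 hη.le h0 h1 hX0.le h
    rw [intervalIntegral.integral_const_mul] at g1
    have g2 := E1 x hx hx1
    refine g1.trans ((mul_le_mul_of_nonneg_left g2 (by norm_num)).trans (le_of_eq ?_))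
    rw [hbd]
    ring
  have hprim : ∀ w ∈ Set.Icc 0 H, ∫ u in (0:ℝ)..w, ∫ t in (0:ℝ)..X, g t * g (t + u) ≤
      X * ((((m ^ 2 + e) * (1 + e) + e) / m ^ 2) * w + (b + (m ^ 2 + e) * C2) / m ^ 2) := by
    intro w hw
    simp_rw [hcor]
    rw [intervalIntegral.integral_div, div_le_iff₀ hm2]
    have h2 := prim_gen (C := fun h => cp z q n N k y η e' c W δ X h) (B := fun h => B2 k δ h) (X := X)
      (b := b) (m2 := m ^ 2) (C2 := C2) (D := δ ^ (-(k ^ 2))) (e := e) (cp_cont hz hq hk0 hη.le h0 h1)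
      (B2_cont h0) hX0 he0 hb0 hm2.le hC2 E1' E2
      (fun x hx => E3 δ h0 hδ x hx) hw.1 (hw.2.trans hHs)
    refine h2.trans (le_of_eq ?_)
    field_simp
  have hmean : (1 - e / m) * X ≤ ∫ t in (0:ℝ)..X, g t := by
    rw [hg]
    simp only
    rw [intervalIntegral.integral_div, le_div_iff₀ hm0]
    calc (1 - e / m) * X * m = (m - e) * X := by field_simp
      _ ≤ _ := E4
  have hdev := dev_le (f := g) (M := M) (X := X) (H := H) (a := ((m ^ 2 + e) * (1 + e) + e) / m ^ 2)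
    (b := (b + (m ^ 2 + e) * C2) / m ^ 2) (e := e / m) hgc hg0 hgM hX0 hH0 hprim hmean
  refine ⟨?_, ?_⟩
  · unfold Av
    refine hdev.trans ?_
    have hbH : b / H ≤ e := by
      have h2 : b / H = 4 * C1 * Real.exp (-(2 * k * (x - (y + η + e')) * sg δ)) := by
        rw [hbd, hH]
        unfold Hx
        have h3 := Real.rpow_pos_of_pos h0 (1 - k ^ 2)
        rw [← mul_assoc, ← mul_div_assoc', mul_div_mul_left _ _ h3.ne', ← Real.exp_sub]
        congr 2
        ring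
      rw [h2]
      have h3 : (0 * Real.log (1 / δ) + 4 * C1) * Real.exp (-(2 * k * (x - (y + η + e')) * sg δ)) ≤ e := s1
      linarith
    have hC2H : 2 * C2 / H ≤ e := by
      rw [div_le_iff₀ he0] at hHl
      rw [div_le_iff₀ hH0]
      linarith
    -- the terms, multiplied by `m²`
    have hm21 : m ^ 2 ≤ 1 := pow_le_one₀ hm0.le hm1
    have t1 : ((m ^ 2 + e) * (1 + e) + e) / m ^ 2 ≤ 1 + ε / 5 := by
      rw [div_le_iff₀ hm2]
      have q1 : m ^ 2 * e ≤ 1 * e := mul_le_mul_of_nonneg_right hm21 he0.le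
      have q2 : e * e ≤ 1 * e := mul_le_mul_of_nonneg_right he1 he0.le
      nlinarith
    have t2 : 2 * ((b + (m ^ 2 + e) * C2) / m ^ 2) / H ≤ ε / 5 := by
      have h2 : 2 * ((b + (m ^ 2 + e) * C2) / m ^ 2) / H = (2 * (b / H) + (m ^ 2 + e) * (2 * C2 / H)) / m ^ 2 := by
        field_simp
      rw [h2, div_le_iff₀ hm2]
      have h3 : (m ^ 2 + e) * (2 * C2 / H) ≤ 2 * e := by
        have h4 : 0 ≤ 2 * C2 / H := by positivity
        exact mul_le_mul (by linarith) hC2H h4 (by norm_num)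
      linarith
    have t3 : H * M ^ 2 / X ≤ ε / 5 := by
      rw [div_le_iff₀ hX0, hMd, div_pow, mul_div_assoc', div_le_iff₀ hm2]
      have h2 : H * (2 * δ ^ (-W)) ^ 2 ≤ 4 * δ ^ (-(k ^ 2 + 2 * W)) := by
        calc H * (2 * δ ^ (-W)) ^ 2 ≤ δ ^ (-(k ^ 2)) * (2 * δ ^ (-W)) ^ 2 := mul_le_mul_of_nonneg_right hHs (sq_nonneg _)
          _ = 4 * (δ ^ (-(k ^ 2)) * (δ ^ (-W) * δ ^ (-W))) := by ring
          _ = 4 * δ ^ (-(k ^ 2 + 2 * W)) := by
              rw [← Real.rpow_add h0, ← Real.rpow_add h0]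
              congr 2
              ring
      have h3 : e * X ≤ ε * m ^ 2 / 20 * X := mul_le_mul_of_nonneg_right he2 hX0.le
      linarith
    have t4 : 2 * (e / m) ≤ ε / 5 := by
      rw [← mul_div_assoc, div_le_iff₀ hm0]
      have : 0 ≤ ε * m := by positivity
      linarith
    have t5 : 2 * H * M / X ≤ ε / 5 := by
      rw [div_le_iff₀ hX0, hMd, mul_div_assoc', div_le_iff₀ hm0]
      have h2 : H * δ ^ (-W) ≤ δ ^ (-(k ^ 2 + W)) := by
        calc H * δ ^ (-W) ≤ δ ^ (-(k ^ 2)) * δ ^ (-W) := mul_le_mul_of_nonneg_right hHs (Real.rpow_nonneg h0.le _)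
          _ = δ ^ (-(k ^ 2 + W)) := by
              rw [← Real.rpow_add h0]
              congr 1
              ring
      have h3 : e * X ≤ ε * m / 20 * X := mul_le_mul_of_nonneg_right he4 hX0.le
      linarith
    calc X * (((m ^ 2 + e) * (1 + e) + e) / m ^ 2 + 2 * ((b + (m ^ 2 + e) * C2) / m ^ 2) / H + H * M ^ 2 / X - 1 +
        2 * (e / m) + 2 * H * M / X) ≤ X * (5 * (ε / 5)) := by
          refine mul_le_mul_of_nonneg_left ?_ hX0.le
          linarith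
      _ = ε * X := by ring
  · refine (diff_le (n := n) (N := N) (y := y) (e := e') (c := c) (W := W) hz hq hk0 hη.le h0 h1 hX0.le).trans ?_
    have h2 := (abs_le.1 M1).2
    have h3 : (m - ε / 4) * X ≤ ∫ t in (0:ℝ)..X, gg n N k y η e' c W δ t := M2
    linarith

/-- windows at one level, with the density -/
lemma lvlP (hM : S_MNB) (hLaw : S_LAW) (z : ℂ) (hz : ‖z‖ ≤ 1) (q : ℤ) (hq : q ≠ 0) (k D : ℝ) (hk : 1 < k)
    (y η τ ε : ℝ) (hη : 0 < η) (hτ : 0 < τ)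
    (hτ1 : τ ≤ 1) (hε : 0 < ε) : Ev fun X δ =>
    volume {t : ℝ | 0 ≤ t ∧ t ≤ X ∧ ∃ H : ℝ, Hx k (y + 4 * η) δ ≤ H ∧ H ≤ δ ^ (-D) ∧
      τ ≤ |(1 / H) * (∫ u in t..(t + H), Zp z q k y η δ u) - mm y η|} ≤ ENNReal.ofReal (ε * X) := by
  have hk0 : 0 < k := by linarith
  obtain ⟨n, c, hn, hc, hck, Hw⟩ := winP hM hLaw z hz q hq k hk
  set W : ℝ := k ^ 2 + 1 with hW
  have hW0 : 0 < W := by positivity
  set m : ℝ := mm y η with hm
  have hm0 : 0 < m := mm_pos hη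
  have hm1 : m ≤ 1 := mm_le y η
  set s : ℝ := min (τ * ε / 192) (ε / 8) with hs
  have hs0 : 0 < s := lt_min (by positivity) (by positivity)
  set e1 : ℝ := min (s ^ 2) (τ * ε / 384) with he1
  have he10 : 0 < e1 := lt_min (by positivity) (by positivity)
  have he11 : e1 ≤ s ^ 2 := min_le_left _ _
  have he12 : e1 ≤ τ * ε / 384 := min_le_right _ _
  have hb : 0 < 2 * k * η := by positivity
  refine (((((Hw y η η (y + 3 * η) W hη hη (by linarith) le_rfl hm0 e1 he10).up.and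
    (Ev.win (D := k ^ 2) (c := 1 / 2) (e := 1) (by norm_num) one_pos)).and
    ((Hx_small k (y + 3 * η)).and (Ev.win (D := D) (c := 1 / 2) (e := 1) (by norm_num) one_pos))).and
    (of_L (exp_small 0 16 (2 * k * η) τ hb hτ))).and (FP_chi k y η W hk0 hη le_rfl)).mono ?_
  rintro X δ hX1 h0 h1 ⟨⟨⟨⟨Hw, w1⟩, hs1, w2⟩, s1⟩, hFP⟩
  rw [Real.rpow_one] at w1 w2
  have hX0 : 0 < X := by linarith
  obtain ⟨E1, E2⟩ := Hw (2 * X) (by linarith)
  set N : ℕ := NS δ with hN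
  set f : ℝ → ℝ := gp z q n N k y η η c W δ with hf
  have hfc : Continuous f := gp_cont hz hq hk0 hη.le h0 h1
  have hf0 : ∀ u, 0 ≤ f u := fun u => gp_nn hz hq h0 u
  set F : ℝ → ℝ := fun u => Fp z q k y η W δ u with hF
  have hFc : Continuous F := Fp_cont hz hq hk0 hη.le h0 h1
  have hfF : ∀ u, f u ≤ F u := fun u => gp_le_Fp hz hq h0 u
  have hgc : Continuous fun u => f u / m := hfc.div_const m
  have hE1 : ∫ t in (0:ℝ)..(2 * X), |Av (Hx k (y + 3 * η) δ) (fun u => f u / m) t - 1| ≤ s * (2 * X) :=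
    mean_of_sq (g := fun t => Av (Hx k (y + 3 * η) δ) (fun u => f u / m) t - 1)
      ((Av_cont hgc).sub continuous_const) hs0 (by linarith)
      (E1.trans (mul_le_mul_of_nonneg_right he11 (by linarith)))
  have hE2 : ∫ t in (0:ℝ)..(2 * X), (F t - f t) ≤ (2 * e1) * (2 * X) := by
    have h2 : 0 ≤ e1 * (2 * X) := by positivity
    have h3 : ∫ t in (0:ℝ)..(2 * X), (F t - f t) ≤ e1 * (2 * X) := E2
    linarith
  have hmain := asm (f := f) (F := F) (Z := fun u => Zp z q k y η δ u) (X := X) (l := Hx k (y + 3 * η) δ)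
    (m := m) (s := s) (τ := τ)
    (ε := ε) (q := 2 * e1) (Hlo := Hx k (y + 4 * η) δ) (Hhi := δ ^ (-D)) (B := ∅) hfc hFc hf0 hfF hX0
    (Hx_pos h0) (hs1.trans (by linarith)) hm0 hm1 hτ hτ1 hε (min_le_left _ _) (min_le_right _ _) hE1 hE2
    (by positivity) (Hx_pos h0) (by
      rw [Hx_ratio (k := k) (x := y + 4 * η) (x' := y + 3 * η)]
      have h2 : (0 * Real.log (1 / δ) + 16) * Real.exp (-(2 * k * η * sg δ)) ≤ τ := s1
      have h3 : 2 * k * (y + 3 * η - (y + 4 * η)) * sg δ = -(2 * k * η * sg δ) := by ring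
      rw [h3]
      have h4 : 0 < Hx k (y + 4 * η) δ := Hx_pos h0
      nlinarith) (w2.trans (by linarith)) (by
      intro t t0 t1 htB u hu
      show Zp z q k y η δ u = Fp z q k y η W δ u
      unfold Zp Fp
      rw [(hFP u).2])
  have hsub : {t : ℝ | 0 ≤ t ∧ t ≤ X ∧ ∃ H : ℝ, Hx k (y + 4 * η) δ ≤ H ∧ H ≤ δ ^ (-D) ∧
      τ ≤ |(1 / H) * (∫ u in t..(t + H), Zp z q k y η δ u) - m|} ⊆
      {t : ℝ | 0 ≤ t ∧ t ≤ X ∧ ∃ H : ℝ, Hx k (y + 4 * η) δ ≤ H ∧ H ≤ δ ^ (-D) ∧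
      τ / 2 ≤ |(1 / H) * (∫ u in t..(t + H), Zp z q k y η δ u) - m|} := by
    rintro t ⟨t0, t1, H, hH1, hH2, hH3⟩
    exact ⟨t0, t1, H, hH1, hH2, by linarith⟩
  refine (measure_mono hsub).trans (hmain.trans ?_)
  rw [measure_empty, add_zero]
  refine ENNReal.ofReal_le_ofReal (mul_le_mul_of_nonneg_right ?_ hX0.le)
  have h5 : 48 * (2 * e1) / τ ≤ ε / 2 := by
    rw [div_le_iff₀ hτ]
    nlinarith
  linarith

/-- the phase and the densities -/
lemma ph_dec {δ u : ℝ} (q : ℤ) (w : ℝ) :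
    ((w : ℝ) : ℂ) * ph q δ u = ((w * pc 1 q δ u - w : ℝ) : ℂ) + ((w * pc (-I) q δ u - w : ℝ) : ℂ) * I := by
  have h1 : pc 1 q δ u = 1 + (ph q δ u).re := by
    unfold pc
    rw [one_mul]
  have h2 : pc (-I) q δ u = 1 + (ph q δ u).im := by
    unfold pc
    rw [Complex.mul_re]
    simp
  rw [h1, h2]
  apply Complex.ext <;> simp <;> ring

/-- the average of the phases in the windows -/
noncomputable def Cn (q : ℤ) (k y η δ t H : ℝ) : ℂ :=
  (1 / (H:ℂ)) * (∫ u in t..(t + H), ((Zk k δ u * chi k y η δ u : ℝ) : ℂ) * ph q δ u)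

lemma Cn_eq {q : ℤ} (hq : q ≠ 0) {k y η δ t H : ℝ} (hk : 0 < k) (hη : 0 ≤ η) (h0 : 0 < δ) (h1 : δ ≤ 1 / 16) :
    Cn q k y η δ t H =
      (((1 / H) * (∫ u in t..(t + H), Zp 1 q k y η δ u) - (1 / H) * (∫ u in t..(t + H), Zk k δ u * chi k y η δ u) : ℝ) : ℂ) +
      (((1 / H) * (∫ u in t..(t + H), Zp (-I) q k y η δ u) - (1 / H) * (∫ u in t..(t + H), Zk k δ u * chi k y η δ u) : ℝ) :
        ℂ) * I := by
  have hc0 : Continuous fun u => Zk k δ u * chi k y η δ u := (Zk_cont hk.le h1).mul (chi_cont hη h1)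
  have hc1 : Continuous fun u => Zp 1 q k y η δ u := Zp_cont (by simp) hq hk hη h0 h1
  have hc2 : Continuous fun u => Zp (-I) q k y η δ u := Zp_cont (by simp) hq hk hη h0 h1
  unfold Cn
  have e1 : ∫ u in t..(t + H), ((Zk k δ u * chi k y η δ u : ℝ) : ℂ) * ph q δ u =
      ∫ u in t..(t + H), (((Zp 1 q k y η δ u - Zk k δ u * chi k y η δ u : ℝ) : ℂ) +
        ((Zp (-I) q k y η δ u - Zk k δ u * chi k y η δ u : ℝ) : ℂ) * I) := by
    refine intervalIntegral.integral_congr fun u _ => ?_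
    exact ph_dec q (Zk k δ u * chi k y η δ u)
  have hc3 : Continuous fun u => ((Zp 1 q k y η δ u - Zk k δ u * chi k y η δ u : ℝ) : ℂ) :=
    Complex.continuous_ofReal.comp (hc1.sub hc0)
  have hc4 : Continuous fun u => ((Zp (-I) q k y η δ u - Zk k δ u * chi k y η δ u : ℝ) : ℂ) * I :=
    (Complex.continuous_ofReal.comp (hc2.sub hc0)).mul continuous_const
  rw [e1, intervalIntegral.integral_add (hc3.intervalIntegrable _ _) (hc4.intervalIntegrable _ _),
    intervalIntegral.integral_mul_const, intervalIntegral.integral_ofReal, intervalIntegral.integral_ofReal,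
    intervalIntegral.integral_sub (hc1.intervalIntegrable _ _) (hc0.intervalIntegrable _ _),
    intervalIntegral.integral_sub (hc2.intervalIntegrable _ _) (hc0.intervalIntegrable _ _)]
  push_cast
  ring

/-- the phases in the windows at one level -/
lemma lvl_ph (hM : S_MNB) (hLaw : S_LAW) (q : ℤ) (hq : q ≠ 0) (k D : ℝ) (hk : 1 < k)
    (y η τ ε : ℝ) (hη : 0 < η) (hτ : 0 < τ) (hτ1 : τ ≤ 1) (hε : 0 < ε) : Ev fun X δ =>
    volume {t : ℝ | 0 ≤ t ∧ t ≤ X ∧ ∃ H : ℝ, Hx k (y + 4 * η) δ ≤ H ∧ H ≤ δ ^ (-D) ∧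
      τ ≤ ‖Cn q k y η δ t H‖} ≤ ENNReal.ofReal (ε * X) := by
  have hk0 : 0 < k := by linarith
  refine (((Run7.h701.LW.lvl hM hLaw k D hk y η (τ / 8) (ε / 3) hη (by positivity) (by linarith) (by positivity)).and
    (lvlP hM hLaw 1 (by simp) q hq k D hk y η (τ / 8) (ε / 3) hη (by positivity) (by linarith) (by positivity))).and
    (lvlP hM hLaw (-I) (by simp) q hq k D hk y η (τ / 8) (ε / 3) hη (by positivity) (by linarith) (by positivity))).mono ?_
  rintro X δ hX1 h0 h1 ⟨⟨E0, E1⟩, E2⟩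
  have hX0 : 0 < X := by linarith
  have hsub : {t : ℝ | 0 ≤ t ∧ t ≤ X ∧ ∃ H : ℝ, Hx k (y + 4 * η) δ ≤ H ∧ H ≤ δ ^ (-D) ∧
      τ ≤ ‖Cn q k y η δ t H‖} ⊆
      ({t : ℝ | 0 ≤ t ∧ t ≤ X ∧ ∃ H : ℝ, Hx k (y + 4 * η) δ ≤ H ∧ H ≤ δ ^ (-D) ∧
        τ / 8 ≤ |(1 / H) * (∫ u in t..(t + H), Zk k δ u * chi k y η δ u) - mm y η|} ∪
      {t : ℝ | 0 ≤ t ∧ t ≤ X ∧ ∃ H : ℝ, Hx k (y + 4 * η) δ ≤ H ∧ H ≤ δ ^ (-D) ∧
        τ / 8 ≤ |(1 / H) * (∫ u in t..(t + H), Zp 1 q k y η δ u) - mm y η|}) ∪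
      {t : ℝ | 0 ≤ t ∧ t ≤ X ∧ ∃ H : ℝ, Hx k (y + 4 * η) δ ≤ H ∧ H ≤ δ ^ (-D) ∧
        τ / 8 ≤ |(1 / H) * (∫ u in t..(t + H), Zp (-I) q k y η δ u) - mm y η|} := by
    rintro t ⟨t0, t1, H, hH1, hH2, hH3⟩
    by_contra hcon
    simp only [Set.mem_union, not_or] at hcon
    obtain ⟨⟨c0, c1⟩, c2⟩ := hcon
    have d0 : |(1 / H) * (∫ u in t..(t + H), Zk k δ u * chi k y η δ u) - mm y η| < τ / 8 := by
      by_contra h
      exact c0 ⟨t0, t1, H, hH1, hH2, not_lt.1 h⟩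
    have d1 : |(1 / H) * (∫ u in t..(t + H), Zp 1 q k y η δ u) - mm y η| < τ / 8 := by
      by_contra h
      exact c1 ⟨t0, t1, H, hH1, hH2, not_lt.1 h⟩
    have d2 : |(1 / H) * (∫ u in t..(t + H), Zp (-I) q k y η δ u) - mm y η| < τ / 8 := by
      by_contra h
      exact c2 ⟨t0, t1, H, hH1, hH2, not_lt.1 h⟩
    rw [Cn_eq hq hk0 hη.le h0 h1] at hH3
    have g1 := norm_add_le
      (((1 / H) * (∫ u in t..(t + H), Zp 1 q k y η δ u) - (1 / H) * (∫ u in t..(t + H), Zk k δ u * chi k y η δ u) : ℝ) : ℂ)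
      ((((1 / H) * (∫ u in t..(t + H), Zp (-I) q k y η δ u) - (1 / H) * (∫ u in t..(t + H), Zk k δ u * chi k y η δ u) : ℝ) :
        ℂ) * I)
    rw [norm_mul, Complex.norm_I, mul_one, Complex.norm_real, Complex.norm_real, Real.norm_eq_abs, Real.norm_eq_abs] at g1
    have d0' := abs_lt.1 d0
    have d1' := abs_lt.1 d1
    have d2' := abs_lt.1 d2
    have g2 : |(1 / H) * (∫ u in t..(t + H), Zp 1 q k y η δ u) - (1 / H) * (∫ u in t..(t + H), Zk k δ u * chi k y η δ u)| ≤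
        τ / 4 := by
      rw [abs_le]
      constructor <;> linarith [d0'.1, d0'.2, d1'.1, d1'.2]
    have g3 : |(1 / H) * (∫ u in t..(t + H), Zp (-I) q k y η δ u) -
        (1 / H) * (∫ u in t..(t + H), Zk k δ u * chi k y η δ u)| ≤ τ / 4 := by
      rw [abs_le]
      constructor <;> linarith [d0'.1, d0'.2, d2'.1, d2'.2]
    linarith
  refine (measure_mono hsub).trans ((measure_union_le _ _).trans
    ((add_le_add ((measure_union_le _ _).trans (add_le_add E0 E1)) E2).trans (le_of_eq ?_)))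
  rw [← ENNReal.ofReal_add (by positivity) (by positivity), ← ENNReal.ofReal_add (by positivity) (by positivity)]
  congr 1
  ring

end Run7.h701.PH
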