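import Mathlib

set_option autoImplicit false

/-! Trigonometric approximation on the circle -/

namespace Run7.h701.PH

open Finset Filter MeasureTheory Topology Complex

/-- the mean over the circle -/
noncomputable def mean (g : ℂ → ℂ) : ℂ := (1 / (2 * (Real.pi : ℂ))) * ∫ θ in (0:ℝ)..(2 * Real.pi), g (cexp (θ * I))

lemma int_pow (n : ℤ) (hn : n ≠ 0) : ∫ θ in (0:ℝ)..(2 * Real.pi), (cexp ((θ:ℂ) * I)) ^ n = 0 := by
  have h1 : ∀ θ : ℝ, (cexp ((θ:ℂ) * I)) ^ n = cexp (((n:ℂ) * I) * θ) := by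
    intro θ
    rw [← Complex.exp_int_mul]
    congr 1
    ring
  simp_rw [h1]
  have h2 : (n:ℂ) * I ≠ 0 := mul_ne_zero (by exact_mod_cast hn) I_ne_zero
  rw [integral_exp_mul_complex h2]
  have h3 : cexp ((n:ℂ) * I * ((2 * Real.pi : ℝ) : ℂ)) = 1 := by
    have h4 : (n:ℂ) * I * ((2 * Real.pi : ℝ) : ℂ) = n * (2 * Real.pi * I) := by
      push_cast
      ring
    rw [h4]
    exact Complex.exp_int_mul_two_pi_mul_I n
  rw [h3]
  simp

lemma trig (g : ℂ → ℂ) (hg : Continuous g) (ε : ℝ) (hε : 0 < ε) : ∃ (S : Finset ℤ) (c : ℤ → ℂ), 0 ∉ S ∧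
    ∀ w : ℂ, ‖w‖ = 1 → ‖g w - (mean g + ∑ q ∈ S, c q * w ^ q)‖ ≤ ε := by
  classical
  have : Fact (0 < 2 * Real.pi) := ⟨by positivity⟩
  have hcc : Continuous fun z : Circle => (z : ℂ) := by fun_prop
  set G : C(AddCircle (2 * Real.pi), ℂ) :=
    ⟨fun x => g ((AddCircle.toCircle x : Circle) : ℂ),
      hg.comp (hcc.comp AddCircle.continuous_toCircle)⟩ with hG
  have h1 : G ∈ closure ((Submodule.span ℂ (Set.range (fourier (T := 2 * Real.pi))) :
      Submodule ℂ C(AddCircle (2 * Real.pi), ℂ)) : Set C(AddCircle (2 * Real.pi), ℂ)) := by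
    have h2 : G ∈ (Submodule.span ℂ (Set.range (fourier (T := 2 * Real.pi)))).topologicalClosure := by
      rw [span_fourier_closure_eq_top]
      trivial
    exact h2
  obtain ⟨f, hf, hfd⟩ := Metric.mem_closure_iff.1 h1 (ε / 2) (by positivity)
  obtain ⟨a, ha⟩ := Finsupp.mem_span_range_iff_exists_finsupp.1 hf
  have hval : ∀ θ : ℝ, ‖g (cexp (θ * I)) - ∑ q ∈ a.support, a q * (cexp (θ * I)) ^ q‖ ≤ ε / 2 := by
    intro θ
    have e1 : G (θ : AddCircle (2 * Real.pi)) = g (cexp (θ * I)) := by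
      show g ((AddCircle.toCircle (θ : AddCircle (2 * Real.pi)) : Circle) : ℂ) = _
      rw [AddCircle.toCircle_apply_mk, Circle.coe_exp]
      congr 2
      have : (2 * Real.pi / (2 * Real.pi) * θ) = θ := by
        field_simp
      rw [this]
    have e2 : f (θ : AddCircle (2 * Real.pi)) = ∑ q ∈ a.support, a q * (cexp (θ * I)) ^ q := by
      rw [← ha, Finsupp.sum, ContinuousMap.coe_sum, Finset.sum_apply]
      refine Finset.sum_congr rfl fun q _ => ?_
      rw [ContinuousMap.coe_smul, Pi.smul_apply, smul_eq_mul, fourier_coe_apply, ← Complex.exp_int_mul]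
      congr 2
      push_cast
      have hpi : (Real.pi : ℂ) ≠ 0 := by exact_mod_cast Real.pi_ne_zero
      field_simp
    rw [← e1, ← e2, ← dist_eq_norm]
    exact (ContinuousMap.dist_apply_le_dist _).trans hfd.le
  have hint : ∫ θ in (0:ℝ)..(2 * Real.pi), ∑ q ∈ a.support, a q * (cexp (θ * I)) ^ q = 2 * Real.pi * a 0 := by
    have hcq : ∀ q : ℤ, Continuous fun θ : ℝ => (cexp ((θ:ℂ) * I)) ^ q := by
      intro q
      refine Continuous.zpow₀ (by fun_prop) q fun θ => Or.inl (Complex.exp_ne_zero _)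
    have hcq' : ∀ q : ℤ, Continuous fun θ : ℝ => a q * (cexp ((θ:ℂ) * I)) ^ q := fun q => continuous_const.mul (hcq q)
    rw [intervalIntegral.integral_finsetSum fun q _ => (hcq' q).intervalIntegrable _ _]
    have h2 : ∀ q ∈ a.support, ∫ θ in (0:ℝ)..(2 * Real.pi), a q * (cexp ((θ:ℂ) * I)) ^ q =
        if q = 0 then 2 * Real.pi * a 0 else 0 := by
      intro q _
      rw [intervalIntegral.integral_const_mul]
      split_ifs with h
      · rw [h]
        simp only [zpow_zero, intervalIntegral.integral_const, sub_zero, Complex.real_smul, mul_one]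
        push_cast
        ring
      · rw [int_pow q h, mul_zero]
    rw [Finset.sum_congr rfl h2, Finset.sum_ite_eq']
    split_ifs with h
    · rfl
    · rw [Finsupp.notMem_support_iff.1 h, mul_zero]
  have hmean : ‖a 0 - mean g‖ ≤ ε / 2 := by
    have hpi : (Real.pi : ℂ) ≠ 0 := by exact_mod_cast Real.pi_ne_zero
    have hcg : Continuous fun θ : ℝ => g (cexp ((θ:ℂ) * I)) := hg.comp (by fun_prop)
    have hcs : Continuous fun θ : ℝ => ∑ q ∈ a.support, a q * (cexp ((θ:ℂ) * I)) ^ q := by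
      refine continuous_finsetSum _ fun q _ => continuous_const.mul ?_
      exact Continuous.zpow₀ (by fun_prop) q fun θ => Or.inl (Complex.exp_ne_zero _)
    have e1 : mean g - a 0 = (1 / (2 * (Real.pi : ℂ))) * ∫ θ in (0:ℝ)..(2 * Real.pi),
        (g (cexp (θ * I)) - ∑ q ∈ a.support, a q * (cexp (θ * I)) ^ q) := by
      rw [intervalIntegral.integral_sub (hcg.intervalIntegrable _ _) (hcs.intervalIntegrable _ _), hint, mul_sub]
      unfold mean
      congr 1
      field_simp
    have e2 : ‖∫ θ in (0:ℝ)..(2 * Real.pi), (g (cexp (θ * I)) - ∑ q ∈ a.support, a q * (cexp (θ * I)) ^ q)‖ ≤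
        ε / 2 * |2 * Real.pi - 0| :=
      intervalIntegral.norm_integral_le_of_norm_le_const fun θ _ => hval θ
    rw [norm_sub_rev, e1, norm_mul, norm_div, norm_one, norm_mul, Complex.norm_real, Real.norm_of_nonneg Real.pi_pos.le]
    have e3 : ‖(2:ℂ)‖ = 2 := by simp
    rw [e3]
    rw [sub_zero, abs_of_pos (by positivity)] at e2
    calc 1 / (2 * Real.pi) * _ ≤ 1 / (2 * Real.pi) * (ε / 2 * (2 * Real.pi)) :=
          mul_le_mul_of_nonneg_left e2 (by positivity)
      _ = ε / 2 := by field_simp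
  refine ⟨a.support.erase 0, fun q => a q, Finset.notMem_erase _ _, fun w hw => ?_⟩
  have h2 : w = cexp ((w.arg : ℝ) * I) := by
    have := Complex.norm_mul_exp_arg_mul_I w
    rw [hw, Complex.ofReal_one, one_mul] at this
    exact this.symm
  have h3 := hval w.arg
  rw [← h2] at h3
  have h4 : ∑ q ∈ a.support, a q * w ^ q = a 0 + ∑ q ∈ a.support.erase 0, a q * w ^ q := by
    by_cases h : (0:ℤ) ∈ a.support
    · rw [← Finset.add_sum_erase _ _ h, zpow_zero, mul_one]
    · rw [Finset.erase_eq_of_notMem h, Finsupp.notMem_support_iff.1 h, zero_add]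
  rw [h4] at h3
  have h5 : g w - (mean g + ∑ q ∈ a.support.erase 0, a q * w ^ q) =
      (g w - (a 0 + ∑ q ∈ a.support.erase 0, a q * w ^ q)) + (a 0 - mean g) := by ring
  rw [h5]
  refine (norm_add_le _ _).trans ?_
  linarith

end Run7.h701.PH
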