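import Pool.Agent.Run7.h701.PH.E
import Pool.Agent.Run7.h701.PH.Tr

set_option autoImplicit false

/-! The phase of zeta in the moment measures of windows: all levels -/

namespace Run7.h701.PH

open Finset Filter MeasureTheory Topology Complex
open Pool.Agent.N748.MG hiding Phi
open Pool.Agent.N748.MJ Run7.h291.WN Run7.h291.WC Run7.h701.LW

/-- the phase below the level -/
noncomputable def Jn (q : ℤ) (k y δ t H : ℝ) : ℂ :=
  (1 / (H:ℂ)) * (∫ u in t..(t + H), ((Zy k y δ u : ℝ) : ℂ) * ph q δ u)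

lemma Zy_meas {k y δ : ℝ} (hk : 0 ≤ k) (h1 : δ ≤ 1 / 16) : Measurable fun u => Zy k y δ u := by
  have hm : MeasurableSet {v : ℝ | mz δ v ≤ Real.exp (Vl k y δ)} :=
    (isClosed_le (TMA.cont h1) continuous_const).measurableSet
  exact (Zk_cont hk h1).measurable.indicator hm

lemma wph_int {w : ℝ → ℝ} {a b : ℝ} (hw : IntervalIntegrable w volume a b) {q : ℤ} (hq : q ≠ 0) {δ : ℝ} (h0 : 0 < δ)
    (h1 : δ ≤ 1 / 16) : IntervalIntegrable (fun u => ((w u : ℝ) : ℂ) * ph q δ u) volume a b := by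
  have hm : ∀ μ : Measure ℝ, AEStronglyMeasurable (fun u => ph q δ u) μ := fun μ =>
    (ph_meas q h0 h1).aestronglyMeasurable
  have hb : ∀ μ : Measure ℝ, ∀ᵐ u ∂μ, ‖ph q δ u‖ ≤ 1 := fun μ => Eventually.of_forall fun u => ph_le hq δ u
  exact ⟨Integrable.mul_bdd (hw.1.ofReal) (hm _) (hb _), Integrable.mul_bdd (hw.2.ofReal) (hm _) (hb _)⟩

lemma norm_win {w : ℝ → ℝ} {t H : ℝ} (hH : 0 < H) (hw : IntervalIntegrable w volume t (t + H)) (hw0 : ∀ u, 0 ≤ w u)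
    {q : ℤ} (hq : q ≠ 0) {δ : ℝ} :
    ‖(1 / (H:ℂ)) * (∫ u in t..(t + H), ((w u : ℝ) : ℂ) * ph q δ u)‖ ≤ (1 / H) * ∫ u in t..(t + H), w u := by
  rw [norm_mul, norm_div, norm_one, Complex.norm_real, Real.norm_of_nonneg hH.le]
  refine mul_le_mul_of_nonneg_left ?_ (by positivity)
  refine intervalIntegral.norm_integral_le_of_norm_le (by linarith) ?_ hw
  refine Eventually.of_forall fun u _ => ?_
  rw [norm_mul, Complex.norm_real, Real.norm_of_nonneg (hw0 u)]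
  exact mul_le_of_le_one_right (hw0 u) (ph_le hq δ u)

lemma Jn_le {q : ℤ} (hq : q ≠ 0) {k y δ t H : ℝ} (hk : 0 ≤ k) (h0 : 0 ≤ δ) (h1 : δ ≤ 1 / 16) (hH : 0 < H) :
    ‖Jn q k y δ t H‖ ≤ Jw k y δ t H :=
  norm_win hH (Zy_int hk h1 _ _) (fun u => Zy_nn h0 u) hq

lemma Jn_sub {q : ℤ} (hq : q ≠ 0) {k y y' η δ t H : ℝ} (hk : 0 ≤ k) (hη : 0 < η) (h0 : 0 < δ) (h1 : δ ≤ 1 / 16)
    (hH : 0 < H) (hy : y' + η ≤ y) :
    ‖Jn q k y δ t H‖ ≤ ‖Cn q k y' η δ t H‖ + (Jw k y δ t H - Jw k y' δ t H) := by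
  have hi1 : IntervalIntegrable (Zy k y δ) volume t (t + H) := Zy_int hk h1 _ _
  have hi2 : IntervalIntegrable (fun u => Zk k δ u * chi k y' η δ u) volume t (t + H) := Zchi_int hk hη.le h1 _ _
  have hle : ∀ u, 0 ≤ Zy k y δ u - Zk k δ u * chi k y' η δ u := fun u => by
    have g1 := chi_le_Zy (k := k) (y := y') hη h0 h1 u
    have g2 := Zy_mono (k := k) h0.le hy u
    linarith
  have e1 : Jn q k y δ t H = Cn q k y' η δ t H +
      (1 / (H:ℂ)) * (∫ u in t..(t + H), ((Zy k y δ u - Zk k δ u * chi k y' η δ u : ℝ) : ℂ) * ph q δ u) := by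
    unfold Jn Cn
    rw [← mul_add, ← intervalIntegral.integral_add (wph_int hi2 hq h0 h1) (wph_int (hi1.sub hi2) hq h0 h1)]
    congr 1
    refine intervalIntegral.integral_congr fun u _ => ?_
    push_cast
    ring
  rw [e1]
  refine (norm_add_le _ _).trans (add_le_add le_rfl ?_)
  refine (norm_win hH (hi1.sub hi2) hle hq).trans ?_
  rw [intervalIntegral.integral_sub hi1 hi2]
  have h3 := Jw_le_Cw (k := k) (y := y') (η := η) (δ := δ) (t := t) (H := H) hk hη.le h0.le h1 hH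
  unfold Cw at h3
  unfold Jw at h3 ⊢
  rw [mul_sub]
  linarith

/-- from a grid of levels to all levels, for the phases -/
lemma lev_n {I : ℝ → ℝ} {c : ℕ → ℝ} {N x A η e τ y : ℝ} {J : ℕ} (hη : 0 < η) (he : 0 < e) (hτ : 0 ≤ τ)
    (hN0 : N ≤ I y) (hN1 : ∀ j : ℕ, -A + j * η + η ≤ y → N ≤ c j + (I y - I (-A + j * η)))
    (hc : ∀ j : ℕ, j ≤ J → -A + j * η + 4 * η ≤ x → c j < τ) (hJ : A ≤ -A + J * η)
    (hI : ∀ v, v ≤ y → |I v - Phi (min v x)| ≤ e)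
    (hA1 : Phi (-A + 4 * η) ≤ e) (hA2 : 1 - e ≤ Phi A) : N ≤ τ + 5 * η + 3 * e := by
  have hIy := abs_le.1 (hI y le_rfl)
  set w : ℝ := min (y - η) (x - 4 * η) with hw
  have hwy : w ≤ y - η := min_le_left _ _
  have hwx : w ≤ x - 4 * η := min_le_right _ _
  have hmw : min y x ≤ w + 4 * η := by
    rcases min_choice (y - η) (x - 4 * η) with h | h
    · have : y ≤ w + 4 * η := by
        rw [hw, h]
        linarith
      exact (min_le_left _ _).trans this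
    · have : x ≤ w + 4 * η := by
        rw [hw, h]
        linarith
      exact (min_le_right _ _).trans this
  rcases lt_or_ge w (-A) with hc1 | hc1
  · have g1 := Phi_mono (show min y x ≤ -A + 4 * η by linarith)
    linarith [hIy.2]
  · set j0 : ℕ := ⌊(w + A) / η⌋₊ with hj0
    have hq : 0 ≤ (w + A) / η := div_nonneg (by linarith) hη.le
    have hj1 : (j0:ℝ) ≤ (w + A) / η := Nat.floor_le hq
    have hj2 : (w + A) / η < j0 + 1 := Nat.lt_floor_add_one _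
    rw [le_div_iff₀ hη] at hj1
    rw [div_lt_iff₀ hη] at hj2
    rcases le_or_gt j0 J with hjJ | hjJ
    · have h1 := hc j0 hjJ (by linarith)
      have h2 := hN1 j0 (by linarith)
      have h3 := (abs_le.1 (hI (-A + j0 * η) (by linarith))).1
      rw [min_eq_left (by linarith)] at h3
      have h4 := Phi_lip (show -A + j0 * η ≤ max (min y x) (-A + j0 * η) from le_max_right _ _)
      have h5 := Phi_mono (show min y x ≤ max (min y x) (-A + j0 * η) from le_max_left _ _)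
      have h6 : max (min y x) (-A + j0 * η) ≤ w + 4 * η := max_le hmw (by linarith)
      linarith [hIy.2]
    · have hjJ' : (J:ℝ) * η ≤ j0 * η := by
        refine mul_le_mul_of_nonneg_right ?_ hη.le
        exact_mod_cast hjJ.le
      have h1 := hc J le_rfl (by linarith)
      have h2 := hN1 J (by linarith)
      have h3 := (abs_le.1 (hI (-A + J * η) (by linarith))).1
      rw [min_eq_left (by linarith)] at h3
      have h4 := Phi_mono hJ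
      have h5 := Phi_le_one (min y x)
      linarith [hIy.2]

/-- the phases, all levels of a grid, all windows -/
lemma grid_ph (hM : S_MNB) (hLaw : S_LAW) (q : ℤ) (hq : q ≠ 0) (k D : ℝ) (hk : 1 < k) (A η τ ε : ℝ) (J : ℕ) (hη : 0 < η)
    (hτ : 0 < τ) (hτ1 : τ ≤ 1) (hε : 0 < ε) : Ev fun X δ =>
    volume {t : ℝ | 0 ≤ t ∧ t ≤ X ∧ ∃ H : ℝ, 0 < H ∧ H ≤ δ ^ (-D) ∧ ∃ j : ℕ, j ≤ J ∧
      -A + j * η + 4 * η ≤ pos k δ H ∧ τ ≤ ‖Cn q k (-A + j * η) η δ t H‖} ≤ ENNReal.ofReal (ε * X) := by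
  have hk0 : 0 < k := by linarith
  have hJ0 : (0:ℝ) < (J:ℝ) + 1 := by positivity
  have hgrid := ev_fin (P := fun j X δ => volume {t : ℝ | 0 ≤ t ∧ t ≤ X ∧ ∃ H : ℝ,
      Hx k ((-A + j * η) + 4 * η) δ ≤ H ∧ H ≤ δ ^ (-D) ∧
      τ ≤ ‖Cn q k (-A + j * η) η δ t H‖} ≤
        ENNReal.ofReal (ε / (J + 1) * X)) (J + 1)
    (fun j _ => lvl_ph hM hLaw q hq k D hk (-A + j * η) η τ (ε / (J + 1)) hη hτ hτ1 (by positivity))
  refine hgrid.mono ?_
  rintro X δ hX1 h0 h1 E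
  have hX0 : 0 < X := by linarith
  have hsub : {t : ℝ | 0 ≤ t ∧ t ≤ X ∧ ∃ H : ℝ, 0 < H ∧ H ≤ δ ^ (-D) ∧ ∃ j : ℕ, j ≤ J ∧
      -A + j * η + 4 * η ≤ pos k δ H ∧ τ ≤ ‖Cn q k (-A + j * η) η δ t H‖} ⊆
      ⋃ j ∈ Finset.range (J + 1), {t : ℝ | 0 ≤ t ∧ t ≤ X ∧ ∃ H : ℝ,
      Hx k ((-A + j * η) + 4 * η) δ ≤ H ∧ H ≤ δ ^ (-D) ∧
      τ ≤ ‖Cn q k (-A + j * η) η δ t H‖} := by
    rintro t ⟨t0, t1, H, hH0, hHD, j, hj, hx, ht⟩
    refine Set.mem_biUnion (show j ∈ ((Finset.range (J + 1) : Finset ℕ) : Set ℕ) from by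
      rw [Finset.mem_coe, Finset.mem_range]
      omega) ⟨t0, t1, H, ?_, hHD, ht⟩
    have hHx : Hx k (pos k δ H) δ = H := Hx_pos_eq hk0 h0 h1 hH0
    rw [← hHx]
    exact Hx_mono hk0 h0 hx
  refine (measure_mono hsub).trans ((measure_biUnion_finset_le _ _).trans ?_)
  refine (Finset.sum_le_card_nsmul _ _ (ENNReal.ofReal (ε / (J + 1) * X)) fun j hj => E j (Finset.mem_range.1 hj)).trans ?_
  rw [Finset.card_range, ← ENNReal.ofReal_nsmul]
  refine ENNReal.ofReal_le_ofReal (le_of_eq ?_)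
  rw [nsmul_eq_mul]
  push_cast
  field_simp

/-- the choice of the grid -/
lemma grid_ex (ε : ℝ) (hε : 0 < ε) : ∃ (A η τ e : ℝ) (J : ℕ), 0 < η ∧ η ≤ ε / 56 ∧ 0 < τ ∧ τ ≤ 1 ∧ 0 < e ∧ e ≤ ε / 32 ∧
    A ≤ -A + J * η ∧ Phi (-A + 4 * η) ≤ e ∧ 1 - e ≤ Phi A ∧ τ + 5 * η + 3 * e < ε := by
  set e0 : ℝ := min ε 1 with he0
  have he00 : 0 < e0 := lt_min hε one_pos
  have he01 : e0 ≤ 1 := min_le_right _ _
  have he0ε : e0 ≤ ε := min_le_left _ _
  have hep : 0 < e0 / 32 := by positivity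
  have hηp : 0 < e0 / 56 := by positivity
  obtain ⟨A3, H3⟩ := eventually_atTop.1 ((tendsto_order.1 Phi_top).1 (1 - e0 / 32) (by linarith))
  obtain ⟨A4, H4⟩ := eventually_atBot.1 ((tendsto_order.1 Phi_bot).2 (e0 / 32) hep)
  set A : ℝ := max A3 (4 * (e0 / 56) - A4) with hA
  have hA3 : A3 ≤ A := le_max_left _ _
  have hA4 : 4 * (e0 / 56) - A4 ≤ A := le_max_right _ _
  obtain ⟨J, hJ⟩ := exists_nat_ge (2 * A / (e0 / 56))
  rw [div_le_iff₀ hηp] at hJ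
  exact ⟨A, e0 / 56, e0 / 8, e0 / 32, J, hηp, by linarith, by positivity, by linarith, hep, by linarith, by linarith,
    (H4 _ (by linarith)).le, (H3 _ hA3).le, by linarith⟩

/-- the phases, one window length, all levels -/
theorem ph_a (hM : S_MNB) (hLaw : S_LAW) (hS : S_SUPW) (q : ℤ) (hq : q ≠ 0) (k D : ℝ) (hk : 1 < k) (hD : 0 ≤ D) (ε : ℝ)
    (hε : 0 < ε) : Ev fun X δ => ∀ H : ℝ, 0 < H → H ≤ δ ^ (-D) →
    volume {t : ℝ | 0 ≤ t ∧ t ≤ X ∧ ∃ y : ℝ, ε ≤ ‖Jn q k y δ t H‖} ≤ ENNReal.ofReal (ε * X) := by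
  have hk0 : 0 < k := by linarith
  obtain ⟨A, η, τ, e, J, hηp, hηε, hτp, hτ1, hep, heε, hJ, hA1, hA2, hsum⟩ := grid_ex ε hε
  refine ((grid_ph hM hLaw q hq k D hk A η τ (ε / 2) J hηp hτp hτ1 (by positivity)).and
    (law_a hM hLaw hS k D hk hD e hep)).mono ?_
  rintro X δ hX1 h0 h1 ⟨E1, E2⟩ H hH0 hHD
  have hX0 : 0 < X := by linarith
  have hsub : {t : ℝ | 0 ≤ t ∧ t ≤ X ∧ ∃ y : ℝ, ε ≤ ‖Jn q k y δ t H‖} ⊆
      {t : ℝ | 0 ≤ t ∧ t ≤ X ∧ ∃ H : ℝ, 0 < H ∧ H ≤ δ ^ (-D) ∧ ∃ j : ℕ, j ≤ J ∧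
        -A + j * η + 4 * η ≤ pos k δ H ∧ τ ≤ ‖Cn q k (-A + j * η) η δ t H‖} ∪
      {t : ℝ | 0 ≤ t ∧ t ≤ X ∧ ∃ y : ℝ, e ≤ |Jw k y δ t H - Phi (min y (pos k δ H))|} := by
    rintro t ⟨t0, t1, y, hy⟩
    by_contra hcon
    simp only [Set.mem_union, not_or] at hcon
    obtain ⟨c1, c2⟩ := hcon
    have key := lev_n (I := fun y => Jw k y δ t H) (c := fun j => ‖Cn q k (-A + j * η) η δ t H‖)
      (N := ‖Jn q k y δ t H‖) (x := pos k δ H) (A := A) (η := η) (e := e) (τ := τ) (y := y) (J := J) hηp hep hτp.le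
      (Jn_le hq hk0.le h0.le h1 hH0) (fun j hj => Jn_sub hq hk0.le hηp h0 h1 hH0 hj)
      (fun j hj hx => by
        by_contra h
        exact c1 ⟨t0, t1, H, hH0, hHD, j, hj, hx, not_lt.1 h⟩) hJ
      (fun v _ => by
        by_contra h
        exact c2 ⟨t0, t1, v, (not_le.1 h).le⟩) hA1 hA2
    linarith
  refine (measure_mono hsub).trans ((measure_union_le _ _).trans ((add_le_add E1 (E2 H hH0 hHD)).trans ?_))
  rw [← ENNReal.ofReal_add (by positivity) (by positivity)]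
  refine ENNReal.ofReal_le_ofReal ?_
  rw [← add_mul]
  refine mul_le_mul_of_nonneg_right ?_ hX0.le
  linarith

/-- the phases below the position, all windows at once -/
theorem ph_b (hM : S_MNB) (hLaw : S_LAW) (hS : S_SUPW) (q : ℤ) (hq : q ≠ 0) (k D : ℝ) (hk : 1 < k) (hD : 0 ≤ D) (ε : ℝ)
    (hε : 0 < ε) : Ev fun X δ => volume {t : ℝ | 0 ≤ t ∧ t ≤ X ∧ ∃ H : ℝ, 0 < H ∧ H ≤ δ ^ (-D) ∧
      ∃ y : ℝ, y ≤ pos k δ H - ε ∧ ε ≤ ‖Jn q k y δ t H‖} ≤ ENNReal.ofReal (ε * X) := by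
  have hk0 : 0 < k := by linarith
  obtain ⟨A, η, τ, e, J, hηp, hηε, hτp, hτ1, hep, heε, hJ, hA1, hA2, hsum⟩ := grid_ex ε hε
  refine ((grid_ph hM hLaw q hq k D hk A η τ (ε / 2) J hηp hτp hτ1 (by positivity)).and
    (law_b hM hLaw hS k D hk hD e hep)).mono ?_
  rintro X δ hX1 h0 h1 ⟨E1, E2⟩
  have hX0 : 0 < X := by linarith
  have hsub : {t : ℝ | 0 ≤ t ∧ t ≤ X ∧ ∃ H : ℝ, 0 < H ∧ H ≤ δ ^ (-D) ∧
      ∃ y : ℝ, y ≤ pos k δ H - ε ∧ ε ≤ ‖Jn q k y δ t H‖} ⊆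
      {t : ℝ | 0 ≤ t ∧ t ≤ X ∧ ∃ H : ℝ, 0 < H ∧ H ≤ δ ^ (-D) ∧ ∃ j : ℕ, j ≤ J ∧
        -A + j * η + 4 * η ≤ pos k δ H ∧ τ ≤ ‖Cn q k (-A + j * η) η δ t H‖} ∪
      {t : ℝ | 0 ≤ t ∧ t ≤ X ∧ ∃ H : ℝ, 0 < H ∧ H ≤ δ ^ (-D) ∧ ∃ y : ℝ, y ≤ pos k δ H - e ∧
        e ≤ |Jw k y δ t H - Phi y|} := by
    rintro t ⟨t0, t1, H, hH0, hHD, y, hyx, hy⟩
    by_contra hcon
    simp only [Set.mem_union, not_or] at hcon
    obtain ⟨c1, c2⟩ := hcon
    have key := lev_n (I := fun y => Jw k y δ t H) (c := fun j => ‖Cn q k (-A + j * η) η δ t H‖)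
      (N := ‖Jn q k y δ t H‖) (x := pos k δ H) (A := A) (η := η) (e := e) (τ := τ) (y := y) (J := J) hηp hep hτp.le
      (Jn_le hq hk0.le h0.le h1 hH0) (fun j hj => Jn_sub hq hk0.le hηp h0 h1 hH0 hj)
      (fun j hj hx => by
        by_contra h
        exact c1 ⟨t0, t1, H, hH0, hHD, j, hj, hx, not_lt.1 h⟩) hJ
      (fun v hv => by
        rw [min_eq_left (by linarith)]
        by_contra h
        exact c2 ⟨t0, t1, H, hH0, hHD, v, by linarith, (not_le.1 h).le⟩) hA1 hA2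
    linarith
  refine (measure_mono hsub).trans ((measure_union_le _ _).trans ((add_le_add E1 E2).trans ?_))
  rw [← ENNReal.ofReal_add (by positivity) (by positivity)]
  refine ENNReal.ofReal_le_ofReal ?_
  rw [← add_mul]
  refine mul_le_mul_of_nonneg_right ?_ hX0.le
  linarith

/-- the phases beyond the critical length, all windows at once -/
theorem ph_c (hM : S_MNB) (hLaw : S_LAW) (hS : S_SUPW) (q : ℤ) (hq : q ≠ 0) (k D : ℝ) (hk : 1 < k) (hD : 0 ≤ D) (ε : ℝ)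
    (hε : 0 < ε) : ∃ A0 : ℝ, Ev fun X δ => volume {t : ℝ | 0 ≤ t ∧ t ≤ X ∧ ∃ H : ℝ, 0 < H ∧ H ≤ δ ^ (-D) ∧
      A0 ≤ pos k δ H ∧ ∃ y : ℝ, ε ≤ ‖Jn q k y δ t H‖} ≤ ENNReal.ofReal (ε * X) := by
  have hk0 : 0 < k := by linarith
  obtain ⟨A, η, τ, e, J, hηp, hηε, hτp, hτ1, hep, heε, hJ, hA1, hA2, hsum⟩ := grid_ex ε hε
  obtain ⟨A5, H5⟩ := law_c hM hLaw hS k D hk hD (e / 2) (by positivity)
  obtain ⟨A3, H3⟩ := eventually_atTop.1 ((tendsto_order.1 Phi_top).1 (1 - e / 2) (by linarith))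
  refine ⟨max A3 A5, ((grid_ph hM hLaw q hq k D hk A η τ (ε / 2) J hηp hτp hτ1 (by positivity)).and H5).mono ?_⟩
  rintro X δ hX1 h0 h1 ⟨E1, E2⟩
  have hX0 : 0 < X := by linarith
  have hsub : {t : ℝ | 0 ≤ t ∧ t ≤ X ∧ ∃ H : ℝ, 0 < H ∧ H ≤ δ ^ (-D) ∧
      max A3 A5 ≤ pos k δ H ∧ ∃ y : ℝ, ε ≤ ‖Jn q k y δ t H‖} ⊆
      {t : ℝ | 0 ≤ t ∧ t ≤ X ∧ ∃ H : ℝ, 0 < H ∧ H ≤ δ ^ (-D) ∧ ∃ j : ℕ, j ≤ J ∧
        -A + j * η + 4 * η ≤ pos k δ H ∧ τ ≤ ‖Cn q k (-A + j * η) η δ t H‖} ∪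
      {t : ℝ | 0 ≤ t ∧ t ≤ X ∧ ∃ H : ℝ, 0 < H ∧ H ≤ δ ^ (-D) ∧ A5 ≤ pos k δ H ∧ ∃ y : ℝ,
        e / 2 ≤ |Jw k y δ t H - Phi y|} := by
    rintro t ⟨t0, t1, H, hH0, hHD, hA, y, hy⟩
    have hx1 : A3 ≤ pos k δ H := (le_max_left _ _).trans hA
    have hx2 : A5 ≤ pos k δ H := (le_max_right _ _).trans hA
    by_contra hcon
    simp only [Set.mem_union, not_or] at hcon
    obtain ⟨c1, c2⟩ := hcon
    have key := lev_n (I := fun y => Jw k y δ t H) (c := fun j => ‖Cn q k (-A + j * η) η δ t H‖)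
      (N := ‖Jn q k y δ t H‖) (x := pos k δ H) (A := A) (η := η) (e := e) (τ := τ) (y := y) (J := J) hηp hep hτp.le
      (Jn_le hq hk0.le h0.le h1 hH0) (fun j hj => Jn_sub hq hk0.le hηp h0 h1 hH0 hj)
      (fun j hj hx => by
        by_contra h
        exact c1 ⟨t0, t1, H, hH0, hHD, j, hj, hx, not_lt.1 h⟩) hJ
      (fun v _ => by
        have g1 : |Jw k v δ t H - Phi v| < e / 2 := by
          by_contra h
          exact c2 ⟨t0, t1, H, hH0, hHD, hx2, v, not_lt.1 h⟩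
        have g2 : |Phi v - Phi (min v (pos k δ H))| ≤ e / 2 := by
          rcases le_or_gt v (pos k δ H) with h | h
          · rw [min_eq_left h, sub_self, abs_zero]
            positivity
          · rw [min_eq_right h.le]
            have g3 := Phi_le_one v
            have g4 := H3 _ hx1
            have g5 := Phi_mono h.le
            rw [abs_le]
            constructor <;> linarith
        have g3 := abs_sub_le (Jw k v δ t H) (Phi v) (Phi (min v (pos k δ H)))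
        linarith) hA1 hA2
    linarith
  refine (measure_mono hsub).trans ((measure_union_le _ _).trans ((add_le_add E1 E2).trans ?_))
  rw [← ENNReal.ofReal_add (by positivity) (by positivity)]
  refine ENNReal.ofReal_le_ofReal ?_
  rw [← add_mul]
  refine mul_le_mul_of_nonneg_right ?_ hX0.le
  linarith

end Run7.h701.PH
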