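import Pool.Agent.Run7.h701.PH.G

set_option autoImplicit false

/-! The phase of zeta in the moment measures of windows: the distribution function -/

namespace Run7.h701.PH

open Finset Filter MeasureTheory Topology Complex
open Pool.Agent.N748.MG hiding Phi
open Pool.Agent.N748.MJ Run7.h291.WN Run7.h291.WC Run7.h701.LW

lemma ev_fs (S : Finset ℤ) {P : ℤ → ℝ → ℝ → Prop} (h : ∀ q ∈ S, Ev (P q)) : Ev fun X δ => ∀ q ∈ S, P q X δ := by
  classical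
  induction S using Finset.induction_on with
  | empty =>
    exact (Ev.of_ev (P := fun _ => True) (Eventually.of_forall fun _ => trivial)).mono fun X δ _ _ _ _ q hq =>
      absurd hq (Finset.notMem_empty q)
  | insert a S ha ih =>
    refine ((ih fun q hq => h q (Finset.mem_insert_of_mem hq)).and (h a (Finset.mem_insert_self _ _))).mono ?_
    rintro X δ _ _ _ ⟨h1, h2⟩ q hq
    rcases Finset.mem_insert.1 hq with h3 | h3
    · rw [h3]
      exact h2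
    · exact h1 q h3

/-- the union of the exceptional sets -/
lemma bad_union {S : Finset ℤ} {B : ℤ → Set ℝ} {A : Set ℝ} {ε X e : ℝ} (hX : 0 ≤ X) (hε : 0 ≤ ε)
    (he : e ≤ ε / (2 * ((S.card : ℝ) + 1))) (hB : ∀ q ∈ S, volume (B q) ≤ ENNReal.ofReal (e * X))
    (hA : volume A ≤ ENNReal.ofReal (ε / 2 * X)) :
    volume ((⋃ q ∈ S, B q) ∪ A) ≤ ENNReal.ofReal (ε * X) := by
  refine (measure_union_le _ _).trans ?_
  have h1 : volume (⋃ q ∈ S, B q) ≤ ENNReal.ofReal (ε / 2 * X) := by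
    refine (measure_biUnion_finset_le _ _).trans ?_
    refine (Finset.sum_le_card_nsmul _ _ (ENNReal.ofReal (e * X)) hB).trans ?_
    rw [← ENNReal.ofReal_nsmul]
    refine ENNReal.ofReal_le_ofReal ?_
    rw [nsmul_eq_mul]
    have h2 : (0:ℝ) ≤ S.card := Nat.cast_nonneg _
    have h3 : (S.card:ℝ) * e ≤ ε / 2 := by
      calc (S.card:ℝ) * e ≤ S.card * (ε / (2 * ((S.card : ℝ) + 1))) := mul_le_mul_of_nonneg_left he h2
        _ ≤ (S.card + 1) * (ε / (2 * ((S.card : ℝ) + 1))) := mul_le_mul_of_nonneg_right (by linarith) (by positivity)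
        _ = ε / 2 := by field_simp
    calc (S.card:ℝ) * (e * X) = (S.card * e) * X := by ring
      _ ≤ ε / 2 * X := mul_le_mul_of_nonneg_right h3 hX
  refine (add_le_add h1 hA).trans (le_of_eq ?_)
  rw [← ENNReal.ofReal_add (by positivity) (by positivity)]
  congr 1
  ring

/-- the phases, one window length, all levels and all arcs -/
theorem arc_a (hM : S_MNB) (hLaw : S_LAW) (hS : S_SUPW) (k D : ℝ) (hk : 1 < k) (hD : 0 ≤ D) (ε : ℝ)
    (hε : 0 < ε) : Ev fun X δ => ∀ H : ℝ, 0 < H → H ≤ δ ^ (-D) →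
    volume {t : ℝ | 0 ≤ t ∧ t ≤ X ∧ ∃ y β : ℝ, -Real.pi ≤ β ∧ β ≤ Real.pi ∧
      ε ≤ |Ja (-Real.pi) β k y δ t H - (β + Real.pi) / (2 * Real.pi) * Jw k y δ t H|} ≤ ENNReal.ofReal (ε * X) := by
  have hk0 : 0 < k := by linarith
  obtain ⟨S, hS0, e, he, key⟩ := arcs (show 0 < ε / 2 by positivity)
  set e' : ℝ := min e (ε / (2 * ((S.card : ℝ) + 1))) with he'
  have hcard : (0:ℝ) ≤ S.card := Nat.cast_nonneg _
  have he'0 : 0 < e' := lt_min he (by positivity)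
  set e2 : ℝ := min 1 (ε / 2) with he2
  have he20 : 0 < e2 := lt_min one_pos (by positivity)
  refine ((ev_fs S fun q hq => ph_a hM hLaw hS q (fun h => hS0 (h ▸ hq)) k D hk hD e' he'0).and
    (law_a hM hLaw hS k D hk hD e2 he20)).mono ?_
  rintro X δ hX1 h0 h1 ⟨E1, E2⟩ H hH0 hHD
  have hX0 : 0 < X := by linarith
  refine (measure_mono ?_).trans (bad_union (S := S) (B := fun q => {t : ℝ | 0 ≤ t ∧ t ≤ X ∧ ∃ y : ℝ,
    e' ≤ ‖Jn q k y δ t H‖}) (A := {t : ℝ | 0 ≤ t ∧ t ≤ X ∧ ∃ y : ℝ, e2 ≤ |Jw k y δ t H - Phi (min y (pos k δ H))|})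
    (ε := ε) (X := X) (e := e') hX0.le hε.le (min_le_right _ _) (fun q hq => E1 q hq H hH0 hHD)
    ((E2 H hH0 hHD).trans (ENNReal.ofReal_le_ofReal (mul_le_mul_of_nonneg_right (min_le_right _ _) hX0.le))))
  rintro t ⟨t0, t1, y, β, hβ1, hβ2, hy⟩
  by_contra hcon
  simp only [Set.mem_union, not_or, Set.mem_iUnion, not_exists] at hcon
  obtain ⟨c1, c2⟩ := hcon
  have g1 : |Jw k y δ t H - Phi (min y (pos k δ H))| < e2 := by
    by_contra h
    exact c2 ⟨t0, t1, y, not_lt.1 h⟩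
  have g2 : Jw k y δ t H ≤ 2 := by
    have := (abs_lt.1 g1).2
    have := Phi_le_one (min y (pos k δ H))
    have : e2 ≤ 1 := min_le_left _ _
    linarith
  have g3 := key k y δ t H hk0 h0 h1 hH0 g2 (fun q hq => by
    by_contra h
    exact c1 q hq ⟨t0, t1, y, (min_le_left _ _).trans (not_le.1 h).le⟩) β hβ1 hβ2
  linarith

/-- the phases below the position, all windows at once -/
theorem arc_b (hM : S_MNB) (hLaw : S_LAW) (hS : S_SUPW) (k D : ℝ) (hk : 1 < k) (hD : 0 ≤ D) (ε : ℝ)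
    (hε : 0 < ε) : Ev fun X δ => volume {t : ℝ | 0 ≤ t ∧ t ≤ X ∧ ∃ H : ℝ, 0 < H ∧ H ≤ δ ^ (-D) ∧
      ∃ y β : ℝ, y ≤ pos k δ H - ε ∧ -Real.pi ≤ β ∧ β ≤ Real.pi ∧
      ε ≤ |Ja (-Real.pi) β k y δ t H - (β + Real.pi) / (2 * Real.pi) * Jw k y δ t H|} ≤ ENNReal.ofReal (ε * X) := by
  have hk0 : 0 < k := by linarith
  obtain ⟨S, hS0, e, he, key⟩ := arcs (show 0 < ε / 2 by positivity)
  set e' : ℝ := min e (ε / (2 * ((S.card : ℝ) + 1))) with he'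
  have hcard : (0:ℝ) ≤ S.card := Nat.cast_nonneg _
  have he'0 : 0 < e' := lt_min he (by positivity)
  have he'ε : e' ≤ ε := by
    refine (min_le_right _ _).trans (div_le_self hε.le ?_)
    linarith
  set e2 : ℝ := min 1 (ε / 2) with he2
  have he20 : 0 < e2 := lt_min one_pos (by positivity)
  have he2ε : e2 ≤ ε / 2 := min_le_right _ _
  refine ((ev_fs S fun q hq => ph_b hM hLaw hS q (fun h => hS0 (h ▸ hq)) k D hk hD e' he'0).and
    (law_b hM hLaw hS k D hk hD e2 he20)).mono ?_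
  rintro X δ hX1 h0 h1 ⟨E1, E2⟩
  have hX0 : 0 < X := by linarith
  refine (measure_mono ?_).trans (bad_union (S := S) (B := fun q => {t : ℝ | 0 ≤ t ∧ t ≤ X ∧ ∃ H : ℝ, 0 < H ∧
    H ≤ δ ^ (-D) ∧ ∃ y : ℝ, y ≤ pos k δ H - e' ∧ e' ≤ ‖Jn q k y δ t H‖})
    (A := {t : ℝ | 0 ≤ t ∧ t ≤ X ∧ ∃ H : ℝ, 0 < H ∧ H ≤ δ ^ (-D) ∧ ∃ y : ℝ, y ≤ pos k δ H - e2 ∧
      e2 ≤ |Jw k y δ t H - Phi y|})
    (ε := ε) (X := X) (e := e') hX0.le hε.le (min_le_right _ _) (fun q hq => E1 q hq)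
    (E2.trans (ENNReal.ofReal_le_ofReal (mul_le_mul_of_nonneg_right he2ε hX0.le))))
  rintro t ⟨t0, t1, H, hH0, hHD, y, β, hyx, hβ1, hβ2, hy⟩
  by_contra hcon
  simp only [Set.mem_union, not_or, Set.mem_iUnion, not_exists] at hcon
  obtain ⟨c1, c2⟩ := hcon
  have g1 : |Jw k y δ t H - Phi y| < e2 := by
    by_contra h
    exact c2 ⟨t0, t1, H, hH0, hHD, y, by linarith, not_lt.1 h⟩
  have g2 : Jw k y δ t H ≤ 2 := by
    have := (abs_lt.1 g1).2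
    have := Phi_le_one y
    have : e2 ≤ 1 := min_le_left _ _
    linarith
  have g3 := key k y δ t H hk0 h0 h1 hH0 g2 (fun q hq => by
    by_contra h
    exact c1 q hq ⟨t0, t1, H, hH0, hHD, y, by linarith, (min_le_left _ _).trans (not_le.1 h).le⟩) β hβ1 hβ2
  linarith

/-- the phases beyond the critical length, all windows at once -/
theorem arc_c (hM : S_MNB) (hLaw : S_LAW) (hS : S_SUPW) (k D : ℝ) (hk : 1 < k) (hD : 0 ≤ D) (ε : ℝ)
    (hε : 0 < ε) : ∃ A0 : ℝ, Ev fun X δ => volume {t : ℝ | 0 ≤ t ∧ t ≤ X ∧ ∃ H : ℝ, 0 < H ∧ H ≤ δ ^ (-D) ∧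
      A0 ≤ pos k δ H ∧ ∃ y β : ℝ, -Real.pi ≤ β ∧ β ≤ Real.pi ∧
      ε ≤ |Ja (-Real.pi) β k y δ t H - (β + Real.pi) / (2 * Real.pi) * Jw k y δ t H|} ≤ ENNReal.ofReal (ε * X) := by
  classical
  have hk0 : 0 < k := by linarith
  obtain ⟨S, hS0, e, he, key⟩ := arcs (show 0 < ε / 2 by positivity)
  set e' : ℝ := min e (ε / (2 * ((S.card : ℝ) + 1))) with he'
  have hcard : (0:ℝ) ≤ S.card := Nat.cast_nonneg _
  have he'0 : 0 < e' := lt_min he (by positivity)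
  set e2 : ℝ := min 1 (ε / 2) with he2
  have he20 : 0 < e2 := lt_min one_pos (by positivity)
  have he2ε : e2 ≤ ε / 2 := min_le_right _ _
  have hA : ∀ q : ℤ, ∃ A0 : ℝ, q ∈ S → Ev fun X δ => volume {t : ℝ | 0 ≤ t ∧ t ≤ X ∧ ∃ H : ℝ, 0 < H ∧ H ≤ δ ^ (-D) ∧
      A0 ≤ pos k δ H ∧ ∃ y : ℝ, e' ≤ ‖Jn q k y δ t H‖} ≤ ENNReal.ofReal (e' * X) := by
    intro q
    by_cases hq : q ∈ S
    · obtain ⟨A0, h⟩ := ph_c hM hLaw hS q (fun h => hS0 (h ▸ hq)) k D hk hD e' he'0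
      exact ⟨A0, fun _ => h⟩
    · exact ⟨0, fun h => absurd h hq⟩
  choose A hA using hA
  obtain ⟨A1, hA1⟩ := (S.image A).exists_le
  obtain ⟨A2, hA2⟩ := law_c hM hLaw hS k D hk hD e2 he20
  refine ⟨max A1 A2, ((ev_fs S fun q hq => hA q hq).and hA2).mono ?_⟩
  rintro X δ hX1 h0 h1 ⟨E1, E2⟩
  have hX0 : 0 < X := by linarith
  refine (measure_mono ?_).trans (bad_union (S := S) (B := fun q => {t : ℝ | 0 ≤ t ∧ t ≤ X ∧ ∃ H : ℝ, 0 < H ∧
    H ≤ δ ^ (-D) ∧ A q ≤ pos k δ H ∧ ∃ y : ℝ, e' ≤ ‖Jn q k y δ t H‖})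
    (A := {t : ℝ | 0 ≤ t ∧ t ≤ X ∧ ∃ H : ℝ, 0 < H ∧ H ≤ δ ^ (-D) ∧ A2 ≤ pos k δ H ∧ ∃ y : ℝ,
      e2 ≤ |Jw k y δ t H - Phi y|})
    (ε := ε) (X := X) (e := e') hX0.le hε.le (min_le_right _ _) (fun q hq => E1 q hq)
    (E2.trans (ENNReal.ofReal_le_ofReal (mul_le_mul_of_nonneg_right he2ε hX0.le))))
  rintro t ⟨t0, t1, H, hH0, hHD, hAx, y, β, hβ1, hβ2, hy⟩
  by_contra hcon
  simp only [Set.mem_union, not_or, Set.mem_iUnion, not_exists] at hcon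
  obtain ⟨c1, c2⟩ := hcon
  have g1 : |Jw k y δ t H - Phi y| < e2 := by
    by_contra h
    exact c2 ⟨t0, t1, H, hH0, hHD, (le_max_right _ _).trans hAx, y, not_lt.1 h⟩
  have g2 : Jw k y δ t H ≤ 2 := by
    have := (abs_lt.1 g1).2
    have := Phi_le_one y
    have : e2 ≤ 1 := min_le_left _ _
    linarith
  have g3 := key k y δ t H hk0 h0 h1 hH0 g2 (fun q hq => by
    by_contra h
    have h5 : A q ≤ A1 := hA1 _ (Finset.mem_image_of_mem A hq)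
    exact c1 q hq ⟨t0, t1, H, hH0, hHD, h5.trans ((le_max_left _ _).trans hAx), y,
      (min_le_left _ _).trans (not_le.1 h).le⟩) β hβ1 hβ2
  linarith

end Run7.h701.PH
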