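import Pool.Agent.Run7.h701.PH.F
import Pool.Agent.Run7.h701.PH.Arc

set_option autoImplicit false

/-! The phase of zeta in the moment measures of windows: all levels and all arcs -/

namespace Run7.h701.PH

open Finset Filter MeasureTheory Topology Complex
open Pool.Agent.N748.MG hiding Phi
open Pool.Agent.N748.MJ Run7.h291.WN Run7.h291.WC Run7.h701.LW

/-- the argument -/
noncomputable def ar (δ u : ℝ) : ℝ := (riemannZeta (pw δ u)).arg

/-- the points with argument in an arc -/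
def As (a b δ : ℝ) : Set ℝ := {u : ℝ | a ≤ ar δ u ∧ ar δ u ≤ b}

lemma ar_meas {δ : ℝ} (h0 : 0 < δ) (h1 : δ ≤ 1 / 16) : Measurable (ar δ) :=
  Complex.measurable_arg.comp (JM.zc δ h0 h1).measurable

lemma As_meas {a b δ : ℝ} (h0 : 0 < δ) (h1 : δ ≤ 1 / 16) : MeasurableSet (As a b δ) :=
  (measurableSet_le measurable_const (ar_meas h0 h1)).inter (measurableSet_le (ar_meas h0 h1) measurable_const)

/-- the mean over the window of the weight below the level on the points with argument in an arc -/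
noncomputable def Ja (a b k y δ t H : ℝ) : ℝ := (1 / H) * ∫ u in t..(t + H), (As a b δ).indicator (Zy k y δ) u

lemma Ja_int {a b k y δ : ℝ} (hk : 0 ≤ k) (h0 : 0 < δ) (h1 : δ ≤ 1 / 16) (s t : ℝ) :
    IntervalIntegrable (fun u => (As a b δ).indicator (Zy k y δ) u) volume s t :=
  ⟨(Zy_int hk h1 s t).1.indicator (As_meas h0 h1), (Zy_int hk h1 s t).2.indicator (As_meas h0 h1)⟩

lemma ph_pow (q : ℤ) (δ u : ℝ) : ph q δ u = (ph 1 δ u) ^ q := by
  unfold ph
  rw [zpow_one]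

lemma arg_ph {δ u : ℝ} (h : 0 < mz δ u) : (ph 1 δ u).arg = ar δ u := by
  have h' : 0 < ‖riemannZeta (pw δ u)‖ := h
  unfold ph ar
  rw [zpow_one, div_eq_inv_mul, ← Complex.ofReal_inv, Complex.arg_real_mul _ (inv_pos.2 h')]

lemma Zy_zero {k y δ u : ℝ} (hk : 0 < k) (h : mz δ u = 0) : Zy k y δ u = 0 := by
  unfold Zy
  rw [Set.indicator_apply]
  split_ifs
  · exact Zk_zero hk h
  · rfl

/-- the mean of a continuous function of the phase -/
lemma Jh_bd {h : ℂ → ℝ} (hh : Continuous h) (h01 : ∀ w, 0 ≤ h w) (h11 : ∀ w, h w ≤ 1) {ε' : ℝ} (_hε' : 0 ≤ ε')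
    {S : Finset ℤ} {c : ℤ → ℂ} (hS : 0 ∉ S)
    (happ : ∀ w : ℂ, ‖w‖ = 1 → ‖((h w : ℝ) : ℂ) - (mean (fun w => ((h w : ℝ) : ℂ)) + ∑ q ∈ S, c q * w ^ q)‖ ≤ ε')
    {k y δ t H : ℝ} (hk : 0 < k) (h0 : 0 < δ) (h1 : δ ≤ 1 / 16) (hH : 0 < H) :
    (1 / H) * (∫ u in t..(t + H), Zy k y δ u * h (ph 1 δ u)) ≤
      mr h * Jw k y δ t H + (∑ q ∈ S, ‖c q‖ * ‖Jn q k y δ t H‖) + ε' * Jw k y δ t H := by
  have hZi : IntervalIntegrable (Zy k y δ) volume t (t + H) := Zy_int hk.le h1 _ _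
  have hhm : Measurable fun u => h (ph 1 δ u) := hh.measurable.comp (ph_meas 1 h0 h1)
  have hb : ∀ μ : Measure ℝ, ∀ᵐ u ∂μ, ‖h (ph 1 δ u)‖ ≤ 1 := fun μ => Eventually.of_forall fun u => by
    rw [Real.norm_of_nonneg (h01 _)]
    exact h11 _
  have hRi : IntervalIntegrable (fun u => Zy k y δ u * h (ph 1 δ u)) volume t (t + H) :=
    ⟨Integrable.mul_bdd hZi.1 hhm.aestronglyMeasurable (hb _), Integrable.mul_bdd hZi.2 hhm.aestronglyMeasurable (hb _)⟩
  have hqi : ∀ q ∈ S, IntervalIntegrable (fun u => c q * (((Zy k y δ u : ℝ) : ℂ) * ph q δ u)) volume t (t + H) := by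
    intro q hq
    have hq0 : q ≠ 0 := fun h => hS (h ▸ hq)
    exact (wph_int hZi hq0 h0 h1).const_mul _
  have hRi' : IntervalIntegrable (fun u => ((Zy k y δ u * h (ph 1 δ u) : ℝ) : ℂ)) volume t (t + H) :=
    ⟨hRi.1.ofReal, hRi.2.ofReal⟩
  have hZi' : IntervalIntegrable (fun u => ((mr h * Zy k y δ u : ℝ) : ℂ)) volume t (t + H) :=
    ⟨(hZi.1.const_mul (mr h)).ofReal, (hZi.2.const_mul (mr h)).ofReal⟩
  set Er : ℝ → ℂ := fun u => ((Zy k y δ u * h (ph 1 δ u) : ℝ) : ℂ) - ((mr h * Zy k y δ u : ℝ) : ℂ) -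
    ∑ q ∈ S, c q * (((Zy k y δ u : ℝ) : ℂ) * ph q δ u) with hEr
  have e1 : (((1 / H) * (∫ u in t..(t + H), Zy k y δ u * h (ph 1 δ u)) - mr h * Jw k y δ t H : ℝ) : ℂ) =
      (∑ q ∈ S, c q * Jn q k y δ t H) + (1 / (H:ℂ)) * ∫ u in t..(t + H), Er u := by
    have hsi : IntervalIntegrable (fun u => ∑ q ∈ S, c q * (((Zy k y δ u : ℝ) : ℂ) * ph q δ u)) volume t (t + H) := by
      have hs := IntervalIntegrable.sum S hqi
      have he : (∑ q ∈ S, fun u => c q * (((Zy k y δ u : ℝ) : ℂ) * ph q δ u)) =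
          fun u => ∑ q ∈ S, c q * (((Zy k y δ u : ℝ) : ℂ) * ph q δ u) := by
        funext u
        rw [Finset.sum_apply]
      rwa [he] at hs
    rw [hEr, intervalIntegral.integral_sub (hRi'.sub hZi') hsi,
      intervalIntegral.integral_sub hRi' hZi', intervalIntegral.integral_ofReal, intervalIntegral.integral_ofReal,
      intervalIntegral.integral_const_mul]
    have e3 : ∫ u in t..(t + H), ∑ q ∈ S, c q * (((Zy k y δ u : ℝ) : ℂ) * ph q δ u) =
        ∑ q ∈ S, c q * ∫ u in t..(t + H), (((Zy k y δ u : ℝ) : ℂ) * ph q δ u) := by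
      rw [intervalIntegral.integral_finsetSum hqi]
      refine Finset.sum_congr rfl fun q _ => ?_
      rw [intervalIntegral.integral_const_mul]
    rw [e3]
    unfold Jw Jn
    have e4 : ∑ q ∈ S, c q * (1 / (H:ℂ) * ∫ u in t..(t + H), ((Zy k y δ u : ℝ) : ℂ) * ph q δ u) =
        (1 / (H:ℂ)) * ∑ q ∈ S, c q * ∫ u in t..(t + H), ((Zy k y δ u : ℝ) : ℂ) * ph q δ u := by
      rw [Finset.mul_sum]
      refine Finset.sum_congr rfl fun q _ => ?_
      ring
    rw [e4]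
    push_cast
    ring
  have hpt : ∀ u, ‖Er u‖ ≤ ε' * Zy k y δ u := by
    intro u
    rcases (TMA.mz_nn δ u).eq_or_lt with hu | hu
    · have hz : Zy k y δ u = 0 := Zy_zero hk hu.symm
      simp only [hEr, hz, zero_mul, mul_zero, Complex.ofReal_zero, Finset.sum_const_zero, sub_self, norm_zero, le_refl]
    · have hn := ph_norm (n := 1) hu
      have e2 : Er u = ((Zy k y δ u : ℝ) : ℂ) * (((h (ph 1 δ u) : ℝ) : ℂ) -
          (mean (fun w => ((h w : ℝ) : ℂ)) + ∑ q ∈ S, c q * (ph 1 δ u) ^ q)) := by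
        rw [hEr, mean_real]
        simp only
        rw [mul_sub, mul_add, Finset.mul_sum]
        have e3 : ∑ q ∈ S, ((Zy k y δ u : ℝ) : ℂ) * (c q * (ph 1 δ u) ^ q) =
            ∑ q ∈ S, c q * (((Zy k y δ u : ℝ) : ℂ) * ph q δ u) := by
          refine Finset.sum_congr rfl fun q _ => ?_
          rw [ph_pow q]
          ring
        rw [e3]
        push_cast
        ring
      rw [e2, norm_mul, Complex.norm_real, Real.norm_of_nonneg (Zy_nn h0.le u), mul_comm]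
      exact mul_le_mul_of_nonneg_right (happ _ hn) (Zy_nn h0.le u)
  have hEb : ‖(1 / (H:ℂ)) * ∫ u in t..(t + H), Er u‖ ≤ ε' * Jw k y δ t H := by
    rw [norm_mul, norm_div, norm_one, Complex.norm_real, Real.norm_of_nonneg hH.le]
    have h2 : ‖∫ u in t..(t + H), Er u‖ ≤ ∫ u in t..(t + H), ε' * Zy k y δ u :=
      intervalIntegral.norm_integral_le_of_norm_le (by linarith) (Eventually.of_forall fun u _ => hpt u)
        (hZi.const_mul _)
    rw [intervalIntegral.integral_const_mul] at h2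
    calc 1 / H * ‖∫ u in t..(t + H), Er u‖ ≤ 1 / H * (ε' * ∫ u in t..(t + H), Zy k y δ u) :=
          mul_le_mul_of_nonneg_left h2 (by positivity)
      _ = ε' * Jw k y δ t H := by
          unfold Jw
          ring
  have h3 : (1 / H) * (∫ u in t..(t + H), Zy k y δ u * h (ph 1 δ u)) - mr h * Jw k y δ t H ≤
      (∑ q ∈ S, ‖c q‖ * ‖Jn q k y δ t H‖) + ε' * Jw k y δ t H := by
    refine (le_abs_self _).trans ?_
    rw [← Real.norm_eq_abs, ← Complex.norm_real, e1]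
    refine (norm_add_le _ _).trans (add_le_add ?_ hEb)
    refine (norm_sum_le _ _).trans (Finset.sum_le_sum fun q _ => ?_)
    rw [norm_mul]
  linarith

/-- one arc -/
lemma arc_one {a b : ℝ} (ha : -Real.pi ≤ a) (hab : a ≤ b) (hb : b ≤ Real.pi) {ε : ℝ} (hε : 0 < ε) :
    ∃ S : Finset ℤ, 0 ∉ S ∧ ∃ e : ℝ, 0 < e ∧ ∀ k y δ t H : ℝ, 0 < k → 0 < δ → δ ≤ 1 / 16 → 0 < H →
      Jw k y δ t H ≤ 2 → (∀ q ∈ S, ‖Jn q k y δ t H‖ ≤ e) →
      Ja a b k y δ t H ≤ (b - a) / (2 * Real.pi) * Jw k y δ t H + ε := by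
  classical
  obtain ⟨h, hh, h01, h11, hone, hmr⟩ := arcK ha hab hb (show 0 < ε / 8 by positivity)
  obtain ⟨S, c, hS, happ⟩ := trig (fun w => ((h w : ℝ) : ℂ)) (Complex.continuous_ofReal.comp hh) (ε / 8) (by positivity)
  set Q : ℝ := ∑ q ∈ S, ‖c q‖ with hQ
  have hQ0 : 0 ≤ Q := Finset.sum_nonneg fun q _ => norm_nonneg _
  refine ⟨S, hS, ε / (4 * (Q + 1)), by positivity, fun k y δ t H hk h0 h1 hH hJ hq => ?_⟩
  have key := Jh_bd hh h01 h11 (by positivity) hS happ (k := k) (y := y) (t := t) hk h0 h1 hH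
  have hJ0 : 0 ≤ Jw k y δ t H := Jw_nn h0.le hH
  have h2 : ∑ q ∈ S, ‖c q‖ * ‖Jn q k y δ t H‖ ≤ ε / 4 := by
    calc ∑ q ∈ S, ‖c q‖ * ‖Jn q k y δ t H‖ ≤ ∑ q ∈ S, ‖c q‖ * (ε / (4 * (Q + 1))) :=
          Finset.sum_le_sum fun q hq' => mul_le_mul_of_nonneg_left (hq q hq') (norm_nonneg _)
      _ = Q * (ε / (4 * (Q + 1))) := by rw [← Finset.sum_mul]
      _ ≤ (Q + 1) * (ε / (4 * (Q + 1))) := mul_le_mul_of_nonneg_right (by linarith) (by positivity)
      _ = ε / 4 := by field_simp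
  have h3 : Ja a b k y δ t H ≤ (1 / H) * (∫ u in t..(t + H), Zy k y δ u * h (ph 1 δ u)) := by
    unfold Ja
    refine mul_le_mul_of_nonneg_left ?_ (by positivity)
    have hZi : IntervalIntegrable (Zy k y δ) volume t (t + H) := Zy_int hk.le h1 _ _
    have hhm : Measurable fun u => h (ph 1 δ u) := hh.measurable.comp (ph_meas 1 h0 h1)
    have hb : ∀ μ : Measure ℝ, ∀ᵐ u ∂μ, ‖h (ph 1 δ u)‖ ≤ 1 := fun μ => Eventually.of_forall fun u => by
      rw [Real.norm_of_nonneg (h01 _)]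
      exact h11 _
    refine intervalIntegral.integral_mono_on (by linarith) (Ja_int hk.le h0 h1 _ _)
      ⟨Integrable.mul_bdd hZi.1 hhm.aestronglyMeasurable (hb _), Integrable.mul_bdd hZi.2 hhm.aestronglyMeasurable (hb _)⟩
      fun u _ => ?_
    rcases (TMA.mz_nn δ u).eq_or_lt with hu | hu
    · rw [Set.indicator_apply, Zy_zero hk hu.symm]
      simp
    · by_cases hm : u ∈ As a b δ
      · rw [Set.indicator_of_mem hm, hone (ph 1 δ u) (ph_norm hu) (by rw [arg_ph hu]; exact hm.1)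
          (by rw [arg_ph hu]; exact hm.2), mul_one]
      · rw [Set.indicator_of_notMem hm]
        exact mul_nonneg (Zy_nn h0.le u) (h01 _)
  have h4 : mr h * Jw k y δ t H ≤ ((b - a) / (2 * Real.pi) + ε / 8) * Jw k y δ t H :=
    mul_le_mul_of_nonneg_right hmr hJ0
  have h5 : ε / 8 * Jw k y δ t H ≤ ε / 8 * 2 := mul_le_mul_of_nonneg_left hJ (by positivity)
  linarith

/-- finite families -/
lemma fin_fam {n : ℕ} {P : Fin n → Finset ℤ → ℝ → Prop}
    (hmono : ∀ (i : Fin n) (S S' : Finset ℤ) (e e' : ℝ), S ⊆ S' → e' ≤ e → P i S e → P i S' e')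
    (h : ∀ i : Fin n, ∃ S : Finset ℤ, 0 ∉ S ∧ ∃ e : ℝ, 0 < e ∧ P i S e) :
    ∃ S : Finset ℤ, 0 ∉ S ∧ ∃ e : ℝ, 0 < e ∧ ∀ i, P i S e := by
  classical
  choose S hS e he hP using h
  have hQ : ∀ i, 1 / e i ≤ ∑ j, 1 / e j := fun i =>
    Finset.single_le_sum (f := fun j => 1 / e j) (fun j _ => (by have := he j; positivity)) (Finset.mem_univ i)
  have hQ0 : 0 ≤ ∑ j, 1 / e j := Finset.sum_nonneg fun j _ => (by have := he j; positivity)
  refine ⟨Finset.univ.biUnion S, ?_, 1 / ((∑ j, 1 / e j) + 1), by positivity, fun i => ?_⟩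
  · simp [hS]
  · refine hmono i (S i) _ (e i) _ (Finset.subset_biUnion_of_mem S (Finset.mem_univ i)) ?_ (hP i)
    have h1 := hQ i
    rw [div_le_iff₀ (he i)] at h1
    rw [div_le_iff₀ (by positivity)]
    have h2 := he i
    nlinarith

/-- all arcs -/
lemma arcs {ε : ℝ} (hε : 0 < ε) : ∃ S : Finset ℤ, 0 ∉ S ∧ ∃ e : ℝ, 0 < e ∧ ∀ k y δ t H : ℝ, 0 < k → 0 < δ →
    δ ≤ 1 / 16 → 0 < H → Jw k y δ t H ≤ 2 → (∀ q ∈ S, ‖Jn q k y δ t H‖ ≤ e) →
    ∀ β : ℝ, -Real.pi ≤ β → β ≤ Real.pi →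
      |Ja (-Real.pi) β k y δ t H - (β + Real.pi) / (2 * Real.pi) * Jw k y δ t H| ≤ ε := by
  have hpi := Real.pi_pos
  obtain ⟨M, hM⟩ := exists_nat_ge (8 / ε + 1)
  have hM1 : 8 / ε ≤ M := by linarith
  have hM0 : (0:ℝ) < M := by
    have : 0 < 8 / ε := by positivity
    linarith
  rw [div_le_iff₀ hε] at hM1
  set be : ℕ → ℝ := fun i => -Real.pi + 2 * Real.pi * (i / M) with hbe
  have hb1 : ∀ i : ℕ, -Real.pi ≤ be i := fun i => by
    have : 0 ≤ 2 * Real.pi * ((i:ℝ) / M) := by positivity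
    simp only [hbe]
    linarith
  have hb2 : ∀ i : ℕ, i ≤ M → be i ≤ Real.pi := fun i hi => by
    have h1 : (i:ℝ) / M ≤ 1 := by
      rw [div_le_one hM0]
      exact_mod_cast hi
    have h2 := mul_le_mul_of_nonneg_left h1 (show 0 ≤ 2 * Real.pi by positivity)
    simp only [hbe]
    linarith
  have H1 := fin_fam (n := M + 1) (P := fun i S e => ∀ k y δ t H : ℝ, 0 < k → 0 < δ → δ ≤ 1 / 16 → 0 < H →
      Jw k y δ t H ≤ 2 → (∀ q ∈ S, ‖Jn q k y δ t H‖ ≤ e) →
      Ja (-Real.pi) (be i) k y δ t H ≤ (be i - -Real.pi) / (2 * Real.pi) * Jw k y δ t H + ε / 4)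
    (fun i S S' e e' hSS hee hP k y δ t H hk h0 h1 hH hJ hq =>
      hP k y δ t H hk h0 h1 hH hJ fun q hqS => (hq q (hSS hqS)).trans hee)
    (fun i => arc_one le_rfl (hb1 i) (hb2 i (by omega)) (by positivity))
  have H2 := fin_fam (n := M + 1) (P := fun i S e => ∀ k y δ t H : ℝ, 0 < k → 0 < δ → δ ≤ 1 / 16 → 0 < H →
      Jw k y δ t H ≤ 2 → (∀ q ∈ S, ‖Jn q k y δ t H‖ ≤ e) →
      Ja (be i) Real.pi k y δ t H ≤ (Real.pi - be i) / (2 * Real.pi) * Jw k y δ t H + ε / 4)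
    (fun i S S' e e' hSS hee hP k y δ t H hk h0 h1 hH hJ hq =>
      hP k y δ t H hk h0 h1 hH hJ fun q hqS => (hq q (hSS hqS)).trans hee)
    (fun i => arc_one (hb1 i) (hb2 i (by omega)) le_rfl (by positivity))
  obtain ⟨S1, hS1, e1, he1, H1⟩ := H1
  obtain ⟨S2, hS2, e2, he2, H2⟩ := H2
  classical
  refine ⟨S1 ∪ S2, by simp [hS1, hS2], min e1 e2, lt_min he1 he2, fun k y δ t H hk h0 h1 hH hJ hq β hβ1 hβ2 => ?_⟩
  have hJ0 : 0 ≤ Jw k y δ t H := Jw_nn h0.le hH
  set s : ℝ := (β + Real.pi) / (2 * Real.pi) * M with hs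
  have hs0 : 0 ≤ s := by
    have : 0 ≤ β + Real.pi := by linarith
    positivity
  have hsM : s ≤ M := by
    rw [hs]
    refine mul_le_of_le_one_left hM0.le ?_
    rw [div_le_one (by positivity)]
    linarith
  have hsb : (β + Real.pi) / (2 * Real.pi) = s / M := by
    rw [hs]
    field_simp
  have hβs : β = -Real.pi + 2 * Real.pi * (s / M) := by
    rw [← hsb]
    field_simp
    ring
  have q1 : ∀ q ∈ S1, ‖Jn q k y δ t H‖ ≤ e1 := fun q hq' =>
    (hq q (Finset.mem_union_left _ hq')).trans (min_le_left _ _)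
  have q2 : ∀ q ∈ S2, ‖Jn q k y δ t H‖ ≤ e2 := fun q hq' =>
    (hq q (Finset.mem_union_right _ hq')).trans (min_le_right _ _)
  have hM2 : 1 / (M:ℝ) * Jw k y δ t H ≤ ε / 4 := by
    have h2 : 1 / (M:ℝ) * Jw k y δ t H ≤ 1 / (M:ℝ) * 2 := mul_le_mul_of_nonneg_left hJ (by positivity)
    have h3 : 1 / (M:ℝ) * 2 ≤ ε / 4 := by
      rw [one_div, inv_mul_le_iff₀ hM0]
      linarith
    linarith
  rw [hsb, abs_le]
  constructor
  · -- lower bound
    set i : ℕ := ⌊s⌋₊ with hi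
    have hi1 : (i:ℝ) ≤ s := Nat.floor_le hs0
    have hi2 : s < i + 1 := Nat.lt_floor_add_one _
    have hiM : i ≤ M := by
      have : (i:ℝ) ≤ M := hi1.trans hsM
      exact_mod_cast this
    have h2 := H2 ⟨i, by omega⟩ k y δ t H hk h0 h1 hH hJ q2
    have hbi : be i ≤ β := by
      rw [hβs]
      simp only [hbe]
      have : (i:ℝ) / M ≤ s / M := div_le_div_of_nonneg_right hi1 hM0.le
      have h3 := mul_le_mul_of_nonneg_left this (show 0 ≤ 2 * Real.pi by positivity)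
      linarith
    have h3 : Jw k y δ t H ≤ Ja (-Real.pi) β k y δ t H + Ja (be i) Real.pi k y δ t H := by
      unfold Jw Ja
      rw [← mul_add, ← intervalIntegral.integral_add (Ja_int hk.le h0 h1 _ _) (Ja_int hk.le h0 h1 _ _)]
      refine mul_le_mul_of_nonneg_left ?_ (by positivity)
      refine intervalIntegral.integral_mono_on (by linarith) (Zy_int hk.le h1 _ _)
        ((Ja_int hk.le h0 h1 _ _).add (Ja_int hk.le h0 h1 _ _)) fun u _ => ?_
      have hZ := Zy_nn (k := k) (y := y) h0.le u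
      rcases le_or_gt (ar δ u) β with h | h
      · rw [Set.indicator_of_mem (show u ∈ As (-Real.pi) β δ from ⟨(Complex.neg_pi_lt_arg _).le, h⟩)]
        have := Set.indicator_nonneg (s := As (be i) Real.pi δ) (fun v _ => Zy_nn (k := k) (y := y) h0.le v) u
        linarith
      · rw [Set.indicator_of_mem (show u ∈ As (be i) Real.pi δ from ⟨by linarith, Complex.arg_le_pi _⟩)]
        have := Set.indicator_nonneg (s := As (-Real.pi) β δ) (fun v _ => Zy_nn (k := k) (y := y) h0.le v) u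
        linarith
    have h4 : (Real.pi - be i) / (2 * Real.pi) = 1 - i / M := by
      simp only [hbe]
      field_simp
      ring
    simp only at h2
    rw [h4] at h2
    have h5 : (s / M) * Jw k y δ t H ≤ (i / M) * Jw k y δ t H + 1 / (M:ℝ) * Jw k y δ t H := by
      rw [← add_mul, ← add_div]
      exact mul_le_mul_of_nonneg_right (div_le_div_of_nonneg_right hi2.le hM0.le) hJ0
    linarith
  · -- upper bound
    set j : ℕ := ⌈s⌉₊ with hj
    have hj1 : s ≤ j := Nat.le_ceil _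
    have hj2 : (j:ℝ) < s + 1 := Nat.ceil_lt_add_one hs0
    have hjM : j ≤ M := Nat.ceil_le.2 hsM
    have h2 := H1 ⟨j, by omega⟩ k y δ t H hk h0 h1 hH hJ q1
    have hbj : β ≤ be j := by
      rw [hβs]
      simp only [hbe]
      have : s / M ≤ (j:ℝ) / M := div_le_div_of_nonneg_right hj1 hM0.le
      have h3 := mul_le_mul_of_nonneg_left this (show 0 ≤ 2 * Real.pi by positivity)
      linarith
    have h3 : Ja (-Real.pi) β k y δ t H ≤ Ja (-Real.pi) (be j) k y δ t H := by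
      unfold Ja
      refine mul_le_mul_of_nonneg_left ?_ (by positivity)
      refine intervalIntegral.integral_mono_on (by linarith) (Ja_int hk.le h0 h1 _ _) (Ja_int hk.le h0 h1 _ _)
        fun u _ => ?_
      have hss : As (-Real.pi) β δ ⊆ As (-Real.pi) (be j) δ := fun v hv => ⟨hv.1, hv.2.trans hbj⟩
      exact Set.indicator_le_indicator_of_subset hss (fun v => Zy_nn (k := k) (y := y) h0.le v) u
    have h4 : (be j - -Real.pi) / (2 * Real.pi) = j / M := by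
      simp only [hbe]
      field_simp
      ring
    simp only at h2
    rw [h4] at h2
    have h5 : (j / M) * Jw k y δ t H ≤ (s / M) * Jw k y δ t H + 1 / (M:ℝ) * Jw k y δ t H := by
      rw [← add_mul, ← add_div]
      exact mul_le_mul_of_nonneg_right (div_le_div_of_nonneg_right hj2.le hM0.le) hJ0
    linarith

end Run7.h701.PH
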